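import Mathlib
import Pool.Agent.Lib.MP_0209a0_pr.Core

section

/-!
Heights and descending runs.
-/

set_option autoImplicit false

namespace Pool.Agent.WSK

open Finset

variable {n : ℕ} {σ : Conf n}

theorem z3_cases (a b : ZMod 3) (h : b ≠ a) : b = a + 1 ∨ b = a - 1 := by
  revert a b; decide

theorem z3_face (a z : ZMod 3) (h1 : z ≠ a - 1) (h2 : z ≠ a + 1) : z = a - 1 + 1 := by
  revert a z; decide

theorem z3_ne (a : ZMod 3) : a + 1 ≠ a - 1 := by
  revert a; decide

theorem Pr.cases (h : Pr σ) (x : Site n) (i : Fin 4) :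
    σ (x + dr i) = σ x + 1 ∨ σ (x + dr i) = σ x - 1 := z3_cases _ _ (h x i)

/-- the neighbour in the opposite direction -/
theorem Pr.back (h : Pr σ) (x : Site n) (i : Fin 4) : σ (x - dr i) ≠ σ x := by
  have := h x (op i)
  rwa [dr_op, ← sub_eq_add_neg] at this

/-- In a face: a lower neighbour and an upper neighbour. -/
theorem Pr.face (h : Pr σ) (x : Site n) (i j : Fin 4) (hi : σ (x + dr i) = σ x - 1)
    (hj : σ (x + dr j) = σ x + 1) : σ (x + dr i + dr j) = σ (x + dr i) + 1 := by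
  have h1 := h (x + dr i) j
  have h2 := h (x + dr j) i
  rw [hi] at h1 ⊢
  rw [hj, add_right_comm] at h2
  exact z3_face _ _ h1 h2

theorem Hgt.pr (h : Hgt σ) : Pr σ := by
  obtain ⟨g, h1, h2⟩ := h
  intro x i
  rw [← h1, ← h1]
  rcases h2 x i with h3 | h3
  · rw [h3]
    push_cast
    generalize ((g x : ℤ) : ZMod 3) = a
    revert a; decide
  · rw [h3]
    push_cast
    generalize ((g x : ℤ) : ZMod 3) = a
    revert a; decide

theorem hgt_up {g : Site n → ℤ} (h1 : ∀ x, ((g x : ℤ) : ZMod 3) = σ x)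
    (h2 : ∀ x i, g (x + dr i) = g x + 1 ∨ g (x + dr i) = g x - 1) {x : Site n} {i : Fin 4}
    (h : σ (x + dr i) = σ x + 1) : g (x + dr i) = g x + 1 := by
  rcases h2 x i with h3 | h3
  · exact h3
  · exfalso
    have h4 := h1 (x + dr i)
    rw [h3, h, ← h1 x] at h4
    push_cast at h4
    exact z3_ne _ h4.symm

theorem hgt_dn {g : Site n → ℤ} (h1 : ∀ x, ((g x : ℤ) : ZMod 3) = σ x)
    (h2 : ∀ x i, g (x + dr i) = g x + 1 ∨ g (x + dr i) = g x - 1) {x : Site n} {i : Fin 4}
    (h : σ (x + dr i) = σ x - 1) : g (x + dr i) = g x - 1 := by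
  rcases h2 x i with h3 | h3
  · exfalso
    have h4 := h1 (x + dr i)
    rw [h3, h, ← h1 x] at h4
    push_cast at h4
    exact z3_ne _ h4
  · exact h3

theorem Hgt.neg (h : Hgt σ) : Hgt (-σ) := by
  obtain ⟨g, h1, h2⟩ := h
  refine ⟨fun x => - g x, fun x => ?_, fun x i => ?_⟩
  · push_cast
    rw [h1]
    rfl
  · rcases h2 x i with h3 | h3
    · right
      show - g (x + dr i) = - g x - 1
      rw [h3]; ring
    · left
      show - g (x + dr i) = - g x + 1
      rw [h3]; ring

theorem Hgt.rot (h : Hgt σ) : Hgt (fun x => σ x + 1) := by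
  obtain ⟨g, h1, h2⟩ := h
  refine ⟨fun x => g x + 1, fun x => ?_, fun x i => ?_⟩
  · push_cast
    rw [h1]
  · rcases h2 x i with h3 | h3
    · left
      show g (x + dr i) + 1 = g x + 1 + 1
      rw [h3]
    · right
      show g (x + dr i) + 1 = g x + 1 - 1
      rw [h3]; ring

theorem pos_succ (x : Site n) (i : Fin 4) (k : ℕ) :
    x + (k + 1) • dr i = x + k • dr i + dr i := by
  rw [add_smul, one_smul, add_assoc]

/-- heights along a descending run -/
theorem hgt_run {g : Site n → ℤ} (h1 : ∀ x, ((g x : ℤ) : ZMod 3) = σ x)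
    (h2 : ∀ x i, g (x + dr i) = g x + 1 ∨ g (x + dr i) = g x - 1) (x : Site n) (i : Fin 4) (m : ℕ)
    (h : ∀ k < m, σ (x + (k + 1) • dr i) ≠ σ (x + k • dr i) + 1) (k : ℕ) (hk : k ≤ m) :
    g (x + k • dr i) = g x - k := by
  induction k with
  | zero => simp
  | succ k ih =>
    rw [pos_succ]
    have h3 := h k (by omega)
    rw [pos_succ] at h3
    rcases h2 (x + k • dr i) i with h4 | h4
    · exfalso
      apply h3
      rw [← h1, ← h1, h4]
      push_cast
      rfl
    · rw [h4, ih (by omega)]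
      push_cast
      ring

theorem run_pos (σ : Conf n) (x : Site n) (i : Fin 4) : 1 ≤ run σ x i := Nat.le_add_left _ _

theorem run_lt {k : ℕ} {x : Site n} {i : Fin 4} (h : k + 1 < run σ x i) :
    σ (x + (k + 1) • dr i) ≠ σ (x + k • dr i) + 1 := by
  intro h1
  have h2 := Nat.sInf_le (show k ∈ {k : ℕ | σ (x + (k + 1) • dr i) = σ (x + k • dr i) + 1} from h1)
  unfold run at h
  omega

theorem Hgt.exists_asc (h : Hgt σ) [NeZero n] (x : Site n) (i : Fin 4) :
    ∃ k < n, σ (x + (k + 1) • dr i) = σ (x + k • dr i) + 1 := by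
  by_contra hcon
  push Not at hcon
  obtain ⟨g, h1, h2⟩ := h
  have h3 := hgt_run h1 h2 x i n hcon n le_rfl
  have h4 : x + n • (dr i : Site n) = x := by
    have : n • (dr i : Site n) = 0 := by
      ext <;> simp
    rw [this, add_zero]
  rw [h4] at h3
  have := NeZero.ne n
  omega

theorem Hgt.run_asc (h : Hgt σ) [NeZero n] (x : Site n) (i : Fin 4) :
    σ (x + run σ x i • dr i) = σ (x + (run σ x i - 1) • dr i) + 1 := by
  obtain ⟨k, -, hk⟩ := h.exists_asc x i
  have := Nat.sInf_mem (⟨k, hk⟩ : {k : ℕ | σ (x + (k + 1) • dr i) = σ (x + k • dr i) + 1}.Nonempty)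
  exact this

theorem Hgt.run_le (h : Hgt σ) [NeZero n] (x : Site n) (i : Fin 4) : run σ x i ≤ n := by
  obtain ⟨k, hk, hk'⟩ := h.exists_asc x i
  have := Nat.sInf_le (show k ∈ {k : ℕ | σ (x + (k + 1) • dr i) = σ (x + k • dr i) + 1} from hk')
  unfold run
  omega

theorem Pr.run_desc (h : Pr σ) {x : Site n} {i : Fin 4} {k : ℕ} (hk : k + 1 < run σ x i) :
    σ (x + (k + 1) • dr i) = σ (x + k • dr i) - 1 := by
  have h1 := run_lt hk
  rw [pos_succ] at h1 ⊢
  exact (h.cases _ i).resolve_left h1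

/-- if the first steps descend and the next one ascends then this is the run -/
theorem run_eq {x : Site n} {i : Fin 4} {m : ℕ} (hm : 1 ≤ m)
    (h1 : ∀ k, k + 1 < m → σ (x + (k + 1) • dr i) ≠ σ (x + k • dr i) + 1)
    (h2 : σ (x + m • dr i) = σ (x + (m - 1) • dr i) + 1) : run σ x i = m := by
  obtain ⟨m, rfl⟩ : ∃ l, m = l + 1 := ⟨m - 1, by omega⟩
  unfold run
  congr 1
  apply le_antisymm
  · exact Nat.sInf_le (by simpa using h2)
  · by_contra hlt
    push Not at hlt
    have := Nat.sInf_mem (⟨m, by simpa using h2⟩ :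
      {k : ℕ | σ (x + (k + 1) • dr i) = σ (x + k • dr i) + 1}.Nonempty)
    exact h1 _ (by omega) this

theorem Hgt.pos_inj (h : Hgt σ) {x : Site n} {i : Fin 4} {k l : ℕ} (hk : k < run σ x i)
    (hl : l < run σ x i) (he : x + k • dr i = x + l • dr i) : k = l := by
  obtain ⟨g, h1, h2⟩ := h
  have h3 := hgt_run h1 h2 x i (run σ x i - 1) (fun k hk => run_lt (by omega)) k (by omega)
  have h4 := hgt_run h1 h2 x i (run σ x i - 1) (fun k hk => run_lt (by omega)) l (by omega)
  rw [he, h4] at h3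
  omega

theorem Hgt.card_tw (h : Hgt σ) (x : Site n) (i : Fin 4) : (tw σ x i).card = run σ x i := by
  unfold tw
  rw [card_image_of_injOn, card_range]
  intro k hk l hl he
  exact h.pos_inj (mem_range.1 hk) (mem_range.1 hl) he

theorem mem_tw {x y : Site n} {i : Fin 4} :
    y ∈ tw σ x i ↔ ∃ k < run σ x i, x + k • dr i = y := by
  unfold tw
  rw [mem_image]
  simp only [mem_range]

end Pool.Agent.WSK
end

section

/-!
Towers.
-/

set_option autoImplicit false

namespace Pool.Agent.WSK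

open Finset

variable {n : ℕ} {σ : Conf n}

theorem ell_zero (h : Pr σ) {x : Site n} (hx : ell σ x = 0) (j : Fin 4) :
    σ (x + dr j) = σ x + 1 := by
  unfold ell at hx
  rw [card_eq_zero, filter_eq_empty_iff] at hx
  exact (h.cases x j).resolve_right (hx (mem_univ j))

theorem ell_zero_iff (h : Pr σ) (x : Site n) :
    ell σ x = 0 ↔ ∀ j, σ (x + dr j) = σ x + 1 := by
  refine ⟨fun hx j => ell_zero h hx j, fun hx => ?_⟩
  unfold ell
  rw [card_eq_zero, filter_eq_empty_iff]
  intro j _ hj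
  rw [hx j] at hj
  exact z3_ne _ hj

theorem td_of_exists {x : Site n} (h : ∃ i, σ (x + dr i) = σ x - 1) :
    σ (x + dr (td σ x)) = σ x - 1 := by
  unfold td
  rw [dif_pos h]
  exact h.choose_spec

/-- the unique lower neighbour -/
theorem td_spec {x : Site n} (hx : ell σ x = 1) : σ (x + dr (td σ x)) = σ x - 1 := by
  apply td_of_exists
  unfold ell at hx
  obtain ⟨i, hi⟩ := card_pos.1 (by rw [hx]; exact one_pos)
  exact ⟨i, (mem_filter.1 hi).2⟩

theorem td_unique {x : Site n} (hx : ell σ x ≤ 1) {j : Fin 4} (hj : σ (x + dr j) = σ x - 1) :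
    j = td σ x := by
  have h1 := td_of_exists ⟨j, hj⟩
  unfold ell at hx
  exact card_le_one.1 hx j (mem_filter.2 ⟨mem_univ _, hj⟩) _ (mem_filter.2 ⟨mem_univ _, h1⟩)

theorem ell_one_of {x : Site n} {i : Fin 4} (hi : σ (x + dr i) = σ x - 1)
    (hu : ∀ j, j ≠ i → σ (x + dr j) = σ x + 1) : ell σ x = 1 := by
  unfold ell
  rw [card_eq_one]
  refine ⟨i, ?_⟩
  ext j
  rw [mem_filter, mem_singleton]
  refine ⟨fun hj => ?_, fun hj => ⟨mem_univ _, by rw [hj]; exact hi⟩⟩
  by_contra hne
  rw [hu j hne] at hj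
  exact z3_ne _ hj.2

theorem up_of_ne (h : Pr σ) {x : Site n} (hx : ell σ x ≤ 1) {j : Fin 4} (hj : j ≠ td σ x) :
    σ (x + dr j) = σ x + 1 :=
  (h.cases x j).resolve_right fun h1 => hj (td_unique hx h1)

theorem kk_zero (h : Pr σ) {x : Site n} (hx : ell σ x = 0) : kk σ x = 1 := by
  unfold kk
  refine run_eq le_rfl (fun k hk => by omega) ?_
  have := ell_zero h hx (td σ x)
  simpa using this

theorem kk_ge_two [NeZero n] (h : Hgt σ) {x : Site n} (hx : ell σ x = 1) : 2 ≤ kk σ x := by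
  by_contra hlt
  have h1 := run_pos σ x (td σ x)
  have h2 := td_spec hx
  unfold kk at hlt
  have h3 : run σ x (td σ x) = 1 := by omega
  have h4 := h.run_asc x (td σ x)
  rw [h3] at h4
  simp only [one_smul, Nat.sub_self, zero_smul, add_zero] at h4
  rw [h2] at h4
  exact z3_ne _ h4.symm

/-- All neighbours of the sites of a tower, except in the direction of the tower, are upper.
PROOF. Induction on `k`: `k = 0`: `up_of_ne`. `k + 1`: for `j = op (td σ x)` the neighbour is the site `k`, and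
`run_desc`. Otherwise `Pr.face` at the site `k` with the directions `td σ x` (lower, `Pr.run_desc`) and `j` (upper, induction
hypothesis). -/
theorem side (h : Pr σ) {x : Site n} (hx : ell σ x ≤ 1) {k : ℕ} (hk : k < kk σ x) {j : Fin 4}
    (hj : j ≠ td σ x) :
    σ (x + k • dr (td σ x) + dr j) = σ (x + k • dr (td σ x)) + 1 := by
  induction k with
  | zero => simpa using up_of_ne h hx hj
  | succ k ih =>
    have h1 := h.run_desc (show k + 1 < run σ x (td σ x) from hk)
    have h2 := ih (by omega)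
    rw [pos_succ] at h1 ⊢
    exact h.face _ _ _ h1 h2

theorem add_op (y : Site n) (j : Fin 4) : y + dr j + dr (op j) = y := by
  rw [dr_op, add_assoc, add_neg_cancel, add_zero]

/-- the neighbours of the tower are upper -/
theorem tw_bdry [NeZero n] (h : Hgt σ) {x : Site n} (hx : ell σ x ≤ 1) {y : Site n} {j : Fin 4}
    (hy : y ∈ Tw σ x) (hj : y + dr j ∉ Tw σ x) : σ (y + dr j) = σ y + 1 := by
  obtain ⟨k, hk, rfl⟩ := mem_tw.1 hy
  by_cases hjt : j = td σ x
  · subst hjt
    rcases Nat.lt_or_ge (k + 1) (run σ x (td σ x)) with h1 | h1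
    · exfalso
      apply hj
      rw [← pos_succ]
      exact mem_tw.2 ⟨k + 1, h1, rfl⟩
    · have h2 := h.run_asc x (td σ x)
      have h3 : run σ x (td σ x) = k + 1 := by omega
      rw [h3, pos_succ] at h2
      exact h2
  · exact side h.pr hx hk hjt

theorem sh_hgt {X : Finset (Site n)} (h : Hgt σ)
    (hX : ∀ y j, y ∈ X → y + dr j ∉ X → σ (y + dr j) = σ y + 1) : Hgt (sh σ X) := by
  classical
  obtain ⟨g, h1, h2⟩ := h
  refine ⟨fun y => if y ∈ X then g y + 2 else g y, fun y => ?_, fun y j => ?_⟩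
  · unfold sh
    by_cases hy : y ∈ X
    · simp only [if_pos hy]
      push_cast
      rw [h1]
      generalize σ y = a
      revert a; decide
    · simp only [if_neg hy]
      exact h1 y
  · by_cases hy : y ∈ X
    · by_cases hj : y + dr j ∈ X
      · simp only [if_pos hy, if_pos hj]
        rcases h2 y j with h3 | h3
        · left; omega
        · right; omega
      · simp only [if_pos hy, if_neg hj]
        have := hgt_up h1 h2 (hX y j hy hj)
        right; omega
    · by_cases hj : y + dr j ∈ X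
      · simp only [if_neg hy, if_pos hj]
        have h3 : y + dr j + dr (op j) ∉ X := by rwa [add_op]
        have := hgt_up h1 h2 (hX _ _ hj h3)
        rw [add_op] at this
        left; omega
      · simp only [if_neg hy, if_neg hj]
        exact h2 y j

theorem up_hgt [NeZero n] (h : Hgt σ) {x : Site n} (hx : ell σ x ≤ 1) : Hgt (up σ x) :=
  sh_hgt h fun _ _ hy hj => tw_bdry h hx hy hj


end Pool.Agent.WSK
end

section

/-!
Reversibility of the towers.
-/

set_option autoImplicit false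

namespace Pool.Agent.WSK

open Finset

variable {n : ℕ} {σ : Conf n}

theorem dr_inj (hn : 3 ≤ n) {i j : Fin 4} (h : (dr i : Site n) = dr j) : i = j := by
  have : Fact (1 < n) := ⟨by omega⟩
  have h1 : (1 : ZMod n) ≠ 0 := one_ne_zero
  have h2 : (1 : ZMod n) ≠ -1 := by
    intro h
    have h3 : ((2 : ℕ) : ZMod n) = 0 := by
      have : (1 : ZMod n) + 1 = 0 := by
        nth_rewrite 1 [h]
        ring
      norm_num
      rw [← this]
      norm_num
    rw [ZMod.natCast_eq_zero_iff] at h3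
    have := Nat.le_of_dvd (by norm_num) h3
    omega
  fin_cases i <;> fin_cases j <;> simp [dr, Prod.ext_iff, h1, h2, h2.symm] at h ⊢

/-- the other end of the tower -/
noncomputable def en (σ : Conf n) (x : Site n) : Site n := x + (kk σ x - 1) • dr (td σ x)

theorem pos_rev (x : Site n) (i : Fin 4) {k m : ℕ} (hm : m ≤ k) :
    x + k • dr i + m • dr (op i) = x + (k - m) • dr i := by
  obtain ⟨l, rfl⟩ := Nat.exists_eq_add_of_le hm
  rw [dr_op, Nat.add_sub_cancel_left, add_smul]
  simp only [smul_neg]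
  abel

theorem sh_mem {X : Finset (Site n)} {y : Site n} (h : y ∈ X) : sh σ X y = σ y - 1 := if_pos h

theorem sh_notMem {X : Finset (Site n)} {y : Site n} (h : y ∉ X) : sh σ X y = σ y := if_neg h

theorem z3_a (a : ZMod 3) : -(a + 1) = -(a - 1) + 1 := by revert a; decide

theorem z3_b (a : ZMod 3) : -(a + 1 - 1) = -(a - 1) - 1 := by revert a; decide

/-- across the boundary of the tower -/
theorem rev_out [NeZero n] (h : Hgt σ) {x : Site n} (hx : ell σ x ≤ 1) {y : Site n} {j : Fin 4}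
    (hy : y ∈ Tw σ x) (hj : y + dr j ∉ Tw σ x) :
    (-(up σ x)) (y + dr j) = (-(up σ x)) y + 1 := by
  show -(sh σ (Tw σ x) (y + dr j)) = -(sh σ (Tw σ x) y) + 1
  rw [sh_mem hy, sh_notMem hj, tw_bdry h hx hy hj]
  exact z3_a _

/-- inside the tower -/
theorem rev_in {x : Site n} {k : ℕ} (h : Pr σ) (hk : k + 1 < kk σ x) :
    (-(up σ x)) (x + k • dr (td σ x)) = (-(up σ x)) (x + (k + 1) • dr (td σ x)) - 1 := by
  have h1 : x + k • dr (td σ x) ∈ Tw σ x := mem_tw.2 ⟨k, by unfold kk at hk; omega, rfl⟩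
  have h2 : x + (k + 1) • dr (td σ x) ∈ Tw σ x := mem_tw.2 ⟨k + 1, hk, rfl⟩
  have h3 := h.run_desc (show k + 1 < run σ x (td σ x) from hk)
  show -(sh σ (Tw σ x) _) = -(sh σ (Tw σ x) _) - 1
  rw [sh_mem h1, sh_mem h2, h3]
  generalize σ (x + k • dr (td σ x)) = a
  revert a; decide

theorem back_notMem {x : Site n} (h : Hgt σ) (hx : ell σ x ≤ 1) :
    x + dr (op (td σ x)) ∉ Tw σ x := by
  intro hm
  obtain ⟨k, hk, hk'⟩ := mem_tw.1 hm
  have h0 := up_of_ne h.pr hx (op_ne (td σ x))
  obtain ⟨g, h1, h2⟩ := h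
  have h3 := hgt_run h1 h2 x (td σ x) (run σ x (td σ x) - 1) (fun k hk => run_lt (by omega)) k
    (by omega)
  have h4 := hgt_up h1 h2 h0
  rw [hk', h4] at h3
  omega

theorem end_notMem [NeZero n] (hn : 3 ≤ n) {x : Site n} (h : Hgt σ) (hx : ell σ x = 1)
    {j : Fin 4} (hj : j ≠ op (td σ x)) : en σ x + dr j ∉ Tw σ x := by
  intro hm
  have hk2 := kk_ge_two h hx
  have h5 : σ (en σ x + dr j) = σ (en σ x) + 1 := by
    by_cases hjt : j = td σ x
    · have h6 := h.run_asc x (td σ x)
      rw [hjt]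
      unfold en
      rw [← pos_succ, Nat.sub_add_cancel (by omega)]
      exact h6
    · exact side h.pr hx.le (by omega) hjt
  obtain ⟨k, hk, hk'⟩ := mem_tw.1 hm
  obtain ⟨g, h1, h2⟩ := h
  have h3 := hgt_run h1 h2 x (td σ x) (run σ x (td σ x) - 1) (fun k hk => run_lt (by omega)) k
    (by omega)
  have h4 := hgt_run h1 h2 x (td σ x) (run σ x (td σ x) - 1) (fun k hk => run_lt (by omega))
    (kk σ x - 1) le_rfl
  have h6 := hgt_up h1 h2 h5
  rw [hk', h6] at h3
  unfold en at h3
  rw [h4] at h3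
  unfold kk at h3 hk2
  have h7 : k + 1 = kk σ x - 1 := by
    unfold kk
    push_cast [Nat.cast_sub (show 1 ≤ run σ x (td σ x) by omega)] at h3
    omega
  have h8 : x + k • dr (td σ x) = en σ x + dr (op (td σ x)) := by
    unfold en
    rw [← h7, pos_succ, add_op]
  rw [h8, add_right_inj] at hk'
  exact hj (dr_inj hn hk').symm

theorem rev_facts [NeZero n] (hn : 3 ≤ n) (h : Hgt σ) {x : Site n} (hx : ell σ x ≤ 1) :
    ell (-(up σ x)) (en σ x) = ell σ x ∧ kk (-(up σ x)) (en σ x) = kk σ x ∧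
      Tw (-(up σ x)) (en σ x) = Tw σ x ∧ en (-(up σ x)) (en σ x) = x := by
  have hz : Hgt (-(up σ x)) := (up_hgt h hx).neg
  rcases Nat.eq_zero_or_pos (ell σ x) with h0 | h0
  · have hk := kk_zero h.pr h0
    have hT : Tw σ x = {x} := by
      unfold Tw tw
      rw [show run σ x (td σ x) = 1 from hk]
      simp
    have he : en σ x = x := by
      unfold en
      rw [hk]
      simp
    have h1 : ell (-(up σ x)) x = 0 := by
      rw [ell_zero_iff hz.pr]
      intro j
      refine rev_out h hx ?_ ?_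
      · rw [hT]
        exact mem_singleton_self _
      · rw [hT, mem_singleton]
        intro h2
        have h3 := ell_zero h.pr h0 j
        rw [h2] at h3
        exact absurd h3 (by generalize σ x = a; revert a; decide)
    have hk' := kk_zero hz.pr h1
    rw [he]
    refine ⟨by rw [h1, h0], by rw [hk', hk], ?_, ?_⟩
    · rw [hT]
      unfold Tw tw
      rw [show run (-(up σ x)) x (td (-(up σ x)) x) = 1 from hk']
      simp
    · unfold en
      rw [hk']
      simp
  · have hx1 : ell σ x = 1 := by omega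
    have hk2 := kk_ge_two h hx1
    set i := td σ x with hi
    have hen : en σ x ∈ Tw σ x := mem_tw.2 ⟨kk σ x - 1, by unfold kk; unfold kk at hk2; omega, rfl⟩
    have hlow : (-(up σ x)) (en σ x + dr (op i)) = (-(up σ x)) (en σ x) - 1 := by
      have h1 := rev_in (x := x) h.pr (show kk σ x - 2 + 1 < kk σ x by omega)
      have h3 : kk σ x - 2 + 1 = kk σ x - 1 := by omega
      have h2 : en σ x + dr (op i) = x + (kk σ x - 2) • dr i := by
        unfold en
        rw [← hi, ← h3, pos_succ, add_op]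
      rw [h3] at h1
      rw [h2]
      exact h1
    have hell : ell (-(up σ x)) (en σ x) = 1 := by
      refine ell_one_of hlow fun j hj => ?_
      exact rev_out h hx hen (end_notMem hn h hx1 hj)
    have htd : op i = td (-(up σ x)) (en σ x) := td_unique hell.le hlow
    have hrun : kk (-(up σ x)) (en σ x) = kk σ x := by
      unfold kk
      rw [← htd]
      refine run_eq (by unfold kk at hk2; omega) (fun k hk => ?_) ?_
      · have hk' : k + 1 < kk σ x := hk
        unfold en
        rw [← hi, pos_rev _ _ (by omega), pos_rev _ _ (by omega)]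
        have h1 := rev_in (x := x) (k := kk σ x - 1 - (k + 1)) h.pr (by omega)
        rw [← hi] at h1
        rw [h1, show kk σ x - 1 - (k + 1) + 1 = kk σ x - 1 - k by omega]
        intro h2
        exact z3_ne _ h2.symm
      · have h1 : en σ x + (run σ x (td σ x)) • dr (op i) = x + dr (op i) := by
          obtain ⟨l, hl⟩ : ∃ l, run σ x (td σ x) = l + 1 := ⟨run σ x (td σ x) - 1, by
            unfold kk at hk2; omega⟩
          rw [hl, pos_succ]
          unfold en kk
          rw [hl, ← hi, Nat.add_sub_cancel, pos_rev _ _ le_rfl, Nat.sub_self, zero_smul, add_zero]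
        have h2 : en σ x + (run σ x (td σ x) - 1) • dr (op i) = x := by
          unfold en kk
          rw [← hi, pos_rev _ _ le_rfl, Nat.sub_self, zero_smul, add_zero]
        rw [h1, h2]
        refine rev_out h hx (mem_tw.2 ⟨0, by unfold kk at hk2; omega, by simp⟩) ?_
        exact back_notMem h hx
    refine ⟨by rw [hell, hx1], hrun, ?_, ?_⟩
    · ext z
      unfold Tw
      rw [mem_tw, mem_tw]
      have h3 : run (-(up σ x)) (en σ x) (td (-(up σ x)) (en σ x)) = kk σ x := hrun
      rw [h3, ← htd]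
      constructor
      · rintro ⟨k, hk, rfl⟩
        refine ⟨kk σ x - 1 - k, by unfold kk at hk ⊢; omega, ?_⟩
        unfold en
        rw [pos_rev _ _ (by omega)]
      · rintro ⟨k, hk, rfl⟩
        have hk' : k < kk σ x := hk
        refine ⟨kk σ x - 1 - k, by omega, ?_⟩
        unfold en
        rw [pos_rev _ _ (by omega)]
        congr 2
        omega
    · rw [show en (-(up σ x)) (en σ x) = en σ x + (kk (-(up σ x)) (en σ x) - 1) •
        dr (td (-(up σ x)) (en σ x)) from rfl, hrun, ← htd]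
      unfold en
      rw [← hi, pos_rev _ _ le_rfl, Nat.sub_self, zero_smul, add_zero]

theorem rev_up [NeZero n] (hn : 3 ≤ n) (h : Hgt σ) {x : Site n} (hx : ell σ x ≤ 1) :
    up (-(up σ x)) (en σ x) = -σ := by
  funext z
  show sh (-(up σ x)) (Tw (-(up σ x)) (en σ x)) z = -σ z
  rw [(rev_facts hn h hx).2.2.1]
  by_cases hz : z ∈ Tw σ x
  · rw [sh_mem hz]
    show -(sh σ (Tw σ x) z) - 1 = -σ z
    rw [sh_mem hz]
    ring
  · rw [sh_notMem hz]
    show -(sh σ (Tw σ x) z) = -σ z
    rw [sh_notMem hz]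

theorem rt_zero {x : Site n} (hx : ¬ ell σ x ≤ 1) : rt σ x = 0 := by
  unfold rt
  rw [if_neg (by omega), if_neg (by omega)]

/-- Reversibility. -/
theorem reversal [NeZero n] (hn : 3 ≤ n) (G : Conf n → Conf n → ℝ) :
    ∑ σ ∈ Om0 n, ∑ x : Site n, rt σ x * G σ (up σ x) =
      ∑ σ ∈ Om0 n, ∑ x : Site n, rt (-σ) x * G (-(up (-σ) x)) σ := by
  classical
  have hmem : ∀ ζ : Conf n, ζ ∈ Om0 n ↔ Hgt ζ := fun ζ => by simp [Om0]
  have hneg : ∀ ζ : Conf n, ζ ∈ Om0 n → -ζ ∈ Om0 n := fun ζ hζ =>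
    (hmem _).2 ((hmem _).1 hζ).neg
  have e1 : ∑ σ ∈ Om0 n, ∑ x : Site n, rt (-σ) x * G (-(up (-σ) x)) σ =
      ∑ σ ∈ Om0 n, ∑ x : Site n, rt σ x * G (-(up σ x)) (-σ) := by
    refine Finset.sum_nbij' (fun ζ => -ζ) (fun ζ => -ζ) hneg hneg (fun ζ _ => neg_neg ζ)
      (fun ζ _ => neg_neg ζ) (fun ζ _ => ?_)
    simp only [neg_neg]
  have e2 : ∀ F : Conf n → Site n → ℝ, ∑ σ ∈ Om0 n, ∑ x : Site n, rt σ x * F σ x =
      ∑ q ∈ (Om0 n ×ˢ univ).filter (fun q : Conf n × Site n => ell q.1 q.2 ≤ 1),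
        rt q.1 q.2 * F q.1 q.2 := by
    intro F
    rw [Finset.sum_filter, Finset.sum_product]
    refine Finset.sum_congr rfl fun σ _ => Finset.sum_congr rfl fun x _ => ?_
    split_ifs with h
    · rfl
    · rw [rt_zero h, zero_mul]
  rw [e1, e2 fun σ x => G σ (up σ x), e2 fun σ x => G (-(up σ x)) (-σ)]
  have key : ∀ q ∈ (Om0 n ×ˢ univ).filter (fun q : Conf n × Site n => ell q.1 q.2 ≤ 1),
      ((-(up q.1 q.2), en q.1 q.2) : Conf n × Site n) ∈
        (Om0 n ×ˢ univ).filter (fun q : Conf n × Site n => ell q.1 q.2 ≤ 1) ∧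
      up (-(up q.1 q.2)) (en q.1 q.2) = -q.1 ∧ en (-(up q.1 q.2)) (en q.1 q.2) = q.2 ∧
      rt (-(up q.1 q.2)) (en q.1 q.2) = rt q.1 q.2 := by
    rintro ⟨σ, x⟩ hq
    rw [mem_filter, mem_product, hmem] at hq
    obtain ⟨⟨hσ, -⟩, hx⟩ := hq
    have hf := rev_facts hn hσ hx
    refine ⟨?_, rev_up hn hσ hx, hf.2.2.2, ?_⟩
    · rw [mem_filter, mem_product, hmem]
      exact ⟨⟨(up_hgt hσ hx).neg, mem_univ _⟩, by rw [hf.1]; exact hx⟩
    · unfold rt
      rw [hf.1, hf.2.1]
  refine Finset.sum_nbij' (fun q => (-(up q.1 q.2), en q.1 q.2))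
    (fun q => (-(up q.1 q.2), en q.1 q.2)) (fun q hq => (key q hq).1) (fun q hq => (key q hq).1)
    (fun q hq => ?_) (fun q hq => ?_) (fun q hq => ?_)
  · obtain ⟨-, h1, h2, -⟩ := key q hq
    simp only [h1, h2, neg_neg]
  · obtain ⟨-, h1, h2, -⟩ := key q hq
    simp only [h1, h2, neg_neg]
  · obtain ⟨-, h1, h2, h3⟩ := key q hq
    simp only [h1, h3, neg_neg]

end Pool.Agent.WSK
end

section

/-!
Linked pairs of colourings.
-/

set_option autoImplicit false

namespace Pool.Agent.WSK

open Finset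

variable {n : ℕ} {σ : Conf n} {X : Finset (Site n)}

theorem Link.hgt (h : Hgt σ) (hX : Link σ X) : Hgt (sh σ X) := sh_hgt h hX

theorem z3_link (a b : ZMod 3) (h1 : b ≠ a) (h2 : b ≠ a - 1) : b = a + 1 := by
  revert a b; decide

/-- two proper colourings that differ by a shift on `X` are linked -/
theorem link_of_pr (h : Pr σ) (h' : Pr (sh σ X)) : Link σ X := by
  intro x i hx hi
  have h1 := h x i
  have h2 := h' x i
  rw [sh_mem hx, sh_notMem hi] at h2
  exact z3_link _ _ h1 h2

theorem sh_sh_compl [NeZero n] (σ : Conf n) (X : Finset (Site n)) :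
    sh (sh σ X) Xᶜ = fun x => σ x - 1 := by
  funext x
  by_cases hx : x ∈ X
  · rw [sh_notMem (by simpa using hx), sh_mem hx]
  · rw [sh_mem (by simpa using hx), sh_notMem hx]

theorem Hgt.rotm (h : Hgt σ) : Hgt (fun x => σ x - 1) := by
  have h1 := h.neg.rot.neg
  convert h1 using 1
  funext x
  show σ x - 1 = -(-σ x + 1)
  ring

theorem Link.compl [NeZero n] (h : Hgt σ) (hX : Link σ X) : Link (sh σ X) Xᶜ := by
  refine link_of_pr (hX.hgt h).pr ?_
  rw [sh_sh_compl]
  exact h.rotm.pr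

theorem sh_neg_sh (σ : Conf n) (X : Finset (Site n)) : sh (-(sh σ X)) X = -σ := by
  funext x
  by_cases hx : x ∈ X
  · rw [sh_mem hx]
    show -(sh σ X x) - 1 = -σ x
    rw [sh_mem hx]
    ring
  · rw [sh_notMem hx]
    show -(sh σ X x) = -σ x
    rw [sh_notMem hx]

theorem Link.neg (h : Hgt σ) (hX : Link σ X) : Link (-(sh σ X)) X := by
  refine link_of_pr (hX.hgt h).neg.pr ?_
  rw [sh_neg_sh]
  exact h.neg.pr

/-- a lower neighbour for the upper colouring, of a site outside of `X` -/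
theorem low_out (_ : Hgt σ) (hX : Link σ X) {x : Site n} {j : Fin 4} (hx : x ∉ X)
    (hj : sh σ X (x + dr j) = sh σ X x - 1) : x + dr j ∉ X ∧ σ (x + dr j) = σ x - 1 := by
  have h1 : x + dr j ∉ X := by
    intro h1
    have h2 := hX (x + dr j) (op j) h1 (by rwa [add_op])
    rw [add_op] at h2
    rw [sh_mem h1, sh_notMem hx, h2] at hj
    revert hj
    generalize σ (x + dr j) = a
    revert a; decide
  rw [sh_notMem hx, sh_notMem h1] at hj
  exact ⟨h1, hj⟩

theorem low_in (hX : Link σ X) {x : Site n} {j : Fin 4} (hx : x ∉ X) (hj : x + dr j ∈ X) :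
    σ (x + dr j) = σ x - 1 := by
  have h2 := hX (x + dr j) (op j) hj (by rwa [add_op])
  rw [add_op] at h2
  rw [h2]
  ring

theorem ell_le (h : Hgt σ) (hX : Link σ X) {x : Site n} (hx : x ∉ X) :
    ell (sh σ X) x ≤ ell σ x := by
  unfold ell
  refine card_le_card fun j hj => ?_
  rw [mem_filter] at hj ⊢
  exact ⟨hj.1, (low_out h hX hx hj.2).2⟩

theorem ell_lt (h : Hgt σ) (hX : Link σ X) {x : Site n} (hx : x ∉ X) {j : Fin 4}
    (hj : x + dr j ∈ X) : ell (sh σ X) x < ell σ x := by
  unfold ell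
  refine card_lt_card ?_
  rw [Finset.ssubset_iff_of_subset]
  · refine ⟨j, mem_filter.2 ⟨mem_univ _, low_in hX hx hj⟩, fun h1 => ?_⟩
    exact (low_out h hX hx (mem_filter.1 h1).2).1 hj
  · intro j hj
    rw [mem_filter] at hj ⊢
    exact ⟨hj.1, (low_out h hX hx hj.2).2⟩

/-- The tower of the upper colouring, at a site outside of `X`. -/
theorem tower_out [NeZero n] (h : Hgt σ) (hX : Link σ X) {x : Site n} (hx : x ∉ X) {k : ℕ}
    (hk : k < kk (sh σ X) x) : x + k • dr (td (sh σ X) x) ∉ X := by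
  induction k with
  | zero => simpa using hx
  | succ k ih =>
    have h1 := ih (by omega)
    have h2 := (hX.hgt h).pr.run_desc (show k + 1 < run (sh σ X) x (td (sh σ X) x) from hk)
    rw [pos_succ] at h2 ⊢
    exact (low_out h hX h1 h2).1

theorem tw_out [NeZero n] (h : Hgt σ) (hX : Link σ X) {x : Site n} (hx : x ∉ X) :
    ∀ y ∈ Tw (sh σ X) x, y ∉ X := by
  intro y hy
  obtain ⟨k, hk, rfl⟩ := mem_tw.1 hy
  exact tower_out h hX hx hk

/-- The tower of the upper colouring is an initial segment of the tower of the lower one, and the rest is in `X`. -/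
theorem tower_sub [NeZero n] (h : Hgt σ) (hX : Link σ X) {x : Site n} (hx : x ∉ X)
    (hl : ell σ x ≤ 1) : kk (sh σ X) x ≤ kk σ x ∧ Tw (sh σ X) x ⊆ Tw σ x ∧
      ∀ y ∈ Tw σ x, y ∉ Tw (sh σ X) x → y ∈ X := by
  set τ := sh σ X with hτ
  have hτh : Hgt τ := hX.hgt h
  have hl' : ell τ x ≤ 1 := (ell_le h hX hx).trans hl
  -- once in `X` the descending run stays in `X`
  have stay : ∀ (k m : ℕ), k ≤ m → m < kk σ x → x + k • dr (td σ x) ∈ X →
      x + m • dr (td σ x) ∈ X := by
    intro k m hkm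
    induction m, hkm using Nat.le_induction with
    | base => exact fun _ h1 => h1
    | succ m hkm ih =>
      intro h1 h2
      have h3 := ih (by omega) h2
      have h4 := h.pr.run_desc (show m + 1 < run σ x (td σ x) from h1)
      by_contra hcon
      rw [pos_succ] at h4 hcon
      rw [hX _ _ h3 hcon] at h4
      exact z3_ne _ h4
  rcases Nat.eq_zero_or_pos (ell τ x) with h0 | h0
  · have hk := kk_zero hτh.pr h0
    have hT : Tw τ x = {x} := by
      unfold Tw tw
      rw [show run τ x (td τ x) = 1 from hk]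
      simp
    refine ⟨by rw [hk]; exact run_pos _ _ _, ?_, ?_⟩
    · rw [hT]
      intro y hy
      rw [mem_singleton] at hy
      exact mem_tw.2 ⟨0, run_pos _ _ _, by rw [hy]; simp⟩
    · intro y hy hy'
      obtain ⟨k, hk', rfl⟩ := mem_tw.1 hy
      rw [hT, mem_singleton] at hy'
      have hk0 : 1 ≤ k := by
        rcases Nat.eq_zero_or_pos k with h1 | h1
        · exfalso
          apply hy'
          rw [h1]
          simp
        · exact h1
      refine stay 1 k hk0 hk' ?_
      -- the first step: lower for `σ`, upper for `τ`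
      have h1 : 0 + 1 < run σ x (td σ x) := by omega
      have h2 := h.pr.run_desc h1
      simp only [zero_add, one_smul, zero_smul, add_zero] at h2
      have h3 := ell_zero hτh.pr h0 (td σ x)
      rw [one_smul]
      by_contra hcon
      rw [hτ, sh_notMem hx, sh_notMem hcon, h2] at h3
      exact z3_ne _ h3.symm
  · have h1 : ell τ x = 1 := by omega
    have h2 : ell σ x = 1 := le_antisymm hl (h0.trans_le (ell_le h hX hx))
    have h3 := td_spec h1
    have h4 := low_out h hX hx h3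
    have htd : td τ x = td σ x := td_unique hl h4.2
    have hout : ∀ k < kk τ x, x + k • dr (td σ x) ∉ X := by
      intro k hk
      have := tower_out h hX hx hk
      rwa [← hτ, htd] at this
    -- the runs agree as long as we are outside of `X`
    have hle : kk τ x ≤ kk σ x := by
      by_contra hlt
      push Not at hlt
      have h5 := h.run_asc x (td σ x)
      have h6 := run_lt (σ := τ) (x := x) (i := td τ x) (k := kk σ x - 1)
        (by have := run_pos σ x (td σ x); unfold kk at hlt ⊢; omega)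
      have h7 : kk σ x - 1 + 1 = kk σ x := by
        have := run_pos σ x (td σ x); unfold kk; omega
      rw [h7, htd] at h6
      apply h6
      rw [hτ, sh_notMem (hout _ hlt), sh_notMem (hout _ (by omega))]
      exact h5
    refine ⟨hle, ?_, ?_⟩
    · intro y hy
      obtain ⟨k, hk, rfl⟩ := mem_tw.1 hy
      rw [htd]
      exact mem_tw.2 ⟨k, lt_of_lt_of_le hk hle, rfl⟩
    · intro y hy hy'
      obtain ⟨k, hk, rfl⟩ := mem_tw.1 hy
      have hk1 : kk τ x ≤ k := by
        by_contra hlt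
        push Not at hlt
        apply hy'
        rw [← htd]
        exact mem_tw.2 ⟨k, hlt, rfl⟩
      refine stay (kk τ x) k hk1 hk ?_
      -- the first site after the run of `τ`
      have h5 := hτh.run_asc x (td τ x)
      have hp : 1 ≤ kk τ x := run_pos τ x (td τ x)
      have hk2 : k < kk σ x := hk
      by_contra hcon
      have h7 : kk τ x - 1 + 1 = kk τ x := by omega
      have h6 := h.pr.run_desc (x := x) (i := td σ x) (k := kk τ x - 1)
        (by rw [h7]; exact lt_of_le_of_lt hk1 hk2)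
      have h8 : kk τ x - 1 < kk τ x := by omega
      rw [h7] at h6
      rw [show run τ x (td τ x) = kk τ x from rfl, htd, hτ, sh_notMem hcon,
        sh_notMem (hout _ h8), h6] at h5
      exact z3_ne _ h5.symm

/-- the upper colouring moves alone -/
theorem move_upper [NeZero n] (h : Hgt σ) (hX : Link σ X) {x : Site n} (hx : x ∉ X)
    (hl : ell (sh σ X) x ≤ 1) :
    up (sh σ X) x = sh σ (X ∪ Tw (sh σ X) x) ∧ Link σ (X ∪ Tw (sh σ X) x) ∧
      (X ∪ Tw (sh σ X) x).card = X.card + kk (sh σ X) x := by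
  have hout := tw_out h hX hx
  have e : up (sh σ X) x = sh σ (X ∪ Tw (sh σ X) x) := by
    funext y
    show sh (sh σ X) (Tw (sh σ X) x) y = _
    by_cases hy : y ∈ Tw (sh σ X) x
    · rw [sh_mem hy, sh_notMem (hout y hy), sh_mem (mem_union_right _ hy)]
    · rw [sh_notMem hy]
      by_cases hy' : y ∈ X
      · rw [sh_mem hy', sh_mem (mem_union_left _ hy')]
      · rw [sh_notMem hy', sh_notMem]
        rw [mem_union]
        tauto
  refine ⟨e, ?_, ?_⟩
  · refine link_of_pr h.pr ?_
    rw [← e]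
    exact (up_hgt (hX.hgt h) hl).pr
  · rw [card_union_of_disjoint]
    · congr 1
      exact (hX.hgt h).card_tw x _
    · rw [disjoint_right]
      exact hout

/-- both colourings move -/
theorem move_both [NeZero n] (h : Hgt σ) (hX : Link σ X) {x : Site n} (hx : x ∉ X)
    (hl : ell σ x ≤ 1) :
    up (sh σ X) x = sh (up σ x) (X \ Tw σ x) ∧ Link (up σ x) (X \ Tw σ x) ∧
      (X \ Tw σ x).card + kk σ x = X.card + kk (sh σ X) x := by
  have hout := tw_out h hX hx
  obtain ⟨h1, h2, h3⟩ := tower_sub h hX hx hl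
  have hl' : ell (sh σ X) x ≤ 1 := (ell_le h hX hx).trans hl
  have e : up (sh σ X) x = sh (up σ x) (X \ Tw σ x) := by
    funext y
    show sh (sh σ X) (Tw (sh σ X) x) y = sh (sh σ (Tw σ x)) (X \ Tw σ x) y
    by_cases hy : y ∈ Tw σ x
    · rw [sh_notMem (X := X \ Tw σ x) (by simp [hy]), sh_mem hy]
      by_cases hy' : y ∈ Tw (sh σ X) x
      · rw [sh_mem hy', sh_notMem (hout y hy')]
      · rw [sh_notMem hy', sh_mem (h3 y hy hy')]
    · have hy' : y ∉ Tw (sh σ X) x := fun h4 => hy (h2 h4)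
      rw [sh_notMem hy']
      by_cases hy2 : y ∈ X
      · rw [sh_mem hy2, sh_mem (X := X \ Tw σ x) (by simp [hy, hy2]), sh_notMem hy]
      · rw [sh_notMem hy2, sh_notMem (X := X \ Tw σ x) (by simp [hy2]), sh_notMem hy]
  refine ⟨e, ?_, ?_⟩
  · refine link_of_pr (up_hgt h hl).pr ?_
    rw [← e]
    exact (up_hgt (hX.hgt h) hl').pr
  · have e1 : X ∩ Tw σ x = Tw σ x \ Tw (sh σ X) x := by
      ext y
      rw [mem_inter, mem_sdiff]
      constructor
      · rintro ⟨h4, h5⟩
        exact ⟨h5, fun h6 => hout y h6 h4⟩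
      · rintro ⟨h4, h5⟩
        exact ⟨h3 y h4 h5, h4⟩
    have e2 := card_sdiff_add_card_inter X (Tw σ x)
    rw [e1, card_sdiff_of_subset h2] at e2
    have e3 : (Tw σ x).card = kk σ x := h.card_tw x _
    have e4 : (Tw (sh σ X) x).card = kk (sh σ X) x := (hX.hgt h).card_tw x _
    rw [e3, e4] at e2
    omega

end Pool.Agent.WSK
end

section

/-!
The site inequality.
-/

set_option autoImplicit false

namespace Pool.Agent.WSK

open Finset

variable {n : ℕ} {σ : Conf n} {X : Finset (Site n)} {f : Conf n → ℝ} {M : ℝ}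

/-- the Lipschitz condition with a concave weight -/
def Lip (f : Conf n → ℝ) (M : ℝ) : Prop :=
  ∀ (σ : Conf n) (X : Finset (Site n)), Hgt σ → Link σ X →
    |f (sh σ X) - f σ| ≤ M * ((X.card : ℝ) * ((n : ℝ) ^ 2 - X.card))

theorem Lip.neg (h : Lip f M) : Lip (fun σ => - f σ) M := by
  intro σ X h1 h2
  have := h σ X h1 h2
  rwa [show -f (sh σ X) - -f σ = -(f (sh σ X) - f σ) by ring, abs_neg]

theorem Lip.refl (h : Lip f M) : Lip (fun σ => f (-σ)) M := by
  intro σ X h1 h2
  have := h (-(sh σ X)) X (h2.hgt h1).neg (h2.neg h1)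
  rw [sh_neg_sh] at this
  show |f (-(sh σ X)) - f (-σ)| ≤ _
  rwa [abs_sub_comm]

theorem card_site [NeZero n] : Fintype.card (Site n) = n ^ 2 := by
  rw [Fintype.card_prod, ZMod.card, sq]

theorem card_compl_site [NeZero n] (X : Finset (Site n)) :
    ((Xᶜ.card : ℕ) : ℝ) = (n : ℝ) ^ 2 - X.card := by
  rw [card_compl, card_site, Nat.cast_sub]
  · push_cast
    rfl
  · rw [← card_site (n := n)]
    exact card_le_univ X

theorem rt_of_zero {x : Site n} (h : ell σ x = 0) : rt σ x = 2 := by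
  unfold rt
  rw [if_pos h]

theorem rt_of_one {x : Site n} (h : ell σ x = 1) : rt σ x = 1 / (kk σ x : ℝ) := by
  unfold rt
  rw [if_neg (by omega), if_pos h]

theorem kk_pos (σ : Conf n) (x : Site n) : 1 ≤ kk σ x := run_pos _ _ _

theorem rt_nonneg (σ : Conf n) (x : Site n) : 0 ≤ rt σ x := by
  unfold rt
  split_ifs <;> positivity

/-- the site inequality outside of `X` -/
theorem site_out [NeZero n] (h : Hgt σ) (hX : Link σ X) (hf : Lip f M) (hM : 0 ≤ M)
    (he : f (sh σ X) - f σ = M * ((X.card : ℝ) * ((n : ℝ) ^ 2 - X.card))) {x : Site n}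
    (hx : x ∉ X) {b : ℝ} (hb : b = 0 ∨ (b = 1 ∧ ell (sh σ X) x ≤ 1 ∧ ∃ i, x + dr i ∈ X)) :
    rt (sh σ X) x * (f (up (sh σ X) x) - f (sh σ X)) - rt σ x * (f (up σ x) - f σ) + M * b ≤
      M * (((n : ℝ) ^ 2 - 2 * X.card) * (rt (sh σ X) x * kk (sh σ X) x - rt σ x * kk σ x)) := by
  have hb1 : b ≤ 1 := by
    rcases hb with hb | ⟨hb, -⟩ <;> rw [hb]
    norm_num
  rcases Nat.lt_or_ge 1 (ell (sh σ X) x) with hl' | hl'
  · -- nothing moves
    have h1 := rt_zero (σ := sh σ X) (x := x) (by omega)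
    have h2 := ell_le h hX hx
    have h3 := rt_zero (σ := σ) (x := x) (by omega)
    have hb0 : b = 0 := by
      rcases hb with hb | ⟨-, hb, -⟩
      · exact hb
      · omega
    rw [h1, h3, hb0]
    simp
  -- the upper colouring moves
  obtain ⟨e1, e2, e3⟩ := move_upper h hX hx hl'
  have hup : f (up (sh σ X) x) - f (sh σ X) ≤
      M * (((n : ℝ) ^ 2 - 2 * X.card) * kk (sh σ X) x - (kk (sh σ X) x : ℝ) ^ 2) := by
    have h1 := le_of_abs_le (hf _ _ h e2)
    rw [← e1, e3] at h1
    push_cast at h1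
    have h2 : f (up (sh σ X) x) - f (sh σ X) = (f (up (sh σ X) x) - f σ) -
      (f (sh σ X) - f σ) := by ring
    rw [h2, he]
    refine (sub_le_sub_right h1 _).trans (le_of_eq ?_)
    ring
  set D : ℝ := (X.card : ℝ) with hD
  set k' : ℝ := (kk (sh σ X) x : ℝ) with hk'
  set r' : ℝ := rt (sh σ X) x with hr'
  have hk'1 : 1 ≤ k' := by
    rw [hk']
    exact_mod_cast kk_pos _ _
  have hr'0 : 0 ≤ r' := rt_nonneg _ _
  -- the value of `r' k'^2`
  have hrk : 1 ≤ r' * k' ^ 2 := by
    rcases Nat.eq_zero_or_pos (ell (sh σ X) x) with h0 | h0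
    · rw [hr', rt_of_zero h0]
      nlinarith
    · rw [hr', rt_of_one (by omega), ← hk']
      have : 1 / k' * k' ^ 2 = k' := by field_simp
      rw [this]
      exact hk'1
  rcases Nat.lt_or_ge 1 (ell σ x) with hl | hl
  · have h3 := rt_zero (σ := σ) (x := x) (by omega)
    rw [h3]
    simp only [zero_mul, sub_zero]
    have h4 := mul_le_mul_of_nonneg_left hup hr'0
    have h5 : M * b ≤ M * (r' * k' ^ 2) := mul_le_mul_of_nonneg_left (hb1.trans hrk) hM
    have h6 : r' * (M * (((n : ℝ) ^ 2 - 2 * D) * k' - k' ^ 2)) =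
      M * (((n : ℝ) ^ 2 - 2 * D) * (r' * k')) - M * (r' * k' ^ 2) := by ring
    linarith
  -- both move
  obtain ⟨g1, g2, g3⟩ := move_both h hX hx hl
  obtain ⟨s1, -, -⟩ := tower_sub h hX hx hl
  set k : ℝ := (kk σ x : ℝ) with hk
  set r : ℝ := rt σ x with hr
  have hkk : k' ≤ k := by
    rw [hk, hk']
    exact_mod_cast s1
  have hboth : f (up (sh σ X) x) - f (up σ x) - (f (sh σ X) - f σ) ≤
      M * (-(((n : ℝ) ^ 2 - 2 * D) * (k - k')) - (k - k') ^ 2) := by
    have h1 := le_of_abs_le (hf _ _ (up_hgt h hl) g2)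
    rw [← g1] at h1
    have h2 : (((X \ Tw σ x).card : ℕ) : ℝ) = D - (k - k') := by
      have : (((X \ Tw σ x).card : ℕ) : ℝ) + k = D + k' := by
        rw [hk, hk', hD]
        exact_mod_cast g3
      linarith
    rw [h2] at h1
    rw [he]
    refine (sub_le_sub_right h1 _).trans (le_of_eq ?_)
    ring
  have hr0 : 0 ≤ r := rt_nonneg _ _
  have hrr : r ≤ r' := by
    rcases Nat.eq_zero_or_pos (ell σ x) with h0 | h0
    · have h1 : ell (sh σ X) x = 0 := by
        have := ell_le h hX hx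
        omega
      rw [hr, hr', rt_of_zero h0, rt_of_zero h1]
    · rw [hr, rt_of_one (by omega), ← hk]
      rcases Nat.eq_zero_or_pos (ell (sh σ X) x) with h1 | h1
      · rw [hr', rt_of_zero h1]
        rw [div_le_iff₀ (by linarith)]
        linarith
      · rw [hr', rt_of_one (by omega), ← hk']
        exact one_div_le_one_div_of_le (by linarith) hkk
  have hQ : b ≤ r * (k - k') ^ 2 + (r' - r) * k' ^ 2 := by
    rcases hb with hb | ⟨hb, -, i, hi⟩
    · rw [hb]
      have := mul_nonneg hr0 (sq_nonneg (k - k'))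
      have := mul_nonneg (sub_nonneg.2 hrr) (sq_nonneg k')
      linarith
    · rw [hb]
      have h1 := ell_lt h hX hx hi
      have h2 : ell σ x = 1 := by omega
      have h3 : ell (sh σ X) x = 0 := by omega
      have h4 := kk_zero (hX.hgt h).pr h3
      have h5 : k' = 1 := by rw [hk', h4]; norm_num
      have h6 : (2 : ℝ) ≤ k := by
        rw [hk]
        exact_mod_cast kk_ge_two h h2
      rw [hr, hr', rt_of_zero h3, rt_of_one h2, ← hk, h5]
      have h7 : 1 / k ≤ 1 := by
        rw [div_le_iff₀ (by linarith)]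
        linarith
      have h8 : 0 ≤ 1 / k * (k - 1) ^ 2 := by positivity
      linarith
  have h1 := mul_le_mul_of_nonneg_left hboth hr0
  have h2 := mul_le_mul_of_nonneg_left hup (sub_nonneg.2 hrr)
  have h3 := mul_le_mul_of_nonneg_left hQ hM
  have h4 : r' * (f (up (sh σ X) x) - f (sh σ X)) - r * (f (up σ x) - f σ) =
      r * (f (up (sh σ X) x) - f (up σ x) - (f (sh σ X) - f σ)) +
        (r' - r) * (f (up (sh σ X) x) - f (sh σ X)) := by ring
  have h5 : r * (M * (-(((n : ℝ) ^ 2 - 2 * D) * (k - k')) - (k - k') ^ 2)) +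
      (r' - r) * (M * (((n : ℝ) ^ 2 - 2 * D) * k' - k' ^ 2)) =
      M * (((n : ℝ) ^ 2 - 2 * D) * (r' * k' - r * k)) -
        M * (r * (k - k') ^ 2 + (r' - r) * k' ^ 2) := by ring
  linarith

/-! ### rotation of the colours -/

theorem ell_rot (σ : Conf n) (x : Site n) : ell (fun y => σ y - 1) x = ell σ x := by
  unfold ell
  simp only [sub_left_inj]

theorem run_rot (σ : Conf n) (x : Site n) (i : Fin 4) :
    run (fun y => σ y - 1) x i = run σ x i := by
  unfold run
  congr 2
  ext k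
  simp only [Set.mem_ofPred_eq]
  constructor
  · intro h
    linear_combination h
  · intro h
    rw [h]
    ring

theorem td_rot (σ : Conf n) (x : Site n) : td (fun y => σ y - 1) x = td σ x := by
  unfold td
  simp only [sub_left_inj]

theorem kk_rot (σ : Conf n) (x : Site n) : kk (fun y => σ y - 1) x = kk σ x := by
  unfold kk
  rw [td_rot, run_rot]

theorem Tw_rot (σ : Conf n) (x : Site n) : Tw (fun y => σ y - 1) x = Tw σ x := by
  unfold Tw tw
  rw [td_rot, run_rot]

theorem up_rot (σ : Conf n) (x : Site n) :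
    up (fun y => σ y - 1) x = fun y => up σ x y - 1 := by
  funext y
  unfold up
  rw [Tw_rot]
  by_cases hy : y ∈ Tw σ x
  · rw [sh_mem hy, sh_mem hy]
  · rw [sh_notMem hy, sh_notMem hy]

theorem rt_rot (σ : Conf n) (x : Site n) : rt (fun y => σ y - 1) x = rt σ x := by
  unfold rt
  rw [ell_rot, kk_rot]

theorem RotInv.rotm (hf : RotInv f) (σ : Conf n) : f (fun y => σ y - 1) = f σ := by
  have := hf (fun y => σ y - 1)
  simp only [sub_add_cancel] at this
  exact this.symm

/-- the site inequality in `X` -/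
theorem site_in [NeZero n] (h : Hgt σ) (hX : Link σ X) (hf : Lip f M) (hM : 0 ≤ M)
    (hr : RotInv f)
    (he : f (sh σ X) - f σ = M * ((X.card : ℝ) * ((n : ℝ) ^ 2 - X.card))) {x : Site n}
    (hx : x ∈ X) {b : ℝ} (hb : b = 0 ∨ (b = 1 ∧ ell σ x ≤ 1 ∧ ∃ i, x + dr i ∉ X)) :
    rt (sh σ X) x * (f (up (sh σ X) x) - f (sh σ X)) - rt σ x * (f (up σ x) - f σ) + M * b ≤
      M * (((n : ℝ) ^ 2 - 2 * X.card) * (rt (sh σ X) x * kk (sh σ X) x - rt σ x * kk σ x)) := by
  have h1 := site_out (f := fun σ => - f σ) (M := M) (b := b) (hX.hgt h) (hX.compl h) hf.neg hM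
    (x := x) ?_ (by simpa using hx) ?_
  · rw [sh_sh_compl, rt_rot, up_rot, kk_rot, hr.rotm, hr.rotm, card_compl_site] at h1
    have e1 : rt σ x * (-f (up σ x) - -f σ) - rt (sh σ X) x * (-f (up (sh σ X) x) - -f (sh σ X))
      = rt (sh σ X) x * (f (up (sh σ X) x) - f (sh σ X)) - rt σ x * (f (up σ x) - f σ) := by ring
    rw [e1] at h1
    refine h1.trans (le_of_eq ?_)
    ring
  · rw [sh_sh_compl]
    show -f (fun y => σ y - 1) - -f (sh σ X) = _
    rw [hr.rotm, card_compl_site]
    linear_combination he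
  · rcases hb with hb | ⟨hb, hb1, i, hi⟩
    · exact Or.inl hb
    · refine Or.inr ⟨hb, ?_, i, by simpa using hi⟩
      rw [sh_sh_compl, ell_rot]
      exact hb1

/-- the bonus -/
noncomputable def bo (σ : Conf n) (X : Finset (Site n)) (x : Site n) : ℝ := by
  classical
  exact if x ∈ X ∧ ell σ x ≤ 1 ∧ ∃ i, x + dr i ∉ X then 1 else 0

/-- the site inequality -/
theorem site_all [NeZero n] (h : Hgt σ) (hX : Link σ X) (hf : Lip f M) (hM : 0 ≤ M)
    (hr : RotInv f)
    (he : f (sh σ X) - f σ = M * ((X.card : ℝ) * ((n : ℝ) ^ 2 - X.card))) (x : Site n) :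
    rt (sh σ X) x * (f (up (sh σ X) x) - f (sh σ X)) - rt σ x * (f (up σ x) - f σ) +
        M * bo σ X x ≤
      M * (((n : ℝ) ^ 2 - 2 * X.card) * (rt (sh σ X) x * kk (sh σ X) x - rt σ x * kk σ x)) := by
  by_cases hx : x ∈ X
  · refine site_in h hX hf hM hr he hx ?_
    unfold bo
    split_ifs with h1
    · exact Or.inr ⟨rfl, h1.2⟩
    · exact Or.inl rfl
  · refine site_out h hX hf hM he hx (Or.inl ?_)
    unfold bo
    rw [if_neg (fun h1 => hx h1.1)]

/-- the generator -/
noncomputable def Ge [NeZero n] (f : Conf n → ℝ) (σ : Conf n) : ℝ :=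
  ∑ x : Site n, rt σ x * (f (up σ x) - f σ) +
    ∑ x : Site n, rt (-σ) x * (f (-(up (-σ) x)) - f σ)

/-- the sum of the site inequalities -/
theorem sum_sites [NeZero n] (h : Hgt σ) (hX : Link σ X) (hf : Lip f M) (hM : 0 ≤ M)
    (hr : RotInv f)
    (he : f (sh σ X) - f σ = M * ((X.card : ℝ) * ((n : ℝ) ^ 2 - X.card)))
    (hd : ∀ ζ : Conf n, Hgt ζ → ∑ x : Site n, rt ζ x * kk ζ x = ∑ x : Site n,
      rt (-ζ) x * kk (-ζ) x) :
    Ge f (sh σ X) - Ge f σ + M * ∑ x : Site n, (bo σ X x + bo (-(sh σ X)) X x) ≤ 0 := by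
  have h1 : ∀ x : Site n, _ := fun x => site_all h hX hf hM hr he x
  have h2 : ∀ x : Site n, _ := fun x => site_all (f := fun ζ => - f (-ζ)) (X := X) (M := M)
    (hX.hgt h).neg (hX.neg h) hf.refl.neg hM
    (fun ζ => by
      show -f (-(fun x => ζ x + 1)) = -f (-ζ)
      congr 1
      have := hr.rotm (-ζ)
      rw [← this]
      congr 1
      funext y
      show -(ζ y + 1) = -ζ y - 1
      ring)
    (by
      show -f (-(sh (-(sh σ X)) X)) - -f (-(-(sh σ X))) = _
      rw [sh_neg_sh, neg_neg, neg_neg, ← he]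
      ring) x
  have h3 := add_le_add (sum_le_sum fun x (_ : x ∈ univ) => h1 x)
    (sum_le_sum fun x (_ : x ∈ univ) => h2 x)
  simp only [sh_neg_sh, neg_neg] at h3
  have d1 := hd _ h
  have d2 := hd _ (hX.hgt h)
  have e1 : ∑ x : Site n, M * (((n : ℝ) ^ 2 - 2 * X.card) *
      (rt (sh σ X) x * kk (sh σ X) x - rt σ x * kk σ x)) +
      ∑ x : Site n, M * (((n : ℝ) ^ 2 - 2 * X.card) *
      (rt (-σ) x * kk (-σ) x - rt (-(sh σ X)) x * kk (-(sh σ X)) x)) = 0 := by
    rw [← mul_sum, ← mul_sum, ← mul_sum, ← mul_sum, sum_sub_distrib, sum_sub_distrib, d1, d2]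
    ring
  rw [e1, ← sum_add_distrib] at h3
  refine le_trans (le_of_eq ?_) h3
  unfold Ge
  rw [mul_sum, ← sum_add_distrib, ← sum_add_distrib, ← sum_sub_distrib, ← sum_add_distrib]
  refine sum_congr rfl fun x _ => ?_
  ring

end Pool.Agent.WSK
end

section

/-!
A lower bound of the eigenvalues bounds the quadratic form.
-/

set_option autoImplicit false

namespace Pool.Agent.WSK

open Finset

theorem spectral_aux {V : Type*} [NormedAddCommGroup V] [InnerProductSpace ℝ V]
    [FiniteDimensional ℝ V] (T : V →ₗ[ℝ] V) (hT : T.IsSymmetric) (γ : ℝ)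
    (h : ∀ (μ : ℝ) (v : V), v ≠ 0 → T v = μ • v → γ ≤ μ) (v : V) :
    γ * inner ℝ v v ≤ inner ℝ (T v) v := by
  set b := hT.eigenvectorBasis rfl with hb
  have hmu : ∀ i, γ ≤ hT.eigenvalues rfl i := by
    intro i
    refine h _ (b i) ?_ ?_
    · intro h0
      have h1 := b.orthonormal.1 i
      rw [h0, norm_zero] at h1
      exact zero_ne_one h1
    · exact hT.apply_eigenvectorBasis rfl i
  rw [← b.sum_inner_mul_inner v v, ← b.sum_inner_mul_inner (T v) v, mul_sum]
  refine sum_le_sum fun i _ => ?_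
  have h1 : inner ℝ (T v) (b i) = hT.eigenvalues rfl i * inner ℝ v (b i) := by
    rw [hT v (b i)]
    have h2 : T (b i) = (hT.eigenvalues rfl i) • b i := hT.apply_eigenvectorBasis rfl i
    rw [h2, inner_smul_right]
  rw [h1, real_inner_comm v (b i)]
  have h3 := mul_le_mul_of_nonneg_right (hmu i) (mul_self_nonneg (inner ℝ v (b i)))
  linarith

theorem spectral {S : Type*} [Fintype S] (E : Submodule ℝ (S → ℝ)) (L : (S → ℝ) → (S → ℝ))
    (hadd : ∀ f ∈ E, ∀ g ∈ E, L (f + g) = L f + L g)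
    (hsmul : ∀ (c : ℝ), ∀ f ∈ E, L (c • f) = c • L f) (hE : ∀ f ∈ E, L f ∈ E)
    (hs : ∀ f ∈ E, ∀ g ∈ E, ∑ s, L f s * g s = ∑ s, f s * L g s) (γ : ℝ)
    (h : ∀ (μ : ℝ), ∀ f ∈ E, f ≠ 0 → L f = μ • f → γ ≤ μ) {f : S → ℝ} (hf : f ∈ E) :
    γ * ∑ s, f s ^ 2 ≤ ∑ s, L f s * f s := by
  set e : EuclideanSpace ℝ S ≃ₗ[ℝ] (S → ℝ) := WithLp.linearEquiv 2 ℝ (S → ℝ) with he
  set E' : Submodule ℝ (EuclideanSpace ℝ S) := E.comap e.toLinearMap with hE'
  have hmem : ∀ v : E', e v ∈ E := fun v => v.2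
  have hmk : ∀ w : S → ℝ, w ∈ E → e.symm w ∈ E' := by
    intro w hw
    rw [hE', Submodule.mem_comap]
    show e (e.symm w) ∈ E
    rw [e.apply_symm_apply]
    exact hw
  let T : E' →ₗ[ℝ] E' :=
    { toFun := fun v => ⟨e.symm (L (e v)), hmk _ (hE _ (hmem v))⟩
      map_add' := fun v w => by
        ext1
        show e.symm (L (e (v + w : EuclideanSpace ℝ S))) = e.symm (L (e v)) + e.symm (L (e w))
        rw [map_add, hadd _ (hmem v) _ (hmem w), map_add]
      map_smul' := fun c v => by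
        ext1
        show e.symm (L (e (c • (v : EuclideanSpace ℝ S)))) = c • e.symm (L (e v))
        rw [map_smul, hsmul c _ (hmem v), map_smul] }
  have hin : ∀ v w : E', inner ℝ v w = ∑ s, e v s * e w s := by
    intro v w
    rw [Submodule.coe_inner, PiLp.inner_apply]
    refine sum_congr rfl fun s _ => ?_
    show inner ℝ (e v s) (e w s) = _
    rw [real_inner_eq_re_inner]
    simp [mul_comm]
  have hTe : ∀ v : E', e (T v) = L (e v) := fun v => e.apply_symm_apply _
  have hT : T.IsSymmetric := by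
    intro v w
    rw [hin, hin, hTe, hTe]
    exact hs _ (hmem v) _ (hmem w)
  have key := spectral_aux T hT γ (fun μ v hv hTv => ?_) ⟨e.symm f, hmk f hf⟩
  · rw [hin, hin, hTe] at key
    simp only [e.apply_symm_apply] at key
    simpa only [sq] using key
  · refine h μ (e v) (hmem v) (fun h0 => hv ?_) ?_
    · ext1
      exact e.map_eq_zero_iff.1 h0
    · rw [← hTe, hTv]
      exact e.map_smul μ v

end Pool.Agent.WSK
end
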