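import Pool.Agent.Lib.MP_0209a0_pr.HtC
import Pool.Agent.Lib.MP_0209a0_pr.Mg.G001
import Pool.Agent.Lib.MP_0209a0_pr.Symb

section

/-!
The weights of the Potts measure of the torus at one site.
-/

set_option autoImplicit false
set_option linter.unusedSectionVars false

namespace Pool.Agent.WSK.Ht

open Finset

variable {n : ℕ} [NeZero n] {p : ℝ}

/-- the number of neighbours of `x` with the colour `b` -/
def cnt (σ : Conf n) (x : Site n) (b : ZMod 3) : ℕ :=
  ∑ i : Fin 4, if σ (x + dr i) = b then 1 else 0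

/-- the monochromatic edges that do not touch `x` -/
def rest (σ : Conf n) (x : Site n) : ℕ :=
  ∑ i : Fin 2, ∑ z ∈ (univ.erase x).erase (x - ev i), if σ z = σ (z + ev i) then 1 else 0

theorem dr_0 : (dr 0 : Site n) = ev 0 := rfl

theorem dr_1 : (dr 1 : Site n) = -ev 0 := by
  ext <;> simp [dr, ev]

theorem dr_2 : (dr 2 : Site n) = ev 1 := rfl

theorem dr_3 : (dr 3 : Site n) = -ev 1 := by
  ext <;> simp [dr, ev]

theorem ev_ne (hn : 3 ≤ n) (i : Fin 2) : (ev i : Site n) ≠ 0 := by
  have : Fact (1 < n) := ⟨by omega⟩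
  have h1 : (1 : ZMod n) ≠ 0 := one_ne_zero
  fin_cases i <;> simp [ev, h1]

theorem mono_update (hn : 3 ≤ n) (σ : Conf n) (x : Site n) (b : ZMod 3) :
    mono (Function.update σ x b) = rest σ x + cnt σ x b := by
  have e1 : ∀ τ : Conf n, mono τ = ∑ i : Fin 2, ∑ z : Site n, if τ z = τ (z + ev i) then 1 else 0 := by
    intro τ
    rw [mono, card_filter, Fintype.sum_prod_type, sum_comm]
  have e2 : ∀ i : Fin 2, (∑ z : Site n,
      if Function.update σ x b z = Function.update σ x b (z + ev i) then 1 else 0) =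
      (∑ z ∈ (univ.erase x).erase (x - ev i), if σ z = σ (z + ev i) then 1 else 0) +
        ((if σ (x + ev i) = b then 1 else 0) + if σ (x - ev i) = b then 1 else 0) := by
    intro i
    have hev := ev_ne hn i
    have hm : x - ev i ∈ (univ : Finset (Site n)).erase x := by
      rw [mem_erase]
      refine ⟨fun h => hev ?_, mem_univ _⟩
      rw [sub_eq_self] at h
      exact h
    rw [← add_sum_erase univ _ (mem_univ x), ← add_sum_erase _ _ hm, Function.update_self,
      Function.update_of_ne (show x + ev i ≠ x from fun h => hev (by rwa [add_eq_left] at h)),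
      Function.update_of_ne (show x - ev i ≠ x from fun h => hev (by rwa [sub_eq_self] at h)),
      sub_add_cancel, Function.update_self]
    have e3 : (∑ z ∈ (univ.erase x).erase (x - ev i),
        if Function.update σ x b z = Function.update σ x b (z + ev i) then 1 else 0) =
        ∑ z ∈ (univ.erase x).erase (x - ev i), if σ z = σ (z + ev i) then 1 else 0 := by
      refine sum_congr rfl fun z hz => ?_
      rw [mem_erase, mem_erase] at hz
      rw [Function.update_of_ne hz.2.1, Function.update_of_ne fun h => hz.1 (by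
        rw [← h, add_sub_cancel_right])]
    rw [e3]
    have e4 : (if b = σ (x + ev i) then (1 : ℕ) else 0) = if σ (x + ev i) = b then 1 else 0 := by
      simp only [eq_comm]
    rw [e4]
    ring
  rw [e1, sum_congr rfl fun i _ => e2 i, sum_add_distrib]
  congr 1
  unfold cnt
  rw [Fin.sum_univ_two, Fin.sum_univ_four, dr_0, dr_1, dr_2, dr_3, ← sub_eq_add_neg,
    ← sub_eq_add_neg]
  ring

theorem cnt_le (σ : Conf n) (x : Site n) (b : ZMod 3) : cnt σ x b ≤ 4 := by
  unfold cnt
  calc ∑ i : Fin 4, (if σ (x + dr i) = b then 1 else 0) ≤ ∑ _i : Fin 4, 1 :=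
        sum_le_sum fun i _ => by split_ifs <;> omega
    _ = 4 := by simp

theorem pos_Z (hp : p < 1) : 0 < ∑ τ : Conf n, (1 - p) ^ mono τ :=
  sum_pos (fun _ _ => pow_pos (by linarith) _) univ_nonempty

theorem potts_pos (hp : p < 1) (σ : Conf n) : 0 < potts p σ :=
  div_pos (pow_pos (by linarith) _) (pos_Z hp)

/-- the factor -/
noncomputable def Qf (p : ℝ) (σ : Conf n) (x : Site n) : ℝ :=
  (1 - p) ^ rest σ x / ∑ τ : Conf n, (1 - p) ^ mono τ

theorem Qf_pos (hp : p < 1) (σ : Conf n) (x : Site n) : 0 < Qf p σ x :=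
  div_pos (pow_pos (by linarith) _) (pos_Z hp)

theorem potts_update (hn : 3 ≤ n) (σ : Conf n) (x : Site n) (b : ZMod 3) :
    potts p (Function.update σ x b) = Qf p σ x * (1 - p) ^ cnt σ x b := by
  unfold potts Qf
  rw [mono_update hn, pow_add]
  ring

theorem dr_ne (hn : 3 ≤ n) (i : Fin 4) : (dr i : Site n) ≠ 0 := by
  have h0 := ev_ne hn 0
  have h1 := ev_ne hn 1
  fin_cases i
  · exact h0
  · show (dr 1 : Site n) ≠ 0
    rw [dr_1]
    exact neg_ne_zero.2 h0
  · exact h1
  · show (dr 3 : Site n) ≠ 0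
    rw [dr_3]
    exact neg_ne_zero.2 h1

theorem cnt_update {σ : Conf n} {x y : Site n} (h : ∀ i, y + dr i ≠ x) (a b : ZMod 3) :
    cnt (Function.update σ x a) y b = cnt σ y b := by
  unfold cnt
  refine sum_congr rfl fun i _ => ?_
  rw [Function.update_of_ne (h i)]

theorem ind (hn : 3 ≤ n) (hp : p < 1) {x y : Site n} (hxy : x ≠ y) (h : ∀ i, y + dr i ≠ x) :
    Ind (potts p) x y := by
  intro σ a b
  have e1 := mono_update hn (Function.update σ x a) y b
  rw [cnt_update h] at e1
  have e2 := mono_update hn (Function.update σ x a) y (σ y)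
  rw [cnt_update h] at e2
  have e3 := mono_update hn σ y b
  have e4 := mono_update hn σ y (σ y)
  rw [Function.update_eq_self] at e4
  have e5 : Function.update (Function.update σ x a) y (σ y) = Function.update σ x a := by
    have : σ y = Function.update σ x a y := by rw [Function.update_of_ne hxy.symm]
    nth_rewrite 1 [this]
    exact Function.update_eq_self _ _
  rw [e5] at e2
  have e6 : mono (Function.update (Function.update σ x a) y b) + mono σ =
      mono (Function.update σ x a) + mono (Function.update σ y b) := by omega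
  have hZ := (pos_Z (n := n) hp).ne'
  unfold potts
  rw [div_mul_div_comm, div_mul_div_comm, ← pow_add, ← pow_add, e6]

/-- the constant of the correlation -/
noncomputable def rh (p : ℝ) : ℝ := 1 / (1 + (1 - p) ^ 4)

theorem rh_pos (hp : p < 1) : 0 < rh p := by
  unfold rh
  have : 0 < (1 - p) ^ 4 := pow_pos (by linarith) _
  positivity

theorem cor (hn : 3 ≤ n) (hp0 : 0 ≤ p) (hp : p < 1) (x : Site n) :
    Cor (potts p) (rh p ^ 2) x := by
  intro σ a b _
  rw [potts_update hn, potts_update hn, potts_update hn]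
  have hQ := Qf_pos hp σ x
  set Q := Qf p σ x
  have hy0 : 0 < 1 - p := by linarith
  have hy1 : 1 - p ≤ 1 := by linarith
  set y := 1 - p with hy
  have hc : ∀ c d : ZMod 3, y ^ 4 * y ^ cnt σ x c ≤ y ^ cnt σ x d := by
    intro c d
    have h1 : y ^ cnt σ x c ≤ 1 := pow_le_one₀ hy0.le hy1
    have h2 : y ^ 4 ≤ y ^ cnt σ x d := pow_le_pow_of_le_one hy0.le hy1 (cnt_le σ x d)
    have h3 : 0 < y ^ 4 := pow_pos hy0 4
    nlinarith
  have h1 := hc a (-(a + b))
  have h2 := hc b (-(a + b))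
  set A := y ^ cnt σ x a
  set B := y ^ cnt σ x b
  set C := y ^ cnt σ x (-(a + b))
  have hA : 0 < A := pow_pos hy0 _
  have hB : 0 < B := pow_pos hy0 _
  have h4 : 0 < y ^ 4 := pow_pos hy0 4
  have e1 : A * (1 + y ^ 4) ≤ A + C := by linarith
  have e2 : B * (1 + y ^ 4) ≤ B + C := by linarith
  have e3 : A * (1 + y ^ 4) * (B * (1 + y ^ 4)) ≤ (A + C) * (B + C) :=
    mul_le_mul e1 e2 (by positivity) (by positivity)
  have hr : rh p = 1 / (1 + y ^ 4) := rfl
  have e4 : A * B = rh p ^ 2 * (A * (1 + y ^ 4) * (B * (1 + y ^ 4))) := by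
    rw [hr]
    field_simp
  have e5 : A * B ≤ rh p ^ 2 * ((A + C) * (B + C)) := by
    rw [e4]
    exact mul_le_mul_of_nonneg_left e3 (sq_nonneg _)
  calc Q * A * (Q * B) = Q ^ 2 * (A * B) := by ring
    _ ≤ Q ^ 2 * (rh p ^ 2 * ((A + C) * (B + C))) := mul_le_mul_of_nonneg_left e5 (sq_nonneg _)
    _ = rh p ^ 2 * ((Q * A + Q * C) * (Q * B + Q * C)) := by ring

/-! ### the two classes -/

theorem par_dr (h : 2 ∣ n) (x : Site n) (i : Fin 4) : par h (x + dr i) = par h x + 1 := by
  have key : ∀ j : Fin 2, par h (x + -ev j) = par h x + 1 := by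
    intro j
    have h1 := par_ev h (x + -ev j) j
    rw [neg_add_cancel_right] at h1
    rw [h1, add_assoc, show (1 : ZMod 2) + 1 = 0 by decide, add_zero]
  fin_cases i
  · exact par_ev h x 0
  · show par h (x + dr 1) = _
    rw [dr_1]
    exact key 0
  · exact par_ev h x 1
  · show par h (x + dr 3) = _
    rw [dr_3]
    exact key 1

theorem z2_ne : ∀ a : ZMod 2, a + 1 ≠ a := by decide

/-- the sites of one parity -/
abbrev Cs (h : 2 ∣ n) (s : ZMod 2) : Type := {x : Site n // par h x = s}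

theorem ind_cs (hn : 3 ≤ n) (hp : p < 1) {h : 2 ∣ n} {s : ZMod 2} (i i' : Cs h s) (hi : i ≠ i') :
    Ind (potts p) i.1 i'.1 := by
  refine ind hn hp (fun h1 => hi (Subtype.ext h1)) fun j h1 => ?_
  have h2 := par_dr h i'.1 j
  rw [h1, i.2, i'.2] at h2
  exact z2_ne s h2.symm

/-- the average over the sites of one parity -/
noncomputable def Ks (p : ℝ) (h : 2 ∣ n) (s : ZMod 2) : Module.End ℝ (Conf n → ℝ) :=
  ((univ : Finset (Cs h s)).toList.map fun i => Av (potts p) Rf i.1).prod

theorem Pc (hn : 3 ≤ n) (hp : p < 1) {h : 2 ∣ n} {s : ZMod 2} (i i' : Cs h s) :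
    Commute (Av (potts p) Rf i.1) (Av (potts p) Rf i'.1) := by
  by_cases hi : i = i'
  · rw [hi]
  · exact Av_comm (potts_pos hp) blk_f blk_f (fun h1 => hi (Subtype.ext h1)) (ind_cs hn hp i i' hi)

theorem Fc (hn : 3 ≤ n) (hp : p < 1) (c : ZMod 3) {h : 2 ∣ n} {s : ZMod 2} (i i' : Cs h s) :
    Commute (Av (potts p) (Rc c) i.1) (Av (potts p) (Rc c) i'.1) := by
  by_cases hi : i = i'
  · rw [hi]
  · exact Av_comm (potts_pos hp) (blk_c c) (blk_c c) (fun h1 => hi (Subtype.ext h1))
      (ind_cs hn hp i i' hi)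

theorem Ks_prj (hn : 3 ≤ n) (hp : p < 1) (h : 2 ∣ n) (s : ZMod 2) :
    Prj (Bf (potts p)) (Ks p h s) := by
  unfold Ks
  exact Prj.list (E := fun i : Cs h s => Av (potts p) Rf i.1)
    (fun i => Av_prj (potts_pos hp) blk_f i.1) (fun i i' => Pc hn hp i i') _

end Pool.Agent.WSK.Ht
end

section

/-!
The dynamics compared with the average over the sites of one parity.
-/

set_option autoImplicit false
set_option linter.unusedSectionVars false

namespace Pool.Agent.WSK.Ht

open Finset

variable {n : ℕ} [NeZero n] {p : ℝ}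

/-! ### the conditional averages -/

/-- the average over the configurations compatible with the open edges -/
noncomputable def mq (c : ZMod 3) (f : Conf n → ℝ) (σ : Conf n) (ω : Finset (Edge n)) : ℝ :=
  (∑ τ ∈ Nb c σ ω, f τ) / ((Nb c σ ω).card : ℝ)

/-- the weight of the open edges -/
noncomputable def qw {α : Type} (p : ℝ) (s ω : Finset α) : ℝ :=
  p ^ ω.card * (1 - p) ^ (s.card - ω.card)

open Classical in
/-- the joint weight of the configuration and the open edges -/
noncomputable def Aw (p : ℝ) (c : ZMod 3) (ω : Finset (Edge n)) (σ : Conf n) : ℝ :=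
  if ω ⊆ elig σ c then potts p σ * qw p (elig σ c) ω else 0

open Classical in
/-- the joint weight of two configurations with the same open edges -/
noncomputable def Hw (p : ℝ) (c : ZMod 3) (ω : Finset (Edge n)) (σ τ : Conf n) : ℝ :=
  if Compat σ τ c ω then Aw p c ω σ / ((Nb c σ ω).card : ℝ) else 0

theorem Nb_eq {c : ZMod 3} {ω : Finset (Edge n)} {σ τ : Conf n} (hω : ω ⊆ elig σ c)
    (hc : Compat σ τ c ω) : Nb c σ ω = Nb c τ ω :=
  Nb_congr hc fun e he => by
    have := mem_elig.1 (hω he)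
    exact ⟨this.1, this.2.1⟩

theorem Aw_eq {c : ZMod 3} {ω : Finset (Edge n)} {σ τ : Conf n} (hc : Compat σ τ c ω) :
    Aw p c ω σ = Aw p c ω τ := by
  unfold Aw
  by_cases h1 : ω ⊆ elig σ c
  · have h2 := elig_of h1 hc
    have h3 := mono_elig (σ := σ) (τ := τ) (c := c) hc.c_iff
    rw [if_pos h1, if_pos h2]
    unfold potts qw
    have e1 : ∀ ζ : Conf n, ω ⊆ elig ζ c → (1 - p) ^ mono ζ / (∑ τ : Conf n, (1 - p) ^ mono τ) *
        (p ^ ω.card * (1 - p) ^ ((elig ζ c).card - ω.card)) =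
        p ^ ω.card * (1 - p) ^ (mono ζ + (elig ζ c).card - ω.card) /
          ∑ τ : Conf n, (1 - p) ^ mono τ := by
      intro ζ hζ
      rw [Nat.add_sub_assoc (card_le_card hζ), pow_add]
      ring
    rw [e1 σ h1, e1 τ h2, h3]
  · rw [if_neg h1, if_neg]
    intro h2
    exact h1 (elig_of h2 hc.symm')

theorem Aw_zero {c : ZMod 3} {ω : Finset (Edge n)} {σ : Conf n} (h : ¬ ω ⊆ elig σ c) :
    Aw p c ω σ = 0 := if_neg h

theorem Hw_symm {c : ZMod 3} {ω : Finset (Edge n)} (σ τ : Conf n) :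
    Hw p c ω σ τ = Hw p c ω τ σ := by
  unfold Hw
  by_cases h1 : Compat σ τ c ω
  · rw [if_pos h1, if_pos h1.symm', Aw_eq h1]
    by_cases h2 : ω ⊆ elig σ c
    · rw [Nb_eq h2 h1]
    · have h3 : ¬ ω ⊆ elig τ c := fun h => h2 (elig_of h h1.symm')
      rw [Aw_zero h3, zero_div, zero_div]
  · rw [if_neg h1, if_neg fun h => h1 h.symm']

theorem sum_Hw (c : ZMod 3) (ω : Finset (Edge n)) (σ : Conf n) (g : Conf n → ℝ) :
    ∑ τ, Hw p c ω σ τ * g τ = Aw p c ω σ * mq c g σ ω := by
  classical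
  unfold Hw mq
  have h1 : Nb c σ ω = univ.filter fun τ => Compat σ τ c ω := by
    ext τ
    rw [mem_Nb]
    simp
  have h2 : ∀ τ, (if Compat σ τ c ω then Aw p c ω σ / ((Nb c σ ω).card : ℝ) else 0) * g τ =
      if Compat σ τ c ω then Aw p c ω σ * (g τ / ((Nb c σ ω).card : ℝ)) else 0 := by
    intro τ
    split_ifs <;> ring
  simp only [h2]
  rw [← sum_filter, ← h1, ← mul_sum, sum_div]

theorem sum_mq_sq (c : ZMod 3) (ω : Finset (Edge n)) (f : Conf n → ℝ) :
    ∑ σ, Aw p c ω σ * (mq c f σ ω * mq c f σ ω) = ∑ σ, Aw p c ω σ * (f σ * mq c f σ ω) := by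
  have e1 : ∀ σ, Aw p c ω σ * (mq c f σ ω * mq c f σ ω) =
      ∑ τ, Hw p c ω τ σ * (mq c f τ ω * f τ) := by
    intro σ
    have e2 : ∀ τ, Hw p c ω τ σ * (mq c f τ ω * f τ) = mq c f σ ω * (Hw p c ω σ τ * f τ) := by
      intro τ
      rw [Hw_symm τ σ]
      by_cases h1 : Compat σ τ c ω
      · by_cases h2 : ω ⊆ elig σ c
        · have : mq c f τ ω = mq c f σ ω := by
            unfold mq
            rw [Nb_eq h2 h1]
          rw [this]
          ring
        · have : Hw p c ω σ τ = 0 := by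
            unfold Hw
            rw [if_pos h1, Aw_zero h2, zero_div]
          rw [this]
          ring
      · have : Hw p c ω σ τ = 0 := if_neg h1
        rw [this]
        ring
    rw [sum_congr rfl fun τ _ => e2 τ, ← mul_sum, sum_Hw]
    ring
  rw [sum_congr rfl fun σ _ => e1 σ, sum_comm]
  refine sum_congr rfl fun τ _ => ?_
  have e3 : ∑ σ, Hw p c ω τ σ * (mq c f τ ω * f τ) = (∑ σ, Hw p c ω τ σ * 1) *
      (mq c f τ ω * f τ) := by
    rw [sum_mul]
    exact sum_congr rfl fun σ _ => by ring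
  rw [e3, sum_Hw]
  have e4 : mq c (fun _ : Conf n => (1 : ℝ)) τ ω = 1 := by
    unfold mq
    rw [sum_const, nsmul_eq_mul, mul_one]
    exact div_self (by have := Nb_pos c τ ω; positivity)
  rw [e4]
  ring

theorem sum_pow' (c : ZMod 3) (σ : Conf n) (G : Finset (Edge n) → ℝ) :
    ∑ ω ∈ (elig σ c).powerset, potts p σ * qw p (elig σ c) ω * G ω = ∑ ω, Aw p c ω σ * G ω := by
  classical
  have h1 : (elig σ c).powerset = univ.filter fun ω => ω ⊆ elig σ c := by
    ext ω
    simp
  rw [h1, sum_filter]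
  refine sum_congr rfl fun ω _ => ?_
  unfold Aw
  split_ifs <;> ring

/-- the Dirichlet form of one colour is a conditional variance -/
theorem form_c (p : ℝ) (c : ZMod 3) (f : Conf n → ℝ) :
    ∑ σ, ∑ τ, potts p σ * Kc p c σ τ * (f σ - f τ) ^ 2 =
      2 * ∑ σ, ∑ ω ∈ (elig σ c).powerset, potts p σ * qw p (elig σ c) ω *
        (f σ - mq c f σ ω) ^ 2 := by
  rw [dir_c]
  have e1 : ∑ σ, ∑ τ, potts p σ * Kc p c σ τ * (f σ * f τ) =
      ∑ ω, ∑ σ, Aw p c ω σ * (f σ * mq c f σ ω) := by
    rw [sum_comm (f := fun (ω : Finset (Edge n)) (σ : Conf n) => Aw p c ω σ * (f σ * mq c f σ ω))]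
    refine sum_congr rfl fun σ _ => ?_
    rw [← sum_pow']
    have e2 : ∑ τ, potts p σ * Kc p c σ τ * (f σ * f τ) = potts p σ * f σ *
        ∑ τ, Kc p c σ τ * f τ := by
      rw [mul_sum]
      exact sum_congr rfl fun τ _ => by ring
    rw [e2, sum_Kc, mul_sum]
    refine sum_congr rfl fun ω _ => ?_
    unfold qw mq
    ring
  have e3 : ip p f f = ∑ ω, ∑ σ, Aw p c ω σ * (f σ * f σ) := by
    rw [sum_comm]
    unfold ip
    refine sum_congr rfl fun σ _ => ?_
    rw [← sum_pow']
    have e4 := sum_w p (elig σ c)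
    have e5 : ∑ ω ∈ (elig σ c).powerset, potts p σ * qw p (elig σ c) ω * (f σ * f σ) =
        potts p σ * (f σ * f σ) * ∑ ω ∈ (elig σ c).powerset,
          p ^ ω.card * (1 - p) ^ ((elig σ c).card - ω.card) := by
      rw [mul_sum]
      refine sum_congr rfl fun ω _ => ?_
      unfold qw
      ring
    rw [e5, e4, mul_one]
  have e6 : ∑ σ, ∑ ω ∈ (elig σ c).powerset, potts p σ * qw p (elig σ c) ω *
      (f σ - mq c f σ ω) ^ 2 = ∑ ω, (∑ σ, Aw p c ω σ * (f σ * f σ) -
        ∑ σ, Aw p c ω σ * (f σ * mq c f σ ω)) := by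
    have e7 : ∀ ω, (∑ σ, Aw p c ω σ * (f σ * f σ) - ∑ σ, Aw p c ω σ * (f σ * mq c f σ ω)) =
        ∑ σ, Aw p c ω σ * (f σ - mq c f σ ω) ^ 2 := by
      intro ω
      have e8 := sum_mq_sq (p := p) c ω f
      have e9 : ∑ σ, Aw p c ω σ * (f σ - mq c f σ ω) ^ 2 = ∑ σ, Aw p c ω σ * (f σ * f σ) -
          2 * ∑ σ, Aw p c ω σ * (f σ * mq c f σ ω) +
            ∑ σ, Aw p c ω σ * (mq c f σ ω * mq c f σ ω) := by
        rw [mul_sum, ← sum_sub_distrib, ← sum_add_distrib]
        exact sum_congr rfl fun σ _ => by ring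
      rw [e9, e8]
      ring
    rw [sum_congr rfl fun ω _ => e7 ω, sum_comm]
    exact sum_congr rfl fun σ _ => sum_pow' c σ _
  rw [e6, sum_sub_distrib, ← e3, ← e1]
  ring

/-! ### the closed edges -/

theorem marg {α : Type} [Fintype α] [DecidableEq α] (p : ℝ) (s : Finset α)
    (G : Finset α → ℝ) :
    ∑ Γ : Finset α, qw (1 - p) univ Γ * G (s \ Γ) = ∑ ω ∈ s.powerset, qw p s ω * G ω := by
  have e1 : ∑ Γ : Finset α, qw (1 - p) univ Γ * G (s \ Γ) =
      ∑ a ∈ s.powerset ×ˢ (univ \ s).powerset,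
        qw p s a.1 * G a.1 * qw (1 - p) (univ \ s) a.2 := by
    refine Finset.sum_nbij' (fun Γ => (s \ Γ, Γ \ s)) (fun a => (s \ a.1) ∪ a.2) ?_ ?_ ?_ ?_ ?_
    · intro Γ _
      rw [mem_product, mem_powerset, mem_powerset]
      exact ⟨sdiff_subset, sdiff_subset_sdiff (subset_univ _) le_rfl⟩
    · intro a _
      exact mem_univ _
    · intro Γ _
      ext x
      simp only [mem_union, mem_sdiff]
      tauto
    · rintro ⟨a, b⟩ h
      rw [mem_product, mem_powerset, mem_powerset] at h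
      obtain ⟨ha, hb⟩ := h
      refine Prod.ext ?_ ?_
      · ext x
        simp only [mem_union, mem_sdiff]
        constructor
        · rintro ⟨h1, h2⟩
          by_contra h3
          exact h2 (Or.inl ⟨h1, h3⟩)
        · intro h1
          refine ⟨ha h1, ?_⟩
          rintro (h2 | h2)
          · exact h2.2 h1
          · exact (mem_sdiff.1 (hb h2)).2 (ha h1)
      · ext x
        simp only [mem_union, mem_sdiff]
        constructor
        · rintro ⟨h1 | h1, h2⟩
          · exact absurd h1.1 h2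
          · exact h1
        · intro h1
          exact ⟨Or.inr h1, (mem_sdiff.1 (hb h1)).2⟩
    · intro Γ _
      show qw (1 - p) univ Γ * G (s \ Γ) =
        qw p s (s \ Γ) * G (s \ Γ) * qw (1 - p) (univ \ s) (Γ \ s)
      have h1 : Γ.card = (Γ ∩ s).card + (Γ \ s).card := (card_inter_add_card_sdiff Γ s).symm
      have h2 : s.card = (s ∩ Γ).card + (s \ Γ).card := (card_inter_add_card_sdiff s Γ).symm
      have h3 : (s ∩ Γ).card = (Γ ∩ s).card := by rw [inter_comm]
      have h4 : (univ : Finset α).card = s.card + (univ \ s).card := by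
        rw [← card_union_of_disjoint disjoint_sdiff, union_sdiff_of_subset (subset_univ s)]
      have h5 : (Γ \ s).card ≤ (univ \ s).card :=
        card_le_card (sdiff_subset_sdiff (subset_univ _) le_rfl)
      unfold qw
      have e2 : (univ : Finset α).card - Γ.card = (s \ Γ).card + ((univ \ s).card - (Γ \ s).card) := by
        omega
      have e3 : s.card - (s \ Γ).card = (Γ ∩ s).card := by omega
      rw [e2, e3, h1, pow_add, pow_add]
      ring
  rw [e1, sum_product]
  refine sum_congr rfl fun ω _ => ?_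
  show ∑ Δ ∈ (univ \ s).powerset, qw p s ω * G ω * qw (1 - p) (univ \ s) Δ = _
  rw [← mul_sum]
  have e4 : ∑ Δ ∈ (univ \ s).powerset, qw (1 - p) (univ \ s) Δ = 1 := by
    unfold qw
    rw [sum_pow_mul_eq_add_pow]
    have : 1 - p + (1 - (1 - p)) = 1 := by ring
    rw [this, one_pow]
  rw [e4, mul_one]

/-- the edges at a site -/
def eg (x : Site n) : Finset (Edge n) := univ.filter fun e => e.1 = x ∨ e.1 + ev e.2 = x

theorem eg_card (x : Site n) : (eg x).card ≤ 4 := by
  have h1 : eg x ⊆ (univ : Finset (Fin 2)).image (fun i => ((x, i) : Edge n)) ∪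
      (univ : Finset (Fin 2)).image (fun i => ((x - ev i, i) : Edge n)) := by
    intro e he
    rw [eg, mem_filter] at he
    rw [mem_union, mem_image, mem_image]
    rcases he.2 with h | h
    · left
      exact ⟨e.2, mem_univ _, by rw [← h]⟩
    · right
      refine ⟨e.2, mem_univ _, ?_⟩
      rw [← h, add_sub_cancel_right]
  refine (card_le_card h1).trans ((card_union_le _ _).trans ?_)
  have h2 := card_image_le (s := (univ : Finset (Fin 2))) (f := fun i => ((x, i) : Edge n))
  have h3 := card_image_le (s := (univ : Finset (Fin 2)))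
    (f := fun i => ((x - ev i, i) : Edge n))
  rw [card_univ, Fintype.card_fin] at h2 h3
  omega

/-- all edges at a site are closed with probability at least `(1 - p) ^ 4` -/
theorem closed_ge (hp0 : 0 ≤ p) (hp : p < 1) (x : Site n) :
    (1 - p) ^ 4 ≤ ∑ Γ : Finset (Edge n), if eg x ⊆ Γ then qw (1 - p) univ Γ else 0 := by
  have e1 := marg p (eg x) fun ω => if ω = ∅ then (1 : ℝ) else 0
  have e2 : ∑ ω ∈ (eg x).powerset, qw p (eg x) ω * (if ω = ∅ then (1 : ℝ) else 0) =
      (1 - p) ^ (eg x).card := by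
    rw [sum_eq_single ∅]
    · unfold qw
      simp
    · intro ω _ h
      rw [if_neg h, mul_zero]
    · intro h
      exact absurd (empty_mem_powerset _) h
  rw [e2] at e1
  have e3 : ∀ Γ : Finset (Edge n), qw (1 - p) univ Γ * (if eg x \ Γ = ∅ then (1 : ℝ) else 0) =
      if eg x ⊆ Γ then qw (1 - p) univ Γ else 0 := by
    intro Γ
    by_cases hs : eg x ⊆ Γ
    · rw [if_pos hs, if_pos (sdiff_eq_empty_iff_subset.2 hs), mul_one]
    · rw [if_neg hs, if_neg fun h => hs (sdiff_eq_empty_iff_subset.1 h), mul_zero]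
  rw [sum_congr rfl fun Γ _ => e3 Γ] at e1
  rw [e1]
  exact pow_le_pow_of_le_one (by linarith) (by linarith) (eg_card x)

/-! ### the comparison -/

/-- the sites all of whose edges are in `Γ` do not matter -/
theorem mq_inv (c : ZMod 3) (f : Conf n → ℝ) (Γ : Finset (Edge n)) {x : Site n}
    (hx : eg x ⊆ Γ) : Inv (Rc c) x fun σ => mq c f σ (elig σ c \ Γ) := by
  intro σ b hb
  set τ := Function.update σ x b with hτ
  have h1 : elig τ c \ Γ = elig σ c \ Γ := by
    ext e
    rw [mem_sdiff, mem_sdiff]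
    by_cases he : e ∈ Γ
    · simp [he]
    · have h2 : e ∉ eg x := fun h => he (hx h)
      rw [eg, mem_filter, not_and] at h2
      have h3 := h2 (mem_univ _)
      push Not at h3
      rw [mem_elig, mem_elig, hτ, Function.update_of_ne h3.1, Function.update_of_ne h3.2]
  have h4 : Compat σ τ c (elig σ c \ Γ) := by
    constructor
    · intro z
      by_cases hz : z = x
      · rw [hz, hτ, Function.update_self]
        have key : ∀ a b c : ZMod 3, b ∈ Rc c a → b = a ∨ b = 2 * c - a := by decide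
        exact key _ _ _ hb
      · rw [hτ, Function.update_of_ne hz]
        exact Or.inl rfl
    · intro e he
      have h2 : e ∉ eg x := fun h => (mem_sdiff.1 he).2 (hx h)
      rw [eg, mem_filter, not_and] at h2
      have h3 := h2 (mem_univ _)
      push Not at h3
      rw [hτ, Function.update_of_ne h3.1, Function.update_of_ne h3.2]
      simp
  show mq c f τ (elig τ c \ Γ) = mq c f σ (elig σ c \ Γ)
  rw [h1]
  unfold mq
  rw [Nb_eq sdiff_subset h4]

open Classical in
/-- the sites of one parity all of whose edges are closed -/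
noncomputable def lst (h : 2 ∣ n) (s : ZMod 2) (Γ : Finset (Edge n)) : List (Cs h s) :=
  (univ : Finset (Cs h s)).toList.filter fun i => decide (eg i.1 ⊆ Γ)

theorem ip_eq (f g : Conf n → ℝ) : ip p f g = Bf (potts p) f g := rfl

theorem list_inv (hp : p < 1) (c : ZMod 3) {ι : Type} (j : ι → Site n) (g : Conf n → ℝ) :
    ∀ l : List ι, (∀ i ∈ l, Inv (Rc c) (j i) g) →
      (l.map fun i => Av (potts p) (Rc c) (j i)).prod g = g
  | [], _ => by simp
  | i :: l, hl => by
    rw [List.map_cons, List.prod_cons]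
    show Av (potts p) (Rc c) (j i) ((l.map fun i => Av (potts p) (Rc c) (j i)).prod g) = g
    rw [list_inv hp c j g l fun i' hi' => hl i' (List.mem_cons_of_mem _ hi')]
    exact (hl i List.mem_cons_self).av (potts_pos hp) (blk_c c)

/-- the conditional variance given the other sites -/
noncomputable def VP (p : ℝ) {h : 2 ∣ n} {s : ZMod 2} (f : Conf n → ℝ) (l : List (Cs h s)) : ℝ :=
  Bf (potts p) f f - Bf (potts p) ((l.map fun i => Av (potts p) Rf i.1).prod f)
    ((l.map fun i => Av (potts p) Rf i.1).prod f)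

/-- the conditional variance given the other sites and the sites with the colour `c` -/
noncomputable def VF (p : ℝ) {h : 2 ∣ n} {s : ZMod 2} (c : ZMod 3) (f : Conf n → ℝ)
    (l : List (Cs h s)) : ℝ :=
  Bf (potts p) f f - Bf (potts p) ((l.map fun i => Av (potts p) (Rc c) i.1).prod f)
    ((l.map fun i => Av (potts p) (Rc c) i.1).prod f)

theorem qw_nonneg (hp0 : 0 ≤ p) (hp : p < 1) (Γ : Finset (Edge n)) :
    0 ≤ qw (1 - p) univ Γ := by
  unfold qw
  have h1 : 0 ≤ 1 - p := by linarith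
  have h2 : 0 ≤ 1 - (1 - p) := by linarith
  positivity

theorem VF_le (hn : 3 ≤ n) (hp : p < 1) {h : 2 ∣ n} {s : ZMod 2} (c : ZMod 3) (f g : Conf n → ℝ)
    (l : List (Cs h s)) (hg : ∀ i ∈ l, Inv (Rc c) i.1 g) :
    VF p c f l ≤ ∑ σ, potts p σ * (f σ - g σ) ^ 2 := by
  have hprj : Prj (Bf (potts p)) (l.map fun i => Av (potts p) (Rc c) i.1).prod :=
    Prj.list (E := fun i : Cs h s => Av (potts p) (Rc c) i.1)
      (fun i => Av_prj (potts_pos hp) (blk_c c) i.1) (fun i i' => Fc hn hp c i i') _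
  have h1 := hprj.best (frm fun σ => (potts_pos hp σ).le) f g
    (list_inv hp c (fun i : Cs h s => i.1) g l hg)
  refine h1.trans (le_of_eq ?_)
  rw [Bf_apply]
  refine sum_congr rfl fun σ _ => ?_
  show potts p σ * ((f σ - g σ) * (f σ - g σ)) = _
  ring

theorem colour_ge (hn : 3 ≤ n) (hp0 : 0 ≤ p) (hp : p < 1) (h : 2 ∣ n) (s : ZMod 2)
    (c : ZMod 3) (f : Conf n → ℝ) :
    2 * ∑ Γ : Finset (Edge n), qw (1 - p) univ Γ * VF p c f (lst h s Γ) ≤
    ∑ σ, ∑ τ, potts p σ * Kc p c σ τ * (f σ - f τ) ^ 2 := by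
  classical
  rw [form_c]
  refine mul_le_mul_of_nonneg_left ?_ (by norm_num)
  have e1 : ∀ σ : Conf n, ∑ ω ∈ (elig σ c).powerset, potts p σ * qw p (elig σ c) ω *
      (f σ - mq c f σ ω) ^ 2 = ∑ Γ : Finset (Edge n), qw (1 - p) univ Γ *
        (potts p σ * (f σ - mq c f σ (elig σ c \ Γ)) ^ 2) := by
    intro σ
    have e2 := marg p (elig σ c) fun ω => potts p σ * (f σ - mq c f σ ω) ^ 2
    rw [e2]
    exact sum_congr rfl fun ω _ => by ring
  rw [sum_congr rfl fun σ _ => e1 σ, sum_comm]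
  refine sum_le_sum fun Γ _ => ?_
  rw [← mul_sum]
  refine mul_le_mul_of_nonneg_left ?_ (qw_nonneg hp0 hp Γ)
  refine VF_le hn hp c f (fun σ => mq c f σ (elig σ c \ Γ)) (lst h s Γ) fun i hi => ?_
  rw [lst, List.mem_filter, decide_eq_true_eq] at hi
  exact mq_inv c f Γ hi.2

theorem VP_sum (hn : 3 ≤ n) (hp0 : 0 ≤ p) (hp : p < 1) (h : 2 ∣ n) (s : ZMod 2)
    (f : Conf n → ℝ) :
    (1 - p) ^ 4 * VP p f (univ : Finset (Cs h s)).toList ≤
      ∑ Γ : Finset (Edge n), qw (1 - p) univ Γ * VP p f (lst h s Γ) := by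
  classical
  have hB := frm (W := potts (n := n) p) fun σ => (potts_pos hp σ).le
  have s1 := shearer hB (P := fun i : Cs h s => Av (potts p) Rf i.1)
    (fun i => Av_prj (potts_pos hp) blk_f i.1) (fun i i' => Pc hn hp i i')
    (univ : Finset (Finset (Edge n))) (fun Γ => qw (1 - p) univ Γ)
    (fun Γ _ => qw_nonneg hp0 hp Γ)
    (fun Γ i => eg i.1 ⊆ Γ) (θ := (1 - p) ^ 4) (fun i => by
      refine (closed_ge hp0 hp i.1).trans (le_of_eq ?_)
      refine sum_congr rfl fun Γ _ => ?_
      by_cases hs : eg i.1 ⊆ Γ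
      · rw [if_pos hs, if_pos hs]
      · rw [if_neg hs, if_neg hs]) (univ : Finset (Cs h s)).toList f
  have e : ∀ Γ : Finset (Edge n), lst h s Γ = (univ : Finset (Cs h s)).toList.filter
      (fun i => @decide (eg i.1 ⊆ Γ) (Classical.propDecidable _)) := by
    intro Γ
    unfold lst
    exact List.filter_congr fun i _ => decide_eq_decide.2 Iff.rfl
  simp only [VP, e]
  exact s1

theorem VP_VF (hn : 3 ≤ n) (hp0 : 0 ≤ p) (hp : p < 1) {h : 2 ∣ n} {s : ZMod 2}
    (f : Conf n → ℝ) (l : List (Cs h s)) (hl : l.Nodup) :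
    2 * (1 - rh p) * VP p f l ≤ ∑ c, VF p c f l :=
  block (potts_pos hp) (rh_pos hp) (fun i : Cs h s => i.1) Subtype.val_injective
    (fun i i' hi => ind_cs hn hp i i' hi) (fun i => cor hn hp0 hp i.1) f l hl

/-- the Dirichlet form is at least a multiple of the conditional variance given the other sites -/
theorem dir_ge (hn : 3 ≤ n) (hp0 : 0 ≤ p) (hp : p < 1) (h : 2 ∣ n) (s : ZMod 2)
    (f : Conf n → ℝ) :
    4 / 3 * (1 - rh p) * (1 - p) ^ 4 * VP p f (univ : Finset (Cs h s)).toList ≤ dir p f := by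
  classical
  have hr1 : 0 ≤ 1 - rh p := by
    unfold rh
    have : 0 < (1 - p) ^ 4 := pow_pos (by linarith) _
    rw [sub_nonneg, div_le_one (by linarith)]
    linarith
  have s1 := VP_sum hn hp0 hp h s f
  have s2 : ∀ Γ : Finset (Edge n), 2 * (1 - rh p) * VP p f (lst h s Γ) ≤
      ∑ c, VF p c f (lst h s Γ) := fun Γ =>
    VP_VF hn hp0 hp f _ ((nodup_toList _).filter _)
  have s3 : ∑ c : ZMod 3, 1 / 3 * (2 * ∑ Γ : Finset (Edge n), qw (1 - p) univ Γ *
      VF p c f (lst h s Γ)) ≤ dir p f := by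
    rw [dir_eq]
    refine sum_le_sum fun c _ => mul_le_mul_of_nonneg_left ?_ (by norm_num)
    exact colour_ge hn hp0 hp h s c f
  generalize VP p f (univ : Finset (Cs h s)).toList = A at s1 ⊢
  generalize (fun Γ => VP p f (lst h s Γ)) = P at s1 s2
  refine le_trans ?_ s3
  have s4 : ∑ c : ZMod 3, 1 / 3 * (2 * ∑ Γ : Finset (Edge n), qw (1 - p) univ Γ *
      VF p c f (lst h s Γ)) = 2 / 3 * ∑ Γ : Finset (Edge n), qw (1 - p) univ Γ * ∑ c : ZMod 3,
        VF p c f (lst h s Γ) := by
    simp only [mul_sum]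
    rw [sum_comm]
    refine sum_congr rfl fun Γ _ => sum_congr rfl fun c _ => ?_
    ring
  rw [s4]
  have s5 : 2 * (1 - rh p) * ∑ Γ : Finset (Edge n), qw (1 - p) univ Γ *
      VP p f (lst h s Γ) ≤
      ∑ Γ : Finset (Edge n), qw (1 - p) univ Γ * ∑ c : ZMod 3, VF p c f (lst h s Γ) := by
    rw [mul_sum]
    refine sum_le_sum fun Γ _ => ?_
    have := mul_le_mul_of_nonneg_left (s2 Γ) (qw_nonneg hp0 hp Γ)
    linarith
  have s7 := mul_le_mul_of_nonneg_left s1 (show 0 ≤ 2 * (1 - rh p) by linarith)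
  linarith

end Pool.Agent.WSK.Ht
end
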