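import Pool.Agent.Lib.MP_0209a0_pr.Conn
import Pool.Agent.Lib.MP_0209a0_pr.Mg.G001
import Pool.Agent.Lib.MP_0209a0_pr.Ext

section

/-!
The spectral gap of the tower dynamics on the colourings of winding number zero.
-/

set_option autoImplicit false

namespace Pool.Agent.WSK

open Finset

variable {n : ℕ} {σ : Conf n} {X : Finset (Site n)} {f : Conf n → ℝ} {M : ℝ}

theorem mem_Om0 [NeZero n] : σ ∈ Om0 n ↔ Hgt σ := by
  unfold Om0
  simp

theorem mem_Om [NeZero n] : σ ∈ Om n ↔ Pr σ := by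
  unfold Om
  simp

theorem hgt_rot_iff [NeZero n] (σ : Conf n) : Hgt (fun y => σ y - 1) ↔ Hgt σ := by
  refine ⟨fun h => ?_, fun h => h.rotm⟩
  have := h.rot
  simpa using this

theorem Ge_rot [NeZero n] (hf : RotInv f) (σ : Conf n) : Ge f (fun y => σ y - 1) = Ge f σ := by
  unfold Ge
  congr 1
  · refine sum_congr rfl fun x _ => ?_
    rw [rt_rot, up_rot, hf.rotm, hf.rotm]
  · refine sum_congr rfl fun x _ => ?_
    set ζ' : Conf n := fun y => -σ y + 1 with hζ'
    have e1 : -(fun y => σ y - 1 : Conf n) = ζ' := by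
      funext y
      show -(σ y - 1) = -σ y + 1
      ring
    have e2 : (fun y => ζ' y - 1 : Conf n) = -σ := by
      funext y
      show -σ y + 1 - 1 = -σ y
      ring
    rw [e1, ← rt_rot ζ' x, e2, hf.rotm]
    congr 2
    have h1 := up_rot ζ' x
    rw [e2] at h1
    rw [h1]
    have h2 := hf (-(up ζ' x))
    rw [← h2]
    congr 1
    funext y
    show -(up ζ' x y) + 1 = -(up ζ' x y - 1)
    ring

/-- the quadratic form of the generator -/
theorem form [NeZero n] (hn : 3 ≤ n) (f g : Conf n → ℝ) :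
    ∑ σ ∈ Om0 n, Ge f σ * g σ =
      -∑ σ ∈ Om0 n, ∑ x : Site n, rt σ x * ((f (up σ x) - f σ) * (g (up σ x) - g σ)) := by
  have h1 := reversal hn (fun a b => (f a - f b) * g b)
  have h2 : ∑ σ ∈ Om0 n, Ge f σ * g σ =
      ∑ σ ∈ Om0 n, ∑ x : Site n, rt σ x * ((f (up σ x) - f σ) * g σ) +
      ∑ σ ∈ Om0 n, ∑ x : Site n, rt (-σ) x * ((f (-(up (-σ) x)) - f σ) * g σ) := by
    rw [← sum_add_distrib]
    refine sum_congr rfl fun σ _ => ?_
    unfold Ge
    rw [add_mul, sum_mul, sum_mul]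
    congr 1 <;> refine sum_congr rfl fun x _ => ?_ <;> ring
  rw [h2, ← h1, ← sum_add_distrib, ← sum_neg_distrib]
  refine sum_congr rfl fun σ _ => ?_
  rw [← sum_add_distrib, ← sum_neg_distrib]
  refine sum_congr rfl fun x _ => ?_
  ring

theorem Ge_add [NeZero n] (f g : Conf n → ℝ) (σ : Conf n) : Ge (f + g) σ = Ge f σ + Ge g σ := by
  unfold Ge
  simp only [Pi.add_apply, ← sum_add_distrib]
  refine sum_congr rfl fun x _ => ?_
  ring

theorem Ge_smul [NeZero n] (c : ℝ) (f : Conf n → ℝ) (σ : Conf n) :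
    Ge (c • f) σ = c * Ge f σ := by
  unfold Ge
  simp only [Pi.smul_apply, smul_eq_mul]
  rw [mul_add, mul_sum, mul_sum]
  congr 1 <;> refine sum_congr rfl fun x _ => ?_ <;> ring

/-- the space of the rotation invariant functions with mean zero -/
noncomputable def Sp (n : ℕ) [NeZero n] : Submodule ℝ (Conf n → ℝ) where
  carrier := {f | RotInv f ∧ (∀ σ, ¬ Hgt σ → f σ = 0) ∧ ∑ σ, f σ = 0}
  add_mem' := by
    rintro f g ⟨h1, h2, h3⟩ ⟨k1, k2, k3⟩
    refine ⟨fun σ => ?_, fun σ hσ => ?_, ?_⟩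
    · show f _ + g _ = f σ + g σ
      rw [h1 σ, k1 σ]
    · show f σ + g σ = 0
      rw [h2 σ hσ, k2 σ hσ, add_zero]
    · show ∑ σ, (f σ + g σ) = 0
      rw [sum_add_distrib, h3, k3, add_zero]
  zero_mem' := ⟨fun _ => rfl, fun _ _ => rfl, by simp⟩
  smul_mem' := by
    rintro c f ⟨h1, h2, h3⟩
    refine ⟨fun σ => ?_, fun σ hσ => ?_, ?_⟩
    · show c * f _ = c * f σ
      rw [h1 σ]
    · show c * f σ = 0
      rw [h2 σ hσ, mul_zero]
    · show ∑ σ, c * f σ = 0
      rw [← mul_sum, h3, mul_zero]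

theorem mem_Sp [NeZero n] {f : Conf n → ℝ} :
    f ∈ Sp n ↔ RotInv f ∧ (∀ σ, ¬ Hgt σ → f σ = 0) ∧ ∑ σ, f σ = 0 := Iff.rfl

open Classical in
/-- minus the generator -/
noncomputable def Lg [NeZero n] (f : Conf n → ℝ) (σ : Conf n) : ℝ :=
  if Hgt σ then -Ge f σ else 0

theorem sum_Lg [NeZero n] (f g : Conf n → ℝ) :
    ∑ σ, Lg f σ * g σ = -∑ σ ∈ Om0 n, Ge f σ * g σ := by
  classical
  have : Om0 n = univ.filter fun σ => Hgt σ := by
    ext σ
    rw [mem_Om0]
    simp
  rw [this, sum_filter, ← sum_neg_distrib]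
  refine sum_congr rfl fun σ _ => ?_
  unfold Lg
  split_ifs <;> ring

theorem sh_empty (σ : Conf n) : sh σ ∅ = σ := by
  funext x
  rw [sh_notMem (by simp)]

theorem sh_univ [NeZero n] (σ : Conf n) : sh σ univ = fun x => σ x - 1 := by
  funext x
  rw [sh_mem (by simp)]

/-- every eigenvalue is at least `4 / n ^ 4` -/
theorem eigen_ge [NeZero n] (hn : 3 ≤ n) (μ : ℝ) {f : Conf n → ℝ} (hf : f ∈ Sp n) (h0 : f ≠ 0)
    (he : Lg f = μ • f) : 4 / (n : ℝ) ^ 4 ≤ μ := by
  classical
  obtain ⟨hr, hsupp, hsum⟩ := mem_Sp.1 hf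
  set q : Finset (Site n) → ℝ := fun X => (X.card : ℝ) * ((n : ℝ) ^ 2 - X.card) with hq
  have hq0 : ∀ X : Finset (Site n), X.Nonempty → X ≠ univ → 0 < q X := by
    intro X h1 h2
    refine mul_pos (by exact_mod_cast h1.card_pos) ?_
    rw [← card_compl_site]
    have : Xᶜ.Nonempty := by
      rw [nonempty_iff_ne_empty]
      intro h3
      exact h2 (compl_eq_empty_iff X |>.1 h3)
    exact_mod_cast this.card_pos
  set P : Finset (Conf n × Finset (Site n)) := univ.filter fun a =>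
    Hgt a.1 ∧ Link a.1 a.2 ∧ a.2.Nonempty ∧ a.2 ≠ univ with hP
  set v : Conf n × Finset (Site n) → ℝ := fun a => |f (sh a.1 a.2) - f a.1| / q a.2 with hv
  -- there is a pair with a positive value
  have hex : ∃ a ∈ P, 0 < v a := by
    by_contra hcon
    push Not at hcon
    apply h0
    have hlink : ∀ (σ : Conf n) (X : Finset (Site n)), Hgt σ → Link σ X →
        f (sh σ X) = f σ := by
      intro σ X h1 h2
      by_cases h3 : X.Nonempty
      · by_cases h4 : X = univ
        · rw [h4, sh_univ, hr.rotm]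
        · have h5 := hcon (σ, X) (by
            rw [hP, mem_filter]
            exact ⟨mem_univ _, h1, h2, h3, h4⟩)
          have h6 : |f (sh σ X) - f σ| / q X ≤ 0 := h5
          rw [div_le_iff₀ (hq0 X h3 h4), zero_mul] at h6
          have h7 := abs_nonneg (f (sh σ X) - f σ)
          have h8 : |f (sh σ X) - f σ| = 0 := le_antisymm h6 h7
          rw [abs_eq_zero] at h8
          linarith
      · rw [not_nonempty_iff_eq_empty] at h3
        rw [h3, sh_empty]
    by_cases hne : ∃ σ : Conf n, Hgt σ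
    · obtain ⟨σ₀, hσ₀⟩ := hne
      have h1 : ∀ σ, Hgt σ → f σ = f σ₀ := fun σ hσ => const_of_link hlink hσ₀ hσ
      have h2 : ∑ σ, f σ = ∑ σ ∈ univ.filter (fun σ : Conf n => Hgt σ), f σ₀ := by
        rw [sum_filter]
        refine sum_congr rfl fun σ _ => ?_
        split_ifs with h3
        · exact h1 σ h3
        · exact hsupp σ h3
      rw [hsum, sum_const, nsmul_eq_mul] at h2
      have h3 : ((univ.filter (fun σ : Conf n => Hgt σ)).card : ℝ) ≠ 0 := by
        have : 0 < (univ.filter (fun σ : Conf n => Hgt σ)).card :=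
          card_pos.2 ⟨σ₀, by simpa using hσ₀⟩
        positivity
      have h4 : f σ₀ = 0 := by
        rcases mul_eq_zero.1 h2.symm with h5 | h5
        · exact absurd h5 h3
        · exact h5
      funext σ
      by_cases h5 : Hgt σ
      · rw [h1 σ h5, h4]
        rfl
      · exact hsupp σ h5
    · funext σ
      exact hsupp σ fun h1 => hne ⟨σ, h1⟩
  -- the maximum
  obtain ⟨a₀, ha₀, hva₀⟩ := hex
  obtain ⟨a, ha, hmax⟩ := exists_max_image P v ⟨a₀, ha₀⟩
  set M := v a with hM
  have hMpos : 0 < M := lt_of_lt_of_le hva₀ (hmax a₀ ha₀)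
  obtain ⟨σ, X⟩ := a
  rw [hP, mem_filter] at ha
  obtain ⟨-, hσ, hX, hne, hnu⟩ := ha
  simp only at hσ hX hne hnu
  have hLip : Lip f M := by
    intro σ' X' h1 h2
    by_cases h3 : X'.Nonempty
    · by_cases h4 : X' = univ
      · rw [h4, sh_univ, hr.rotm, sub_self, abs_zero]
        have h5 : ((univ : Finset (Site n)).card : ℝ) = (n : ℝ) ^ 2 := by
          rw [card_univ, card_site]
          push_cast
          rfl
        rw [h5, sub_self, mul_zero, mul_zero]
      · have h5 : v (σ', X') ≤ M := hmax (σ', X') (by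
          rw [hP, mem_filter]
          exact ⟨mem_univ _, h1, h2, h3, h4⟩)
        have h6 : |f (sh σ' X') - f σ'| / q X' ≤ M := h5
        rwa [div_le_iff₀ (hq0 X' h3 h4)] at h6
    · rw [not_nonempty_iff_eq_empty] at h3
      rw [h3, sh_empty, sub_self, abs_zero]
      simp
  have hqX := hq0 X hne hnu
  have habs : |f (sh σ X) - f σ| = M * q X := by
    have : M = |f (sh σ X) - f σ| / q X := rfl
    rw [this, div_mul_cancel₀]
    exact hqX.ne'
  have hev : ∀ ζ : Conf n, Hgt ζ → Ge f ζ = -(μ * f ζ) := by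
    intro ζ hζ
    have h1 := congrFun he ζ
    unfold Lg at h1
    rw [if_pos hζ] at h1
    have h2 : (μ • f) ζ = μ * f ζ := rfl
    rw [h2] at h1
    linarith
  -- the conclusion at the maximum
  have key : M ≤ μ * (M * q X) := by
    rcases le_total 0 (f (sh σ X) - f σ) with hs | hs
    · rw [abs_of_nonneg hs] at habs
      have h1 := decrease hσ hX hLip hMpos.le hr habs hne hnu
      rw [hev _ (hX.hgt hσ), hev _ hσ] at h1
      rw [← habs]
      linarith
    · rw [abs_of_nonpos hs] at habs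
      have h1 := decrease (f := fun σ => - f σ) hσ hX hLip.neg hMpos.le
        (fun ζ => by
          show -f (fun x => ζ x + 1) = -f ζ
          rw [hr ζ]) (by
          show -f (sh σ X) - -f σ = _
          rw [← habs]
          ring) hne hnu
      have h2 : ∀ ζ, Ge (fun σ => - f σ) ζ = - Ge f ζ := by
        intro ζ
        have h3 := Ge_smul (-1) f ζ
        have h4 : ((-1 : ℝ) • f) = fun σ => - f σ := by
          funext σ
          show (-1 : ℝ) * f σ = _
          ring
        rw [h4] at h3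
        rw [h3]
        ring
      rw [h2, h2, hev _ (hX.hgt hσ), hev _ hσ] at h1
      rw [← habs]
      linarith
  have key2 : 1 ≤ μ * q X := by
    have h1 : M * 1 ≤ M * (μ * q X) := by linarith
    exact le_of_mul_le_mul_left h1 hMpos
  have hq4 : q X ≤ (n : ℝ) ^ 4 / 4 := by
    have h1 := sq_nonneg ((n : ℝ) ^ 2 - 2 * X.card)
    have h2 : q X = (n : ℝ) ^ 4 / 4 - ((n : ℝ) ^ 2 - 2 * X.card) ^ 2 / 4 := by
      show (X.card : ℝ) * ((n : ℝ) ^ 2 - X.card) = _
      ring
    rw [h2]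
    linarith
  have hn4 : (0 : ℝ) < (n : ℝ) ^ 4 := by
    have : (0 : ℝ) < n := by exact_mod_cast (show 0 < n by omega)
    positivity
  have hμ : 0 < μ := by
    by_contra hcon
    push Not at hcon
    have := mul_nonpos_of_nonpos_of_nonneg hcon hqX.le
    linarith
  rw [div_le_iff₀ hn4]
  have h5 := mul_le_mul_of_nonneg_left hq4 hμ.le
  linarith

/-- the spectral gap of the tower dynamics -/
theorem gap [NeZero n] (hn : 3 ≤ n) (hr : RotInv f) :
    ∃ m : ℝ, ∑ σ ∈ Om0 n, (f σ - m) ^ 2 ≤ (n : ℝ) ^ 4 / 4 * En f := by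
  classical
  have hn4 : (0 : ℝ) < (n : ℝ) ^ 4 := by
    have : (0 : ℝ) < n := by exact_mod_cast (show 0 < n by omega)
    positivity
  have hOm : Om0 n = univ.filter fun σ => Hgt σ := by
    ext σ
    rw [mem_Om0]
    simp
  rcases (Om0 n).eq_empty_or_nonempty with hemp | hne
  · refine ⟨0, ?_⟩
    rw [hemp, sum_empty]
    unfold En
    rw [hemp, sum_empty, mul_zero]
  set m : ℝ := (∑ σ ∈ Om0 n, f σ) / (Om0 n).card with hm
  have hc : ((Om0 n).card : ℝ) ≠ 0 := by
    have := card_pos.2 hne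
    positivity
  refine ⟨m, ?_⟩
  set g : Conf n → ℝ := fun σ => if Hgt σ then f σ - m else 0 with hg
  have hgs : ∀ F : ℝ → ℝ, F 0 = 0 → ∑ σ, F (g σ) = ∑ σ ∈ Om0 n, F (f σ - m) := by
    intro F hF
    rw [hOm, sum_filter]
    refine sum_congr rfl fun σ _ => ?_
    rw [hg]
    by_cases h : Hgt σ
    · simp only [if_pos h]
    · simp only [if_neg h, hF]
  have hgSp : g ∈ Sp n := by
    rw [mem_Sp]
    refine ⟨fun σ => ?_, fun σ hσ => if_neg hσ, ?_⟩
    · have h1 := hgt_rot_iff (fun y => σ y + 1)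
      simp only [add_sub_cancel_right] at h1
      show (if Hgt (fun x => σ x + 1) then f (fun x => σ x + 1) - m else 0) = if Hgt σ then f σ - m else 0
      rw [hr σ]
      by_cases h : Hgt σ
      · rw [if_pos h, if_pos (h1.1 h)]
      · rw [if_neg h, if_neg fun h2 => h (h1.2 h2)]
    · have h1 := hgs id rfl
      simp only [id] at h1
      rw [h1, sum_sub_distrib, sum_const, nsmul_eq_mul, hm]
      field_simp
      ring
  have hsp := spectral (Sp n) Lg (fun f _ g _ => by
      funext σ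
      show Lg (f + g) σ = Lg f σ + Lg g σ
      unfold Lg
      rw [Ge_add]
      split_ifs <;> ring) (fun c f _ => by
      funext σ
      show Lg (c • f) σ = c * Lg f σ
      unfold Lg
      rw [Ge_smul]
      split_ifs <;> ring)
    (fun f hf => by
      obtain ⟨h1, h2, h3⟩ := mem_Sp.1 hf
      rw [mem_Sp]
      refine ⟨fun σ => ?_, fun σ hσ => if_neg hσ, ?_⟩
      · have h4 := Ge_rot h1 (fun y => σ y + 1)
        have h5 := hgt_rot_iff (fun y => σ y + 1)
        simp only [add_sub_cancel_right] at h4 h5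
        unfold Lg
        rw [← h4]
        by_cases h : Hgt σ
        · rw [if_pos h, if_pos (h5.1 h)]
        · rw [if_neg h, if_neg fun h2 => h (h5.2 h2)]
      · have h4 := sum_Lg f (fun _ => 1)
        simp only [mul_one] at h4
        rw [h4]
        have h5 := form hn f (fun _ => 1)
        simp only [mul_one, sub_self, mul_zero, sum_const_zero, neg_zero] at h5
        rw [h5, neg_zero])
    (fun f _ g _ => by
      rw [sum_Lg, form hn]
      have h1 : ∑ σ, f σ * Lg g σ = ∑ σ, Lg g σ * f σ := sum_congr rfl fun σ _ => mul_comm _ _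
      rw [h1, sum_Lg, form hn]
      congr 2
      refine sum_congr rfl fun σ _ => sum_congr rfl fun x _ => ?_
      ring) (4 / (n : ℝ) ^ 4) (fun μ f hf h0 he => eigen_ge hn μ hf h0 he) hgSp
  rw [sum_Lg, form hn, neg_neg] at hsp
  have e1 : ∑ σ, g σ ^ 2 = ∑ σ ∈ Om0 n, (f σ - m) ^ 2 := hgs (fun t => t ^ 2) (by norm_num)
  have e2 : ∑ σ ∈ Om0 n, ∑ x : Site n, rt σ x * ((g (up σ x) - g σ) * (g (up σ x) - g σ)) =
      En f := by
    unfold En
    refine sum_congr rfl fun σ hσ => sum_congr rfl fun x _ => ?_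
    rw [mem_Om0] at hσ
    by_cases hx : ell σ x ≤ 1
    · have h1 : g σ = f σ - m := if_pos hσ
      have h2 : g (up σ x) = f (up σ x) - m := if_pos (up_hgt hσ hx)
      rw [h1, h2]
      ring
    · rw [rt_zero hx]
      ring
  rw [e1, e2] at hsp
  rw [div_mul_eq_mul_div, div_le_iff₀ hn4] at hsp
  linarith

end Pool.Agent.WSK
end

section

/-!
Comparison of the tower moves with the single flips.
-/

set_option autoImplicit false

namespace Pool.Agent.WSK

open Finset

variable {n : ℕ} {σ : Conf n} {X : Finset (Site n)} {f : Conf n → ℝ} {M : ℝ}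

/-- a part of a line -/
def seg (x : Site n) (i : Fin 4) (a b : ℕ) : Finset (Site n) :=
  (Ico a b).image fun k => x + k • dr i

theorem mem_seg {x y : Site n} {i : Fin 4} {a b : ℕ} :
    y ∈ seg x i a b ↔ ∃ k, a ≤ k ∧ k < b ∧ x + k • dr i = y := by
  unfold seg
  rw [mem_image]
  constructor
  · rintro ⟨k, hk, rfl⟩
    rw [mem_Ico] at hk
    exact ⟨k, hk.1, hk.2, rfl⟩
  · rintro ⟨k, h1, h2, rfl⟩
    exact ⟨k, mem_Ico.2 ⟨h1, h2⟩, rfl⟩

theorem seg_step (x : Site n) (i : Fin 4) {a b : ℕ} (h : a < b) :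
    seg x i a b = insert (x + a • dr i) (seg x i (a + 1) b) := by
  ext y
  rw [mem_insert, mem_seg, mem_seg]
  constructor
  · rintro ⟨k, h1, h2, rfl⟩
    rcases eq_or_lt_of_le h1 with h3 | h3
    · left
      rw [h3]
    · right
      exact ⟨k, h3, h2, rfl⟩
  · rintro (h1 | ⟨k, h1, h2, h3⟩)
    · exact ⟨a, le_rfl, h, h1.symm⟩
    · exact ⟨k, by omega, h2, h3⟩

theorem seg_facts [NeZero n] (h : Hgt σ) {x : Site n} (hx : ell σ x ≤ 1) {a : ℕ}
    (ha : a < kk σ x) :
    x + a • dr (td σ x) ∉ seg x (td σ x) (a + 1) (kk σ x) ∧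
      ∀ d, sh σ (seg x (td σ x) (a + 1) (kk σ x)) (x + a • dr (td σ x) + dr d) =
        sh σ (seg x (td σ x) (a + 1) (kk σ x)) (x + a • dr (td σ x)) + 1 := by
  have hy : x + a • dr (td σ x) ∉ seg x (td σ x) (a + 1) (kk σ x) := by
    intro hm
    obtain ⟨k, h1, h2, h3⟩ := mem_seg.1 hm
    have := h.pos_inj (x := x) (i := td σ x) h2 ha h3
    omega
  refine ⟨hy, fun d => ?_⟩
  rw [sh_notMem hy]
  by_cases hd : d = td σ x
  · subst hd
    rcases Nat.lt_or_ge (a + 1) (kk σ x) with h1 | h1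
    · have h2 : x + a • dr (td σ x) + dr (td σ x) ∈ seg x (td σ x) (a + 1) (kk σ x) :=
        mem_seg.2 ⟨a + 1, le_rfl, h1, pos_succ _ _ _⟩
      rw [sh_mem h2, ← pos_succ, h.pr.run_desc h1]
      generalize σ (x + a • dr (td σ x)) = b
      revert b; decide
    · have h2 : x + a • dr (td σ x) + dr (td σ x) ∉ seg x (td σ x) (a + 1) (kk σ x) := by
        intro hm
        obtain ⟨k, h3, h4, -⟩ := mem_seg.1 hm
        omega
      rw [sh_notMem h2, ← pos_succ]
      have h3 := h.run_asc x (td σ x)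
      have h4 : run σ x (td σ x) = a + 1 := by
        have : run σ x (td σ x) = kk σ x := rfl
        omega
      rw [h4] at h3
      exact h3
  · have h1 := side h.pr hx ha hd
    have h2 : x + a • dr (td σ x) + dr d ∉ seg x (td σ x) (a + 1) (kk σ x) := by
      intro hm
      obtain ⟨k, h3, h4, h5⟩ := mem_seg.1 hm
      obtain ⟨g, g1, g2⟩ := h
      have g3 := hgt_run g1 g2 x (td σ x) (run σ x (td σ x) - 1) (fun k hk => run_lt (by omega)) k
        (by have : run σ x (td σ x) = kk σ x := rfl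
            omega)
      have g4 := hgt_run g1 g2 x (td σ x) (run σ x (td σ x) - 1) (fun k hk => run_lt (by omega)) a
        (by have : run σ x (td σ x) = kk σ x := rfl
            omega)
      have g5 := hgt_up g1 g2 h1
      rw [← h5, g3, g4] at g5
      omega
    rw [sh_notMem h2]
    exact h1

theorem sh_insert [NeZero n] (σ : Conf n) {T : Finset (Site n)} {y : Site n} (hy : y ∉ T) :
    sh σ (insert y T) = sh (sh σ T) {y} := by
  funext z
  by_cases hz : z = y
  · rw [hz, sh_mem (mem_insert_self _ _), sh_mem (mem_singleton_self _), sh_notMem hy]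
  · by_cases hz' : z ∈ T
    · rw [sh_mem (mem_insert_of_mem hz'), sh_notMem (by simpa using hz), sh_mem hz']
    · rw [sh_notMem (by simp [hz, hz']), sh_notMem (by simpa using hz), sh_notMem hz']

theorem seg_hgt [NeZero n] (h : Hgt σ) {x : Site n} (hx : ell σ x ≤ 1) (j : ℕ) :
    j ≤ kk σ x → Hgt (sh σ (seg x (td σ x) (kk σ x - j) (kk σ x))) := by
  induction j with
  | zero =>
    intro _
    have : seg x (td σ x) (kk σ x - 0) (kk σ x) = ∅ := by
      unfold seg
      simp
    rw [this, sh_empty]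
    exact h
  | succ j ih =>
    intro hj
    have h1 := ih (by omega)
    set a := kk σ x - (j + 1) with ha
    have h2 : kk σ x - j = a + 1 := by omega
    rw [h2] at h1
    obtain ⟨h3, h4⟩ := seg_facts h hx (a := a) (by omega)
    rw [seg_step _ _ (by omega), sh_insert σ h3]
    refine sh_hgt h1 fun y d hy _ => ?_
    rw [mem_singleton] at hy
    rw [hy]
    exact h4 d

/-- the value of a single flip -/
noncomputable def fl1 (f : Conf n → ℝ) (y : Site n) (ζ : Conf n) : ℝ := (f ζ - f (sh ζ {y})) ^ 2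

theorem fl1_nonneg (f : Conf n → ℝ) (y : Site n) (ζ : Conf n) : 0 ≤ fl1 f y ζ := sq_nonneg _

/-- one tower -/
theorem one_tower [NeZero n] (h : Hgt σ) {x : Site n} (hx : ell σ x = 1) :
    rt σ x * (f (up σ x) - f σ) ^ 2 ≤ ∑ j ∈ range (kk σ x),
      fl1 f (x + (kk σ x - 1 - j) • dr (td σ x)) (sh σ (seg x (td σ x) (kk σ x - j) (kk σ x))) := by
  set K := kk σ x with hK
  have hK1 : 1 ≤ K := kk_pos _ _
  set F : ℕ → ℝ := fun j => f (sh σ (seg x (td σ x) (K - j) K)) with hF
  have e1 : f (up σ x) - f σ = ∑ j ∈ range K, (F (j + 1) - F j) := by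
    rw [sum_range_sub F K]
    have h1 : F K = f (up σ x) := by
      show f (sh σ (seg x (td σ x) (K - K) K)) = f (sh σ (Tw σ x))
      congr 2
      ext y
      rw [mem_seg, Nat.sub_self]
      unfold Tw
      rw [mem_tw]
      constructor
      · rintro ⟨k, -, h2, h3⟩
        exact ⟨k, h2, h3⟩
      · rintro ⟨k, h2, h3⟩
        exact ⟨k, Nat.zero_le _, h2, h3⟩
    have h2 : F 0 = f σ := by
      show f (sh σ (seg x (td σ x) (K - 0) K)) = f σ
      have : seg x (td σ x) (K - 0) K = ∅ := by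
        unfold seg
        simp
      rw [this, sh_empty]
    rw [h1, h2]
  have e2 : (f (up σ x) - f σ) ^ 2 ≤ (K : ℝ) * ∑ j ∈ range K, (F (j + 1) - F j) ^ 2 := by
    rw [e1]
    have := sq_sum_le_card_mul_sum_sq (s := range K) (f := fun j => F (j + 1) - F j)
    rwa [card_range] at this
  have hK0 : (0 : ℝ) < K := by exact_mod_cast hK1
  have e3 : rt σ x * (f (up σ x) - f σ) ^ 2 ≤ ∑ j ∈ range K, (F (j + 1) - F j) ^ 2 := by
    rw [rt_of_one hx, div_mul_eq_mul_div, one_mul, div_le_iff₀ hK0, mul_comm]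
    exact e2
  refine e3.trans (le_of_eq (sum_congr rfl fun j hj => ?_))
  rw [mem_range] at hj
  unfold fl1
  have h1 : K - j = K - 1 - j + 1 := by omega
  obtain ⟨h3, -⟩ := seg_facts h hx.le (a := K - 1 - j) (by omega)
  have h4 : F (j + 1) = f (sh (sh σ (seg x (td σ x) (K - j) K))
      {x + (K - 1 - j) • dr (td σ x)}) := by
    show f (sh σ (seg x (td σ x) (K - (j + 1)) K)) = _
    rw [show K - (j + 1) = K - 1 - j by omega, seg_step _ _ (by omega), sh_insert σ h3, ← h1]
  rw [h4, ← neg_sq]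
  congr 1
  show -(f _ - F j) = F j - f _
  ring

theorem sh_inj {ζ ζ' : Conf n} {T : Finset (Site n)} (h : sh ζ T = sh ζ' T) : ζ = ζ' := by
  funext y
  have h1 := congrFun h y
  by_cases hy : y ∈ T
  · rw [sh_mem hy, sh_mem hy] at h1
    exact sub_left_injective h1
  · rw [sh_notMem hy, sh_notMem hy] at h1
    exact h1

open Classical in
/-- the pairs with a given tower -/
noncomputable def TwSet (n : ℕ) [NeZero n] (i : Fin 4) (K : ℕ) : Finset (Conf n × Site n) :=
  (Om0 n ×ˢ univ).filter fun q => ell q.1 q.2 = 1 ∧ td q.1 q.2 = i ∧ kk q.1 q.2 = K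

theorem Phi_eq [NeZero n] (f : Conf n → ℝ) : Phi f =
    ∑ q ∈ (univ ×ˢ Om n).filter (fun q : Site n × Conf n => ell q.2 q.1 = 0), fl1 f q.1 q.2 := by
  unfold Phi
  rw [sum_filter, sum_product]
  refine sum_congr rfl fun x _ => ?_
  rw [sum_filter]
  rfl

theorem Phi_nonneg [NeZero n] (f : Conf n → ℝ) : 0 ≤ Phi f := by
  rw [Phi_eq]
  exact sum_nonneg fun q _ => fl1_nonneg _ _ _

theorem twset_le [NeZero n] (f : Conf n → ℝ) (i : Fin 4) {K j : ℕ} (hj : j < K) :
    ∑ q ∈ TwSet n i K, fl1 f (q.2 + (K - 1 - j) • dr i) (sh q.1 (seg q.2 i (K - j) K)) ≤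
      Phi f := by
  classical
  rw [Phi_eq]
  set Ψ : Conf n × Site n → Site n × Conf n := fun q =>
    (q.2 + (K - 1 - j) • dr i, sh q.1 (seg q.2 i (K - j) K)) with hΨ
  have hinj : Set.InjOn Ψ (TwSet n i K) := by
    rintro ⟨σ, x⟩ - ⟨σ', x'⟩ - he
    have h1 : x + (K - 1 - j) • (dr i : Site n) = x' + (K - 1 - j) • dr i := congrArg Prod.fst he
    have h2 : x = x' := add_right_cancel h1
    subst h2
    have h3 : sh σ (seg x i (K - j) K) = sh σ' (seg x i (K - j) K) := congrArg Prod.snd he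
    rw [sh_inj h3]
  have e : ∑ q ∈ TwSet n i K, fl1 f (q.2 + (K - 1 - j) • dr i) (sh q.1 (seg q.2 i (K - j) K)) =
      ∑ r ∈ (TwSet n i K).image Ψ, fl1 f r.1 r.2 := by
    rw [sum_image hinj]
  rw [e]
  refine sum_le_sum_of_subset_of_nonneg ?_ fun _ _ _ => fl1_nonneg _ _ _
  intro r hr
  obtain ⟨⟨σ, x⟩, hq, rfl⟩ := mem_image.1 hr
  unfold TwSet at hq
  rw [mem_filter, mem_product, mem_Om0] at hq
  obtain ⟨⟨hσ, -⟩, h1, h2, h3⟩ := hq
  simp only at hσ h1 h2 h3
  subst h2 h3
  have h4 := seg_hgt hσ h1.le j hj.le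
  obtain ⟨-, h5⟩ := seg_facts hσ h1.le (a := kk σ x - 1 - j) (by omega)
  rw [show kk σ x - 1 - j + 1 = kk σ x - j by omega] at h5
  rw [mem_filter, mem_product, mem_Om]
  exact ⟨⟨mem_univ _, h4.pr⟩, (ell_zero_iff h4.pr _).2 h5⟩

/-- the comparison -/
theorem En_le [NeZero n] (hn : 2 ≤ n) (f : Conf n → ℝ) : En f ≤ 4 * (n : ℝ) ^ 2 * Phi f := by
  classical
  have hP := Phi_nonneg f
  -- split the sites
  have h1 : En f = ∑ q ∈ (Om0 n ×ˢ univ).filter (fun q : Conf n × Site n => ell q.1 q.2 = 0),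
      2 * (f (up q.1 q.2) - f q.1) ^ 2 +
      ∑ q ∈ (Om0 n ×ˢ univ).filter (fun q : Conf n × Site n => ell q.1 q.2 = 1),
        rt q.1 q.2 * (f (up q.1 q.2) - f q.1) ^ 2 := by
    unfold En
    rw [← sum_product (s := Om0 n) (t := univ)
      (f := fun q : Conf n × Site n => rt q.1 q.2 * (f (up q.1 q.2) - f q.1) ^ 2),
      sum_filter, sum_filter, ← sum_add_distrib]
    refine sum_congr rfl fun q _ => ?_
    split_ifs with h2 h3 h3
    · omega
    · rw [rt_of_zero h2, add_zero]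
    · rw [zero_add]
    · rw [rt_zero (by omega), zero_mul, add_zero]
  -- the single flips
  have h2 : ∑ q ∈ (Om0 n ×ˢ univ).filter (fun q : Conf n × Site n => ell q.1 q.2 = 0),
      2 * (f (up q.1 q.2) - f q.1) ^ 2 ≤ 2 * Phi f := by
    rw [← mul_sum]
    refine mul_le_mul_of_nonneg_left ?_ (by norm_num)
    rw [Phi_eq]
    have e : ∑ q ∈ (Om0 n ×ˢ univ).filter (fun q : Conf n × Site n => ell q.1 q.2 = 0),
        (f (up q.1 q.2) - f q.1) ^ 2 =
        ∑ r ∈ ((Om0 n ×ˢ univ).filter (fun q : Conf n × Site n => ell q.1 q.2 = 0)).image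
          Prod.swap, fl1 f r.1 r.2 := by
      rw [sum_image (Prod.swap_injective.injOn)]
      refine sum_congr rfl fun q hq => ?_
      rw [mem_filter, mem_product, mem_Om0] at hq
      unfold fl1
      have h3 : up q.1 q.2 = sh q.1 {q.2} := by
        unfold up
        congr 1
        unfold Tw tw
        rw [show run q.1 q.2 (td q.1 q.2) = 1 from kk_zero hq.1.1.pr hq.2]
        simp
      show (f (up q.1 q.2) - f q.1) ^ 2 = (f q.1 - f (sh q.1 {q.2})) ^ 2
      rw [← h3]
      ring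
    rw [e]
    refine sum_le_sum_of_subset_of_nonneg ?_ fun _ _ _ => fl1_nonneg _ _ _
    intro r hr
    obtain ⟨q, hq, rfl⟩ := mem_image.1 hr
    rw [mem_filter, mem_product, mem_Om0] at hq
    rw [mem_filter, mem_product, mem_Om]
    exact ⟨⟨mem_univ _, hq.1.1.pr⟩, hq.2⟩
  -- the towers
  have h3 : ∑ q ∈ (Om0 n ×ˢ univ).filter (fun q : Conf n × Site n => ell q.1 q.2 = 1),
        rt q.1 q.2 * (f (up q.1 q.2) - f q.1) ^ 2 ≤
      ∑ i : Fin 4, ∑ K ∈ range (n + 1), ∑ j ∈ range K, Phi f := by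
    have h4 : ∑ q ∈ (Om0 n ×ˢ univ).filter (fun q : Conf n × Site n => ell q.1 q.2 = 1),
        rt q.1 q.2 * (f (up q.1 q.2) - f q.1) ^ 2 ≤
      ∑ i : Fin 4, ∑ K ∈ range (n + 1), ∑ q ∈ TwSet n i K, ∑ j ∈ range K,
        fl1 f (q.2 + (K - 1 - j) • dr i) (sh q.1 (seg q.2 i (K - j) K)) := by
      have h5 : ∀ i : Fin 4, ∀ K, ∑ q ∈ TwSet n i K, ∑ j ∈ range K,
          fl1 f (q.2 + (K - 1 - j) • dr i) (sh q.1 (seg q.2 i (K - j) K)) =
          ∑ q ∈ (Om0 n ×ˢ univ).filter (fun q : Conf n × Site n => ell q.1 q.2 = 1),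
            if td q.1 q.2 = i ∧ kk q.1 q.2 = K then ∑ j ∈ range K,
          fl1 f (q.2 + (K - 1 - j) • dr i) (sh q.1 (seg q.2 i (K - j) K)) else 0 := by
        intro i K
        rw [← sum_filter]
        refine sum_congr ?_ fun _ _ => rfl
        ext q
        unfold TwSet
        simp only [mem_filter, and_assoc]
      simp only [h5]
      have h6 : ∀ i : Fin 4, ∑ K ∈ range (n + 1),
          ∑ q ∈ (Om0 n ×ˢ univ).filter (fun q : Conf n × Site n => ell q.1 q.2 = 1),
            (if td q.1 q.2 = i ∧ kk q.1 q.2 = K then ∑ j ∈ range K,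
          fl1 f (q.2 + (K - 1 - j) • dr i) (sh q.1 (seg q.2 i (K - j) K)) else 0) =
          ∑ q ∈ (Om0 n ×ˢ univ).filter (fun q : Conf n × Site n => ell q.1 q.2 = 1),
          ∑ K ∈ range (n + 1),
            (if td q.1 q.2 = i ∧ kk q.1 q.2 = K then ∑ j ∈ range K,
          fl1 f (q.2 + (K - 1 - j) • dr i) (sh q.1 (seg q.2 i (K - j) K)) else 0) :=
        fun i => sum_comm
      simp only [h6]
      rw [sum_comm]
      refine sum_le_sum fun q hq => ?_
      rw [mem_filter, mem_product, mem_Om0] at hq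
      obtain ⟨⟨hσ, -⟩, hl⟩ := hq
      refine (one_tower hσ hl).trans ?_
      have hnn : ∀ (i : Fin 4) (K : ℕ), 0 ≤ (if td q.1 q.2 = i ∧ kk q.1 q.2 = K then
          ∑ j ∈ range K, fl1 f (q.2 + (K - 1 - j) • dr i) (sh q.1 (seg q.2 i (K - j) K))
          else 0) := by
        intro i K
        split_ifs
        · exact sum_nonneg fun _ _ => fl1_nonneg _ _ _
        · exact le_rfl
      refine le_trans ?_ (single_le_sum (f := fun i : Fin 4 => ∑ K ∈ range (n + 1),
        (if td q.1 q.2 = i ∧ kk q.1 q.2 = K then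
          ∑ j ∈ range K, fl1 f (q.2 + (K - 1 - j) • dr i) (sh q.1 (seg q.2 i (K - j) K))
          else 0)) (fun i _ => sum_nonneg fun K _ => hnn i K) (mem_univ (td q.1 q.2)))
      refine le_trans ?_ (single_le_sum (f := fun K : ℕ =>
        (if td q.1 q.2 = td q.1 q.2 ∧ kk q.1 q.2 = K then
          ∑ j ∈ range K, fl1 f (q.2 + (K - 1 - j) • dr (td q.1 q.2))
            (sh q.1 (seg q.2 (td q.1 q.2) (K - j) K))
          else 0)) (fun K _ => hnn _ K)
          (mem_range.2 (Nat.lt_succ_of_le (hσ.run_le q.2 (td q.1 q.2)))))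
      rw [if_pos ⟨rfl, rfl⟩]
      exact le_rfl
    refine h4.trans ?_
    refine sum_le_sum fun i _ => sum_le_sum fun K _ => ?_
    rw [sum_comm]
    exact sum_le_sum fun j hj => twset_le f i (mem_range.1 hj)
  have h4 : ∑ i : Fin 4, ∑ K ∈ range (n + 1), ∑ j ∈ range K, Phi f =
      2 * ((n : ℝ) * (n + 1)) * Phi f := by
    have h5 : ∑ K ∈ range (n + 1), ∑ j ∈ range K, Phi f = (n : ℝ) * (n + 1) / 2 * Phi f := by
      simp only [sum_const, card_range, nsmul_eq_mul]
      rw [← sum_mul]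
      congr 1
      have h6 := Finset.sum_range_id_mul_two (n + 1)
      have h7 : (∑ i ∈ range (n + 1), (i : ℝ)) * 2 = (n + 1) * n := by
        have : ((∑ i ∈ range (n + 1), i : ℕ) : ℝ) * 2 = (((n + 1) * (n + 1 - 1) : ℕ) : ℝ) := by
          rw [← h6]
          push_cast
          rfl
        rw [Nat.add_sub_cancel] at this
        push_cast at this
        exact this
      linarith
    rw [h5]
    simp only [sum_const, card_univ, Fintype.card_fin, nsmul_eq_mul]
    push_cast
    ring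
  have hn' : (2 : ℝ) ≤ n := by exact_mod_cast hn
  have h5 : 2 + 2 * ((n : ℝ) * (n + 1)) ≤ 4 * (n : ℝ) ^ 2 := by nlinarith
  calc En f ≤ 2 * Phi f + 2 * ((n : ℝ) * (n + 1)) * Phi f := by
        rw [h1]
        exact add_le_add h2 (h3.trans h4.le)
    _ = (2 + 2 * ((n : ℝ) * (n + 1))) * Phi f := by ring
    _ ≤ 4 * (n : ℝ) ^ 2 * Phi f := mul_le_mul_of_nonneg_right h5 hP

end Pool.Agent.WSK
end

section

/-!
Maps that preserve the class of a colour.
-/

set_option autoImplicit false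

namespace Pool.Agent.WSK

open Finset

variable {n : ℕ} [NeZero n] {σ : Conf n} {X : Finset (Site n)} {f : Conf n → ℝ} {M : ℝ}

theorem mem_Cls {c : ZMod 3} {σ τ : Conf n} :
    τ ∈ Cls c σ ↔ Pr τ ∧ ∀ x, τ x = c ↔ σ x = c := by
  unfold Cls
  rw [mem_filter, mem_Om]

theorem Cls_self {c : ZMod 3} (h : Pr σ) : σ ∈ Cls c σ := mem_Cls.2 ⟨h, fun _ => Iff.rfl⟩

theorem Cls_eq {c : ZMod 3} {σ τ : Conf n} (h : τ ∈ Cls c σ) : Cls c τ = Cls c σ := by
  rw [mem_Cls] at h
  ext ζ
  rw [mem_Cls, mem_Cls]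
  constructor
  · rintro ⟨h1, h2⟩
    exact ⟨h1, fun x => (h2 x).trans (h.2 x)⟩
  · rintro ⟨h1, h2⟩
    exact ⟨h1, fun x => (h2 x).trans (h.2 x).symm⟩

theorem Cls_card_pos {c : ZMod 3} (h : Pr σ) : 0 < ((Cls c σ).card : ℝ) := by
  exact_mod_cast card_pos.2 ⟨σ, Cls_self h⟩

theorem Dc_nonneg (c : ZMod 3) (f : Conf n → ℝ) : 0 ≤ Dc c f := by
  unfold Dc
  exact sum_nonneg fun σ _ => div_nonneg (sum_nonneg fun _ _ => sq_nonneg _) (Nat.cast_nonneg _)

theorem Df_nonneg (f : Conf n → ℝ) : 0 ≤ Df f := sum_nonneg fun c _ => Dc_nonneg c f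

theorem Dc_le_Df (c : ZMod 3) (f : Conf n → ℝ) : Dc c f ≤ Df f :=
  single_le_sum (f := fun c => Dc c f) (fun c _ => Dc_nonneg c f) (mem_univ c)

/-- an injective map that preserves the class of the colour `c` -/
theorem inj_le {c : ZMod 3} (f : Conf n → ℝ) {S : Finset (Conf n)} (hS : S ⊆ Om n)
    {F : Conf n → Conf n} (hF : ∀ σ ∈ S, F σ ∈ Cls c σ) (hinj : Set.InjOn F S) :
    ∑ σ ∈ S, (f σ - f (F σ)) ^ 2 ≤ 4 * Dc c f := by
  classical
  set h : Conf n → ℝ := fun ζ => (∑ τ ∈ Cls c ζ, (f ζ - f τ) ^ 2) / ((Cls c ζ).card : ℝ) with hh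
  have hnn : ∀ ζ, 0 ≤ h ζ := fun ζ =>
    div_nonneg (sum_nonneg fun _ _ => sq_nonneg _) (Nat.cast_nonneg _)
  have h1 : ∀ σ ∈ S, (f σ - f (F σ)) ^ 2 ≤ 2 * h σ + 2 * h (F σ) := by
    intro σ hσ
    have hpr : Pr σ := mem_Om.1 (hS hσ)
    have hc := Cls_card_pos (c := c) hpr
    have e1 : Cls c (F σ) = Cls c σ := Cls_eq (hF σ hσ)
    have e2 : 2 * h σ + 2 * h (F σ) =
        (∑ τ ∈ Cls c σ, (2 * (f σ - f τ) ^ 2 + 2 * (f (F σ) - f τ) ^ 2)) /
          ((Cls c σ).card : ℝ) := by
      show 2 * ((∑ τ ∈ Cls c σ, (f σ - f τ) ^ 2) / ((Cls c σ).card : ℝ)) +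
        2 * ((∑ τ ∈ Cls c (F σ), (f (F σ) - f τ) ^ 2) / ((Cls c (F σ)).card : ℝ)) = _
      rw [e1, sum_add_distrib, ← mul_sum, ← mul_sum]
      ring
    rw [e2, le_div_iff₀ hc]
    have e3 : (f σ - f (F σ)) ^ 2 * ((Cls c σ).card : ℝ) =
        ∑ τ ∈ Cls c σ, (f σ - f (F σ)) ^ 2 := by
      rw [sum_const, nsmul_eq_mul, mul_comm]
    rw [e3]
    refine sum_le_sum fun τ _ => ?_
    nlinarith [sq_nonneg ((f σ - f τ) + (f (F σ) - f τ))]
  have h2 : ∑ σ ∈ S, h σ ≤ Dc c f :=
    sum_le_sum_of_subset_of_nonneg hS fun ζ _ _ => hnn ζ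
  have h3 : ∑ σ ∈ S, h (F σ) ≤ Dc c f := by
    have : ∑ σ ∈ S, h (F σ) = ∑ ζ ∈ S.image F, h ζ := by rw [sum_image hinj]
    rw [this]
    refine sum_le_sum_of_subset_of_nonneg ?_ fun ζ _ _ => hnn ζ
    intro ζ hζ
    obtain ⟨σ, hσ, rfl⟩ := mem_image.1 hζ
    exact mem_Om.2 (mem_Cls.1 (hF σ hσ)).1
  calc ∑ σ ∈ S, (f σ - f (F σ)) ^ 2 ≤ ∑ σ ∈ S, (2 * h σ + 2 * h (F σ)) := sum_le_sum h1
    _ = 2 * ∑ σ ∈ S, h σ + 2 * ∑ σ ∈ S, h (F σ) := by
        rw [sum_add_distrib, mul_sum, mul_sum]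
    _ ≤ 4 * Dc c f := by linarith

omit [NeZero n] in
theorem flip_pr (h : Pr σ) {x : Site n} (hx : ell σ x = 0) : Pr (sh σ {x}) := by
  intro y i
  have h0 := ell_zero h hx
  by_cases hy : y = x
  · subst hy
    rw [sh_mem (mem_singleton_self _)]
    by_cases hi : y + dr i = y
    · exfalso
      have := h0 i
      rw [hi] at this
      exact absurd this (by generalize σ y = a; revert a; decide)
    · rw [sh_notMem (by simpa using hi), h0 i]
      exact z3_ne _
  · rw [sh_notMem (X := {x}) (y := y) (by simpa using hy)]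
    by_cases hi : y + dr i = x
    · rw [hi, sh_mem (mem_singleton_self _)]
      have h1 := h0 (op i)
      rw [← hi, add_op] at h1
      rw [← hi, h1]
      intro h2
      exact z3_ne _ h2.symm
    · rw [sh_notMem (by simpa using hi)]
      exact h y i

/-- the single flips -/
theorem Phi_le (f : Conf n → ℝ) : Phi f ≤ 4 * (n : ℝ) ^ 2 * Df f := by
  classical
  have key : ∀ x : Site n, ∑ σ ∈ (Om n).filter (fun σ => ell σ x = 0),
      (f σ - f (sh σ {x})) ^ 2 ≤ 4 * Df f := by
    intro x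
    have h1 : ∑ σ ∈ (Om n).filter (fun σ => ell σ x = 0), (f σ - f (sh σ {x})) ^ 2 =
        ∑ c : ZMod 3, ∑ σ ∈ ((Om n).filter (fun σ => ell σ x = 0)).filter
          (fun σ => σ x + 1 = c), (f σ - f (sh σ {x})) ^ 2 := by
      rw [sum_fiberwise]
    rw [h1]
    unfold Df
    rw [mul_sum]
    refine sum_le_sum fun c _ => ?_
    refine inj_le f (S := ((Om n).filter (fun σ => ell σ x = 0)).filter (fun σ => σ x + 1 = c))
      ((filter_subset _ _).trans (filter_subset _ _)) (F := fun σ => sh σ {x}) ?_ ?_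
    · intro σ hσ
      rw [mem_filter, mem_filter, mem_Om] at hσ
      obtain ⟨⟨h2, h3⟩, h4⟩ := hσ
      rw [mem_Cls]
      refine ⟨flip_pr h2 h3, fun y => ?_⟩
      by_cases hy : y = x
      · subst hy
        rw [sh_mem (mem_singleton_self _), ← h4]
        generalize σ y = a
        revert a; decide
      · rw [sh_notMem (by simpa using hy)]
    · intro σ _ σ' _ he
      exact sh_inj he
  calc Phi f ≤ ∑ x : Site n, 4 * Df f := sum_le_sum fun x _ => key x
    _ = 4 * (n : ℝ) ^ 2 * Df f := by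
        rw [sum_const, card_univ, card_site, nsmul_eq_mul]
        push_cast
        ring

omit [NeZero n] in
theorem sub_pr (h : Pr σ) (a : ZMod 3) : Pr (fun x => a - σ x) := by
  intro x i h1
  have h2 : a - σ (x + dr i) = a - σ x := h1
  exact h x i (sub_right_injective h2)

theorem swap_le (c : ZMod 3) (f : Conf n → ℝ) :
    ∑ σ ∈ Om n, (f σ - f (fun x => 2 * c - σ x)) ^ 2 ≤ 4 * Dc c f := by
  refine inj_le f subset_rfl (F := fun σ x => 2 * c - σ x) ?_ ?_
  · intro σ hσ
    rw [mem_Om] at hσ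
    rw [mem_Cls]
    refine ⟨sub_pr hσ _, fun x => ?_⟩
    generalize σ x = a
    revert a c
    decide
  · intro σ _ σ' _ he
    funext x
    exact sub_right_injective (congrFun he x)

theorem sum_swap (a : ZMod 3) (g : Conf n → ℝ) :
    ∑ σ ∈ Om n, g (fun x => a - σ x) = ∑ σ ∈ Om n, g σ := by
  refine Finset.sum_nbij' (fun σ x => a - σ x) (fun σ x => a - σ x) ?_ ?_ ?_ ?_ ?_
  · intro σ hσ
    rw [mem_Om] at hσ ⊢
    exact sub_pr hσ a
  · intro σ hσ
    rw [mem_Om] at hσ ⊢
    exact sub_pr hσ a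
  · intro σ _
    funext x
    show a - (a - σ x) = σ x
    ring
  · intro σ _
    funext x
    show a - (a - σ x) = σ x
    ring
  · intro σ _
    rfl

/-- the rotation of the colours -/
theorem rot_le (f : Conf n → ℝ) :
    ∑ σ ∈ Om n, (f σ - f (fun x => σ x + 1)) ^ 2 ≤ 8 * Df f := by
  have h0 := swap_le 0 f
  have h2 := swap_le 2 f
  have e := sum_swap (0 : ZMod 3) (fun σ => (f σ - f (fun x => 2 * 2 - σ x)) ^ 2)
  simp only at e
  have h3 : ∀ σ ∈ Om n, (f σ - f (fun x => σ x + 1)) ^ 2 ≤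
      2 * (f σ - f (fun x => 2 * 0 - σ x)) ^ 2 +
      2 * (f (fun x => 0 - σ x) - f (fun x => 2 * 2 - (0 - σ x))) ^ 2 := by
    intro σ _
    have e1 : (fun x => 2 * 0 - σ x : Conf n) = fun x => 0 - σ x := by
      funext x
      ring
    have e2 : (fun x => 2 * 2 - (0 - σ x) : Conf n) = fun x => σ x + 1 := by
      funext x
      generalize σ x = a
      revert a; decide
    rw [e1, e2]
    nlinarith [sq_nonneg ((f σ - f (fun x => 0 - σ x)) -
      (f (fun x => 0 - σ x) - f (fun x => σ x + 1)))]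
  have h4 := sum_le_sum h3
  rw [sum_add_distrib, ← mul_sum, ← mul_sum, e] at h4
  have h5 : Dc 0 f + Dc 2 f ≤ Df f := by
    unfold Df
    have : ∑ c : ZMod 3, Dc c f = Dc 0 f + Dc 1 f + Dc 2 f := Fin.sum_univ_three _
    rw [this]
    linarith [Dc_nonneg 1 f]
  linarith

end Pool.Agent.WSK
end

section

/-!
The variance over the colourings of winding number zero.
-/

set_option autoImplicit false

namespace Pool.Agent.WSK

open Finset

variable {n : ℕ} [NeZero n] {σ : Conf n} {X : Finset (Site n)} {f : Conf n → ℝ} {M : ℝ}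

/-- the rotation -/
def ro (σ : Conf n) : Conf n := fun x => σ x + 1

omit [NeZero n] in
theorem ro3 (σ : Conf n) : ro (ro (ro σ)) = σ := by
  funext x
  show σ x + 1 + 1 + 1 = σ x
  generalize σ x = a
  revert a; decide

omit [NeZero n] in
theorem ro_pr (h : Pr σ) : Pr (ro σ) := by
  intro x i h1
  have h2 : σ (x + dr i) + 1 = σ x + 1 := h1
  exact h x i (add_right_cancel h2)

theorem sum_ro (g : Conf n → ℝ) : ∑ σ ∈ Om n, g (ro σ) = ∑ σ ∈ Om n, g σ := by
  refine Finset.sum_nbij' ro (fun σ => ro (ro σ)) ?_ ?_ ?_ ?_ ?_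
  · intro σ hσ
    rw [mem_Om] at hσ ⊢
    exact ro_pr hσ
  · intro σ hσ
    rw [mem_Om] at hσ ⊢
    exact ro_pr (ro_pr hσ)
  · intro σ _
    exact ro3 σ
  · intro σ _
    exact ro3 σ
  · intro σ _
    rfl

theorem sum_ro0 (g : Conf n → ℝ) : ∑ σ ∈ Om0 n, g (ro σ) = ∑ σ ∈ Om0 n, g σ := by
  refine Finset.sum_nbij' ro (fun σ => ro (ro σ)) ?_ ?_ ?_ ?_ ?_
  · intro σ hσ
    rw [mem_Om0] at hσ ⊢
    exact hσ.rot
  · intro σ hσ
    rw [mem_Om0] at hσ ⊢
    exact hσ.rot.rot
  · intro σ _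
    exact ro3 σ
  · intro σ _
    exact ro3 σ
  · intro σ _
    rfl

omit [NeZero n] in
theorem ro_sub (σ : Conf n) : (fun y => ro σ y - 1) = σ := by
  funext y
  show σ y + 1 - 1 = σ y
  ring

omit [NeZero n] in
theorem rt_ro (σ : Conf n) (x : Site n) : rt (ro σ) x = rt σ x := by
  have := rt_rot (ro σ) x
  rw [ro_sub] at this
  exact this.symm

omit [NeZero n] in
theorem up_ro (σ : Conf n) (x : Site n) : up (ro σ) x = ro (up σ x) := by
  have := up_rot (ro σ) x
  rw [ro_sub] at this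
  rw [this]
  funext y
  show up (ro σ) x y = up (ro σ) x y - 1 + 1
  ring

theorem En_ro (f : Conf n → ℝ) : En (fun σ => f (ro σ)) = En f := by
  unfold En
  rw [← sum_ro0 (fun σ => ∑ x : Site n, rt σ x * (f (up σ x) - f σ) ^ 2)]
  refine sum_congr rfl fun σ _ => sum_congr rfl fun x _ => ?_
  rw [rt_ro, up_ro]

/-- the average over the rotations -/
noncomputable def av (f : Conf n → ℝ) (σ : Conf n) : ℝ := (f σ + f (ro σ) + f (ro (ro σ))) / 3

omit [NeZero n] in
theorem av_inv (f : Conf n → ℝ) : RotInv (av f) := by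
  intro σ
  show (f (ro σ) + f (ro (ro σ)) + f (ro (ro (ro σ)))) / 3 = (f σ + f (ro σ) + f (ro (ro σ))) / 3
  rw [ro3]
  ring

theorem En_av (f : Conf n → ℝ) : En (av f) ≤ En f := by
  have h1 : En (av f) ≤ (1 / 3) * (En f + En (fun σ => f (ro σ)) + En (fun σ => f (ro (ro σ)))) := by
    unfold En
    rw [← sum_add_distrib, ← sum_add_distrib, mul_sum]
    refine sum_le_sum fun σ _ => ?_
    rw [← sum_add_distrib, ← sum_add_distrib, mul_sum]
    refine sum_le_sum fun x _ => ?_
    have h2 := rt_nonneg σ x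
    have h3 : (av f (up σ x) - av f σ) ^ 2 ≤ (1 / 3) * ((f (up σ x) - f σ) ^ 2 +
        (f (ro (up σ x)) - f (ro σ)) ^ 2 + (f (ro (ro (up σ x))) - f (ro (ro σ))) ^ 2) := by
      unfold av
      nlinarith [sq_nonneg ((f (up σ x) - f σ) - (f (ro (up σ x)) - f (ro σ))),
        sq_nonneg ((f (up σ x) - f σ) - (f (ro (ro (up σ x))) - f (ro (ro σ)))),
        sq_nonneg ((f (ro (up σ x)) - f (ro σ)) - (f (ro (ro (up σ x))) - f (ro (ro σ))))]
    have h4 := mul_le_mul_of_nonneg_left h3 h2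
    refine h4.trans (le_of_eq ?_)
    ring
  have h2 := En_ro f
  have h3 := En_ro (fun σ => f (ro σ))
  rw [h3, h2] at h1
  linarith

theorem dist_av (f : Conf n → ℝ) : ∑ σ ∈ Om n, (f σ - av f σ) ^ 2 ≤ 4 * Df f := by
  have h1 : ∀ σ ∈ Om n, (f σ - av f σ) ^ 2 ≤ (2 / 9) * ((f σ - f (ro σ)) ^ 2 +
      (f (ro (ro σ)) - f (ro (ro (ro σ)))) ^ 2) := by
    intro σ _
    rw [ro3]
    unfold av
    nlinarith [sq_nonneg ((f σ - f (ro σ)) - (f σ - f (ro (ro σ))))]
  have h2 := sum_le_sum h1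
  rw [← mul_sum, sum_add_distrib] at h2
  have h3 := sum_ro (fun σ => (f (ro σ) - f (ro (ro σ))) ^ 2)
  have h4 := sum_ro (fun σ => (f σ - f (ro σ)) ^ 2)
  rw [h3, h4] at h2
  have h5 : ∑ σ ∈ Om n, (f σ - f (ro σ)) ^ 2 ≤ 8 * Df f := rot_le f
  have h6 := Df_nonneg f
  linarith

theorem Om0_sub : Om0 n ⊆ Om n := fun _ hσ => mem_Om.2 (mem_Om0.1 hσ).pr

/-- the variance over the colourings of winding number zero -/
theorem base (hn : 3 ≤ n) (f : Conf n → ℝ) :
    ∃ m : ℝ, ∑ σ ∈ Om0 n, (f σ - m) ^ 2 ≤ (8 * (n : ℝ) ^ 8 + 8) * Df f := by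
  obtain ⟨m, hm⟩ := gap hn (av_inv f)
  refine ⟨m, ?_⟩
  have h1 : ∑ σ ∈ Om0 n, (f σ - m) ^ 2 ≤ 2 * ∑ σ ∈ Om0 n, (f σ - av f σ) ^ 2 +
      2 * ∑ σ ∈ Om0 n, (av f σ - m) ^ 2 := by
    rw [mul_sum, mul_sum, ← sum_add_distrib]
    refine sum_le_sum fun σ _ => ?_
    nlinarith [sq_nonneg ((f σ - av f σ) - (av f σ - m))]
  have h2 : ∑ σ ∈ Om0 n, (f σ - av f σ) ^ 2 ≤ 4 * Df f :=
    (sum_le_sum_of_subset_of_nonneg Om0_sub fun _ _ _ => sq_nonneg _).trans (dist_av f)
  have h3 : En (av f) ≤ 16 * (n : ℝ) ^ 4 * Df f := by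
    refine (En_av f).trans ((En_le (by omega) f).trans ?_)
    have h4 := mul_le_mul_of_nonneg_left (Phi_le f) (show (0 : ℝ) ≤ 4 * (n : ℝ) ^ 2 by positivity)
    refine h4.trans (le_of_eq ?_)
    ring
  have h4 := mul_le_mul_of_nonneg_left h3 (show (0 : ℝ) ≤ (n : ℝ) ^ 4 / 4 by positivity)
  have h5 : (n : ℝ) ^ 4 / 4 * (16 * (n : ℝ) ^ 4 * Df f) = 4 * (n : ℝ) ^ 8 * Df f := by ring
  rw [h5] at h4
  linarith

end Pool.Agent.WSK
end

section

/-!
Clusters of two colours and their periods.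
-/

set_option autoImplicit false
set_option linter.unusedSectionVars false

namespace Pool.Agent.WSK

open Finset

variable {n : ℕ} [NeZero n] {σ : Conf n} {c : ZMod 3} {X Y Z K : Finset (Site n)}

/-- the increment of the height -/
def dd (p q : ZMod 3) : ℤ := if q = p + 1 then 1 else -1

theorem dd_face (p q r s : ZMod 3) (h1 : q ≠ p) (h2 : s ≠ q) (h3 : r ≠ p) (h4 : s ≠ r) :
    dd p q + dd q s = dd p r + dd r s := by
  revert p q r s; decide

theorem dd_neg (p q : ZMod 3) (h : q ≠ p) : dd q p = -dd p q := by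
  revert p q; decide

theorem dd_cast (p q : ZMod 3) (h : q ≠ p) : ((dd p q : ℤ) : ZMod 3) = q - p := by
  revert p q; decide

theorem dd_odd (p q : ZMod 3) : ((dd p q : ℤ) : ZMod 2) = 1 := by
  revert p q; decide

/-- sets closed under adjacency through the colours different from `c` -/
def CS (c : ZMod 3) (σ : Conf n) (Y : Finset (Site n)) : Prop :=
  (∀ y ∈ Y, σ y ≠ c) ∧ ∀ y ∈ Y, ∀ i, σ (y + dr i) ≠ c → y + dr i ∈ Y

/-- the exchange of the two other colours on `Y` -/
def fl (c : ZMod 3) (Y : Finset (Site n)) (σ : Conf n) : Conf n :=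
  fun x => if x ∈ Y then 2 * c - σ x else σ x

/-- the part of the form that touches `Y` -/
def de (σ : Conf n) (Y : Finset (Site n)) (x : Site n) (i : Fin 4) : ℤ :=
  if x ∈ Y ∨ x + dr i ∈ Y then dd (σ x) (σ (x + dr i)) else 0

theorem edge_aux (p q c : ZMod 3) (m m' : Bool) (h : q ≠ p) (h1 : m = true → p ≠ c)
    (h2 : m' = true → q ≠ c) (h3 : p ≠ c → q ≠ c → m = m') :
    dd (if m = true then 2 * c - p else p) (if m' = true then 2 * c - q else q) =
      dd p q - 2 * (if m = true ∨ m' = true then dd p q else 0) ∧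
    (if m' = true then 2 * c - q else q) ≠ (if m = true then 2 * c - p else p) := by
  cases m <;> cases m'
  · simp only [Bool.false_eq_true, if_false, or_self, mul_zero, sub_zero]
    exact ⟨trivial, h⟩
  · have h4 : p = c := by
      by_contra h5
      exact Bool.false_ne_true (h3 h5 (h2 rfl))
    have h5 := h2 rfl
    simp only [Bool.false_eq_true, if_false, if_true, or_true]
    clear h1 h2 h3
    subst h4
    revert p q; decide
  · have h4 : q = c := by
      by_contra h5
      exact Bool.false_ne_true (h3 (h1 rfl) h5).symm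
    have h5 := h1 rfl
    simp only [Bool.false_eq_true, if_false, if_true, true_or]
    clear h1 h2 h3
    subst h4
    revert p q; decide
  · have h4 := h1 rfl
    have h5 := h2 rfl
    simp only [if_true, true_or]
    clear h1 h2 h3
    revert p q c; decide

theorem CS.edge (h : Pr σ) (hY : CS c σ Y) (x : Site n) (i : Fin 4) :
    dd (fl c Y σ x) (fl c Y σ (x + dr i)) = dd (σ x) (σ (x + dr i)) - 2 * de σ Y x i ∧
      fl c Y σ (x + dr i) ≠ fl c Y σ x := by
  have h1 := edge_aux (σ x) (σ (x + dr i)) c (decide (x ∈ Y)) (decide (x + dr i ∈ Y)) (h x i)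
    (fun h1 => hY.1 x (of_decide_eq_true h1)) (fun h1 => hY.1 _ (of_decide_eq_true h1))
    (fun h1 h2 => by
      congr 1
      apply propext
      constructor
      · exact fun h3 => hY.2 x h3 i h2
      · intro h3
        have h4 := hY.2 _ h3 (op i)
        rw [add_op] at h4
        exact h4 h1)
  simp only [decide_eq_true_eq] at h1
  exact h1

theorem CS.fl_pr (h : Pr σ) (hY : CS c σ Y) : Pr (fl c Y σ) := fun x i => (hY.edge h x i).2

theorem fl_c (hY : CS c σ Y) (x : Site n) : fl c Y σ x = c ↔ σ x = c := by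
  unfold fl
  split_ifs with h
  · have h1 := hY.1 x h
    clear hY h
    generalize σ x = a at h1 ⊢
    revert a c; decide
  · exact Iff.rfl

theorem fl_fl (Y : Finset (Site n)) (σ : Conf n) : fl c Y (fl c Y σ) = σ := by
  funext x
  unfold fl
  split_ifs
  · ring
  · rfl

theorem CS.fl_mem (h : Pr σ) (hY : CS c σ Y) : fl c Y σ ∈ Cls c σ :=
  mem_Cls.2 ⟨hY.fl_pr h, fl_c hY⟩

/-- the class determines the closed sets -/
theorem CS_congr {σ' : Conf n} (h : ∀ x, σ' x = c ↔ σ x = c) : CS c σ' Y ↔ CS c σ Y := by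
  unfold CS
  simp only [ne_eq, h]

theorem dr0 : (dr 0 : Site n) = (1, 0) := rfl

theorem dr2 : (dr 2 : Site n) = (0, 1) := rfl

/-- the form of the colouring is closed -/
theorem dd_closed (h : Pr σ) :
    Cl (fun z => dd (σ z) (σ (z + dr 0))) (fun z => dd (σ z) (σ (z + dr 2))) := by
  intro x y
  show dd (σ (x, y)) (σ ((x, y) + dr 0)) + dd (σ (x + 1, y)) (σ ((x + 1, y) + dr 2)) =
    dd (σ (x, y)) (σ ((x, y) + dr 2)) + dd (σ (x, y + 1)) (σ ((x, y + 1) + dr 0))
  have e1 : (x + 1, y) = (x, y) + (dr 0 : Site n) := by rw [dr0]; simp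
  have e2 : (x, y + 1) = (x, y) + (dr 2 : Site n) := by rw [dr2]; simp
  have e3 : (x, y) + (dr 2 : Site n) + dr 0 = (x, y) + dr 0 + dr 2 := by abel
  rw [e1, e2, e3]
  refine dd_face _ _ _ _ (h _ _) (h _ _) (h _ _) ?_
  rw [← e3]
  exact h _ _

theorem de_closed (h : Pr σ) (hY : CS c σ Y) :
    Cl (fun z => de σ Y z 0) (fun z => de σ Y z 2) := by
  have h1 := dd_closed h
  have h2 := dd_closed (hY.fl_pr h)
  intro x y
  have h3 := h1 x y
  have h4 := h2 x y
  simp only [(hY.edge h _ _).1] at h3 h4 ⊢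
  linarith

/-- the periods -/
noncomputable def P1 (σ : Conf n) (Y : Finset (Site n)) : ℤ := pr fun z => de σ Y z 0

/-- the periods -/
noncomputable def P2 (σ : Conf n) (Y : Finset (Site n)) : ℤ := pc fun z => de σ Y z 2

/-- the winding numbers -/
noncomputable def W1 (σ : Conf n) : ℤ := pr fun z => dd (σ z) (σ (z + dr 0))

/-- the winding numbers -/
noncomputable def W2 (σ : Conf n) : ℤ := pc fun z => dd (σ z) (σ (z + dr 2))

theorem W1_fl (h : Pr σ) (hY : CS c σ Y) : W1 (fl c Y σ) = W1 σ - 2 * P1 σ Y := by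
  unfold W1 P1 pr
  rw [mul_sum, ← sum_sub_distrib]
  exact sum_congr rfl fun k _ => (hY.edge h _ _).1

theorem W2_fl (h : Pr σ) (hY : CS c σ Y) : W2 (fl c Y σ) = W2 σ - 2 * P2 σ Y := by
  unfold W2 P2 pc
  rw [mul_sum, ← sum_sub_distrib]
  exact sum_congr rfl fun k _ => (hY.edge h _ _).1

theorem W1_three (h : Pr σ) : ((W1 σ : ℤ) : ZMod 3) = 0 := by
  unfold W1 pr
  push_cast
  have e : ∀ k : ZMod n, ((dd (σ (k, 0)) (σ ((k, 0) + dr 0)) : ℤ) : ZMod 3) =
      σ (k + 1, 0) - σ (k, 0) := by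
    intro k
    rw [dd_cast _ _ (h _ _), dr0]
    simp
  simp only [e]
  rw [sum_sub_distrib, sum_shift (fun k => σ (k, 0)), sub_self]

theorem W2_three (h : Pr σ) : ((W2 σ : ℤ) : ZMod 3) = 0 := by
  unfold W2 pc
  push_cast
  have e : ∀ k : ZMod n, ((dd (σ (0, k)) (σ ((0, k) + dr 2)) : ℤ) : ZMod 3) =
      σ (0, k + 1) - σ (0, k) := by
    intro k
    rw [dd_cast _ _ (h _ _), dr2]
    simp
  simp only [e]
  rw [sum_sub_distrib, sum_shift (fun k => σ (0, k)), sub_self]

theorem W1_even (hn : Even n) (σ : Conf n) : Even (W1 σ) := by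
  have h1 : ((W1 σ : ℤ) : ZMod 2) = 0 := by
    unfold W1 pr
    push_cast
    simp only [dd_odd]
    rw [sum_const, card_univ, ZMod.card, nsmul_eq_mul, mul_one]
    exact (ZMod.natCast_eq_zero_iff _ _).2 hn.two_dvd
  exact (ZMod.intCast_eq_zero_iff_even).1 h1

theorem W2_even (hn : Even n) (σ : Conf n) : Even (W2 σ) := by
  have h1 : ((W2 σ : ℤ) : ZMod 2) = 0 := by
    unfold W2 pc
    push_cast
    simp only [dd_odd]
    rw [sum_const, card_univ, ZMod.card, nsmul_eq_mul, mul_one]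
    exact (ZMod.natCast_eq_zero_iff _ _).2 hn.two_dvd
  exact (ZMod.intCast_eq_zero_iff_even).1 h1

theorem three_of (z w a : ℤ) (hz : ((z : ℤ) : ZMod 3) = 0) (hw : ((w : ℤ) : ZMod 3) = 0)
    (h : w = z - 2 * a) : (3 : ℤ) ∣ a := by
  have h1 := (ZMod.intCast_zmod_eq_zero_iff_dvd z 3).1 hz
  have h2 := (ZMod.intCast_zmod_eq_zero_iff_dvd w 3).1 hw
  push_cast at h1 h2
  omega

theorem P1_three (h : Pr σ) (hY : CS c σ Y) : (3 : ℤ) ∣ P1 σ Y :=
  three_of _ _ _ (W1_three h) (W1_three (hY.fl_pr h)) (W1_fl h hY)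

theorem P2_three (h : Pr σ) (hY : CS c σ Y) : (3 : ℤ) ∣ P2 σ Y :=
  three_of _ _ _ (W2_three h) (W2_three (hY.fl_pr h)) (W2_fl h hY)

/-! ### disjoint closed sets -/

theorem de_union (hY : CS c σ Y) (hZ : CS c σ Z) (hd : Disjoint Y Z) (x : Site n) (i : Fin 4) :
    de σ (Y ∪ Z) x i = de σ Y x i + de σ Z x i := by
  unfold de
  have key : ¬ ((x ∈ Y ∨ x + dr i ∈ Y) ∧ (x ∈ Z ∨ x + dr i ∈ Z)) := by
    rintro ⟨h1, h2⟩
    rw [disjoint_left] at hd
    rcases h1 with h1 | h1 <;> rcases h2 with h2 | h2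
    · exact hd h1 h2
    · exact hd (hY.2 x h1 i (hZ.1 _ h2)) h2
    · exact hd h1 (hZ.2 x h2 i (hY.1 _ h1))
    · exact hd h1 h2
  by_cases h1 : x ∈ Y ∨ x + dr i ∈ Y
  · have h2 : ¬ (x ∈ Z ∨ x + dr i ∈ Z) := fun h2 => key ⟨h1, h2⟩
    rw [if_pos h1, if_neg h2, if_pos, add_zero]
    simp only [mem_union]
    tauto
  · by_cases h2 : x ∈ Z ∨ x + dr i ∈ Z
    · rw [if_neg h1, if_pos h2, if_pos, zero_add]
      simp only [mem_union]
      tauto
    · rw [if_neg h1, if_neg h2, if_neg, add_zero]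
      simp only [mem_union]
      tauto

theorem P1_union (hY : CS c σ Y) (hZ : CS c σ Z) (hd : Disjoint Y Z) :
    P1 σ (Y ∪ Z) = P1 σ Y + P1 σ Z := by
  unfold P1 pr
  simp only [de_union hY hZ hd]
  exact sum_add_distrib

theorem P2_union (hY : CS c σ Y) (hZ : CS c σ Z) (hd : Disjoint Y Z) :
    P2 σ (Y ∪ Z) = P2 σ Y + P2 σ Z := by
  unfold P2 pc
  simp only [de_union hY hZ hd]
  exact sum_add_distrib

/-- The cup product vanishes on every face. -/
theorem face_zero (hY : CS c σ Y) (hZ : CS c σ Z) (hd : Disjoint Y Z) (x : Site n)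
    (i j : Fin 4) :
    de σ Y x i * de σ Z (x + dr i) j - de σ Y x j * de σ Z (x + dr j) i = 0 := by
  rw [disjoint_left] at hd
  -- a non-vanishing product forces the shape
  have shape : ∀ i j : Fin 4, (x ∈ Y ∨ x + dr i ∈ Y) → (x + dr i ∈ Z ∨ x + dr i + dr j ∈ Z) →
      x ∈ Y ∧ x + dr i + dr j ∈ Z := by
    intro i j h1 h2
    have h3 : x + dr i ∉ Y := by
      intro h3
      rcases h2 with h2 | h2
      · exact hd h3 h2
      · exact hd (hY.2 _ h3 j (hZ.1 _ h2)) h2
    have h4 := h1.resolve_right h3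
    have h5 : x + dr i ∉ Z := by
      intro h5
      exact hd (hY.2 x h4 i (hZ.1 _ h5)) h5
    exact ⟨h4, h2.resolve_left h5⟩
  have comm : ∀ i j : Fin 4, x + dr i + dr j = x + dr j + dr i := fun i j => by abel
  -- the middle sites have the colour `c`
  have mid : ∀ i j : Fin 4, x ∈ Y → x + dr i + dr j ∈ Z → σ (x + dr i) = c := by
    intro i j h1 h2
    by_contra h3
    have h4 := hY.2 x h1 i h3
    exact hd (hY.2 _ h4 j (hZ.1 _ h2)) h2
  by_cases hs : x ∈ Y ∧ x + dr i + dr j ∈ Z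
  · have m1 := mid i j hs.1 hs.2
    have m2 := mid j i hs.1 (by rw [← comm]; exact hs.2)
    unfold de
    rw [if_pos (Or.inl hs.1), if_pos (Or.inr hs.2), if_pos (Or.inl hs.1),
      if_pos (Or.inr (by rw [← comm]; exact hs.2)), m1, m2, comm i j]
    ring
  · have z1 : de σ Y x i * de σ Z (x + dr i) j = 0 := by
      unfold de
      by_cases h1 : x ∈ Y ∨ x + dr i ∈ Y
      · by_cases h2 : x + dr i ∈ Z ∨ x + dr i + dr j ∈ Z
        · exact absurd (shape i j h1 h2) hs
        · rw [if_neg h2, mul_zero]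
      · rw [if_neg h1, zero_mul]
    have z2 : de σ Y x j * de σ Z (x + dr j) i = 0 := by
      unfold de
      by_cases h1 : x ∈ Y ∨ x + dr j ∈ Y
      · by_cases h2 : x + dr j ∈ Z ∨ x + dr j + dr i ∈ Z
        · have h3 := shape j i h1 h2
          rw [comm j i] at h3
          exact absurd h3 hs
        · rw [if_neg h2, mul_zero]
      · rw [if_neg h1, zero_mul]
    rw [z1, z2, sub_self]

/-- disjoint closed sets have parallel periods -/
theorem parallel (h : Pr σ) (hY : CS c σ Y) (hZ : CS c σ Z) (hd : Disjoint Y Z) :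
    P1 σ Y * P2 σ Z = P2 σ Y * P1 σ Z := by
  have h1 := cup (de_closed h hY) (de_closed h hZ)
  have h2 : ∑ x : ZMod n, ∑ y : ZMod n, (de σ Y (x, y) 0 * de σ Z (x + 1, y) 2 -
      de σ Y (x, y) 2 * de σ Z (x, y + 1) 0) = 0 := by
    refine sum_eq_zero fun x _ => sum_eq_zero fun y _ => ?_
    have h3 := face_zero hY hZ hd (x, y) 0 2
    have e1 : (x, y) + (dr 0 : Site n) = (x + 1, y) := by rw [dr0]; simp
    have e2 : (x, y) + (dr 2 : Site n) = (x, y + 1) := by rw [dr2]; simp
    rwa [e1, e2] at h3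
  have h3 : P1 σ Y * P2 σ Z - P2 σ Y * P1 σ Z = 0 := by
    unfold P1 P2
    rw [← h1]
    exact h2
  linarith

end Pool.Agent.WSK
end

section

/-!
Winding numbers can be removed by exchanging two colours on few clusters.
-/

set_option autoImplicit false
set_option linter.unusedSectionVars false

namespace Pool.Agent.WSK

open Finset

variable {n : ℕ} [NeZero n] {σ : Conf n} {c : ZMod 3} {X Y Z K : Finset (Site n)} {y : Site n}

open Classical in
/-- the cluster of `y` -/
noncomputable def hull (c : ZMod 3) (σ : Conf n) (y : Site n) : Finset (Site n) :=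
  univ.filter fun x => ∀ Y : Finset (Site n), CS c σ Y → y ∈ Y → x ∈ Y

theorem mem_hull_iff {x : Site n} :
    x ∈ hull c σ y ↔ ∀ Y : Finset (Site n), CS c σ Y → y ∈ Y → x ∈ Y := by
  unfold hull
  simp

theorem mem_hull : y ∈ hull c σ y := mem_hull_iff.2 fun _ _ h => h

theorem hull_min (hY : CS c σ Y) (hy : y ∈ Y) : hull c σ y ⊆ Y :=
  fun _ hx => mem_hull_iff.1 hx Y hY hy

/-- the sites with a colour different from `c` -/
def top (c : ZMod 3) (σ : Conf n) : Finset (Site n) := univ.filter fun x => σ x ≠ c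

theorem mem_top {x : Site n} : x ∈ top c σ ↔ σ x ≠ c := by
  unfold top
  simp

theorem CS_top : CS c σ (top c σ) :=
  ⟨fun _ hy => mem_top.1 hy, fun _ _ _ h => mem_top.2 h⟩

theorem CS_hull (hy : σ y ≠ c) : CS c σ (hull c σ y) := by
  refine ⟨fun x hx => ?_, fun x hx i hi => ?_⟩
  · exact mem_top.1 (hull_min CS_top (mem_top.2 hy) hx)
  · rw [mem_hull_iff] at hx ⊢
    intro Y hY hyY
    exact hY.2 x (hx Y hY hyY) i hi

theorem CS.sdiff (hY : CS c σ Y) (hZ : CS c σ Z) : CS c σ (Y \ Z) := by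
  refine ⟨fun x hx => hY.1 x (mem_sdiff.1 hx).1, fun x hx i hi => ?_⟩
  rw [mem_sdiff] at hx ⊢
  refine ⟨hY.2 x hx.1 i hi, fun h1 => hx.2 ?_⟩
  have h2 := hZ.2 _ h1 (op i)
  rw [add_op] at h2
  exact h2 (hY.1 x hx.1)

theorem CS.union (hY : CS c σ Y) (hZ : CS c σ Z) : CS c σ (Y ∪ Z) := by
  refine ⟨fun x hx => ?_, fun x hx i hi => ?_⟩
  · rcases mem_union.1 hx with h1 | h1
    · exact hY.1 x h1
    · exact hZ.1 x h1
  · rcases mem_union.1 hx with h1 | h1
    · exact mem_union_left _ (hY.2 x h1 i hi)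
    · exact mem_union_right _ (hZ.2 x h1 i hi)

theorem CS_empty : CS c σ (∅ : Finset (Site n)) :=
  ⟨fun _ h => absurd h (notMem_empty _), fun _ h => absurd h (notMem_empty _)⟩

theorem hull_disj (hy : σ y ≠ c) (hZ : CS c σ Z) (h : y ∉ Z) : Disjoint (hull c σ y) Z := by
  have h1 := hull_min ((CS_hull hy).sdiff hZ) (mem_sdiff.2 ⟨mem_hull, h⟩)
  rw [disjoint_left]
  intro x hx
  exact (mem_sdiff.1 (h1 hx)).2

theorem hull_eq {y' : Site n} (hy : σ y ≠ c) (h : y' ∈ hull c σ y) :
    hull c σ y' = hull c σ y := by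
  have hy' : σ y' ≠ c := (CS_hull hy).1 y' h
  refine subset_antisymm (hull_min (CS_hull hy) h) ?_
  refine hull_min (CS_hull hy') ?_
  by_contra h1
  have h2 := hull_disj hy (CS_hull hy') h1
  rw [disjoint_left] at h2
  exact h2 h mem_hull

/-- the height inside of a cluster -/
def upz (c p : ZMod 3) : ℤ := if p = c - 1 then 1 else 0

theorem upz_dd (p q c : ZMod 3) (h : q ≠ p) (h1 : p ≠ c) (h2 : q ≠ c) :
    upz c q = upz c p + dd p q := by
  revert p q c; decide

theorem upz_c (p c : ZMod 3) (h1 : p ≠ c) :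
    (upz c p = 0 ∧ dd p c = -1) ∨ (upz c p = 1 ∧ dd p c = 1) := by
  revert p c; decide

theorem de_op (h : Pr σ) (Y : Finset (Site n)) (x : Site n) (i : Fin 4) :
    de σ Y (x + dr i) (op i) = -de σ Y x i := by
  unfold de
  rw [add_op]
  by_cases h1 : x ∈ Y ∨ x + dr i ∈ Y
  · rw [if_pos h1, if_pos h1.symm]
    exact dd_neg _ _ (h x i)
  · rw [if_neg h1, if_neg (fun h2 => h1 h2.symm), neg_zero]

/-- from two directions to four -/
theorem four_dirs {R : Type*} [AddCommGroup R] (h : Pr σ) (Y : Finset (Site n))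
    (φ : ℤ →+ R) (H : Site n → R) (h0 : ∀ x, H (x + dr 0) = H x + φ (de σ Y x 0))
    (h2 : ∀ x, H (x + dr 2) = H x + φ (de σ Y x 2)) (x : Site n) (i : Fin 4) :
    H (x + dr i) = H x + φ (de σ Y x i) := by
  have key : ∀ i : Fin 4, (∀ x, H (x + dr i) = H x + φ (de σ Y x i)) →
      ∀ x, H (x + dr (op i)) = H x + φ (de σ Y x (op i)) := by
    intro i hi x
    have h3 := hi (x + dr (op i))
    have h4 := de_op h Y x (op i)
    rw [op_op] at h4
    have h5 := add_op x (op i)
    rw [op_op] at h5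
    rw [h5, h4, map_neg] at h3
    rw [h3]
    abel
  fin_cases i
  · exact h0 x
  · exact key 0 h0 x
  · exact h2 x
  · exact key 2 h2 x

/-- A cluster whose periods vanish modulo `J`, where `J` does not divide `3`, has zero periods. -/
theorem min_zero (h : Pr σ) (hy : σ y ≠ c) {J : ℕ} (hJ : (3 : ZMod J) ≠ 0)
    (h1 : ((P1 σ (hull c σ y) : ℤ) : ZMod J) = 0) (h2 : ((P2 σ (hull c σ y) : ℤ) : ZMod J) = 0) :
    P1 σ (hull c σ y) = 0 ∧ P2 σ (hull c σ y) = 0 := by
  set K := hull c σ y with hKdef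
  have hK : CS c σ K := CS_hull hy
  obtain ⟨H, hH1, hH2⟩ := exact_of (R := ZMod J) (a := fun z => ((de σ K z 0 : ℤ) : ZMod J))
    (b := fun z => ((de σ K z 2 : ℤ) : ZMod J)) (by
      intro a b
      have h3 := de_closed h hK a b
      have h4 := congrArg (fun z : ℤ => (z : ZMod J)) h3
      push_cast at h4
      exact h4) (by
      rw [← h1]
      unfold P1 pr
      push_cast
      rfl) (by
      rw [← h2]
      unfold P2 pc
      push_cast
      rfl)
  have hH : ∀ x i, H (x + dr i) = H x + ((de σ K x i : ℤ) : ZMod J) := by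
    refine fun x i => four_dirs h K (Int.castAddHom (ZMod J)) H (fun x => ?_) (fun x => ?_) x i
    · have h3 := hH1 x.1 x.2
      rw [dr0]
      have e : x + ((1, 0) : Site n) = (x.1 + 1, x.2) := by ext <;> simp
      rw [e]
      exact h3
    · have h3 := hH2 x.1 x.2
      rw [dr2]
      have e : x + ((0, 1) : Site n) = (x.1, x.2 + 1) := by ext <;> simp
      rw [e]
      exact h3
  set h0 : ZMod J := H y - ((upz c (σ y) : ℤ) : ZMod J) with hh0
  -- the values on the cluster
  have hval : ∀ x ∈ K, H x = h0 + ((upz c (σ x) : ℤ) : ZMod J) := by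
    classical
    have hcs : CS c σ (K.filter fun x => H x = h0 + ((upz c (σ x) : ℤ) : ZMod J)) := by
      refine ⟨fun x hx => hK.1 x (mem_filter.1 hx).1, fun x hx i hi => ?_⟩
      rw [mem_filter] at hx ⊢
      have h3 := hK.2 x hx.1 i hi
      refine ⟨h3, ?_⟩
      rw [hH, hx.2, upz_dd (σ x) (σ (x + dr i)) c (h x i) (hK.1 x hx.1) hi]
      have h4 : de σ K x i = dd (σ x) (σ (x + dr i)) := by
        unfold de
        rw [if_pos (Or.inl hx.1)]
      rw [h4]
      push_cast
      ring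
    intro x hx
    have h3 := hull_min hcs (y := y) (by
      rw [mem_filter]
      refine ⟨mem_hull, ?_⟩
      rw [hh0]
      ring)
    exact (mem_filter.1 (h3 hx)).2
  -- the integer height
  set g : Site n → ℤ := fun x => by
    classical
    exact if x ∈ K then upz c (σ x) else if H x = h0 - 1 then -1 else 2 with hg
  have gin : ∀ x ∈ K, g x = upz c (σ x) := fun x hx => if_pos hx
  have gout : ∀ x, x ∉ K → g x = if H x = h0 - 1 then -1 else 2 := fun x hx => if_neg hx
  have key1 : ∀ x ∈ K, ∀ i, g (x + dr i) = g x + de σ K x i := by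
    intro x hx i
    have h4 : de σ K x i = dd (σ x) (σ (x + dr i)) := by
      unfold de
      rw [if_pos (Or.inl hx)]
    rw [gin x hx, h4]
    by_cases hi : x + dr i ∈ K
    · rw [gin _ hi]
      exact upz_dd _ _ _ (h x i) (hK.1 x hx) (hK.1 _ hi)
    · have h5 : σ (x + dr i) = c := by
        by_contra h6
        exact hi (hK.2 x hx i h6)
      rw [gout _ hi, hH, hval x hx, h4, h5]
      rcases upz_c (σ x) c (hK.1 x hx) with ⟨h6, h7⟩ | ⟨h6, h7⟩
      · rw [h6, h7, if_pos (by push_cast; ring)]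
        norm_num
      · rw [h6, h7, if_neg]
        · norm_num
        · intro h8
          apply hJ
          push_cast at h8
          linear_combination h8
  have key2 : ∀ x i, g (x + dr i) = g x + de σ K x i := by
    intro x i
    by_cases hx : x ∈ K
    · exact key1 x hx i
    · by_cases hi : x + dr i ∈ K
      · have h3 := key1 _ hi (op i)
        rw [add_op, de_op h] at h3
        linarith
      · have h4 : de σ K x i = 0 := by
          unfold de
          rw [if_neg]
          tauto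
        have h5 := hH x i
        rw [h4] at h5 ⊢
        simp only [Int.cast_zero, add_zero] at h5
        rw [gout _ hx, gout _ hi, h5, add_zero]
  constructor
  · unfold P1 pr
    have e : ∀ k : ZMod n, de σ K (k, 0) 0 = g (k + 1, 0) - g (k, 0) := by
      intro k
      have h3 := key2 (k, 0) 0
      have e1 : (k, 0) + (dr 0 : Site n) = (k + 1, 0) := by rw [dr0]; simp
      rw [e1] at h3
      linarith
    simp only [e]
    rw [sum_sub_distrib, sum_shift (fun k => g (k, 0)), sub_self]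
  · unfold P2 pc
    have e : ∀ k : ZMod n, de σ K (0, k) 2 = g (0, k + 1) - g (0, k) := by
      intro k
      have h3 := key2 (0, k) 2
      have e1 : (0, k) + (dr 2 : Site n) = (0, k + 1) := by rw [dr2]; simp
      rw [e1] at h3
      linarith
    simp only [e]
    rw [sum_sub_distrib, sum_shift (fun k => g (0, k)), sub_self]

/-- The periods of a cluster vanish or are three times a primitive vector. -/
theorem min_prim (h : Pr σ) (hy : σ y ≠ c) :
    (P1 σ (hull c σ y) = 0 ∧ P2 σ (hull c σ y) = 0) ∨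
      ∃ v1 v2 : ℤ, P1 σ (hull c σ y) = 3 * v1 ∧ P2 σ (hull c σ y) = 3 * v2 ∧
        IsCoprime v1 v2 := by
  obtain ⟨v1, h1⟩ := P1_three h (CS_hull (σ := σ) hy)
  obtain ⟨v2, h2⟩ := P2_three h (CS_hull (σ := σ) hy)
  rcases Nat.lt_trichotomy (Int.gcd v1 v2) 1 with hg | hg | hg
  · left
    have h3 : Int.gcd v1 v2 = 0 := by omega
    rw [Int.gcd_eq_zero_iff] at h3
    rw [h1, h2, h3.1, h3.2]
    simp
  · right
    exact ⟨v1, v2, h1, h2, Int.isCoprime_iff_gcd_eq_one.2 hg⟩
  · left
    set g := Int.gcd v1 v2 with hgdef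
    have d1 : (g : ℤ) ∣ v1 := Int.gcd_dvd_left ..
    have d2 : (g : ℤ) ∣ v2 := Int.gcd_dvd_right ..
    refine min_zero h hy (J := 3 * g) ?_ ?_ ?_
    · intro h3
      have h4 : ((3 : ℕ) : ZMod (3 * g)) = 0 := by
        push_cast
        exact h3
      rw [ZMod.natCast_eq_zero_iff] at h4
      have := Nat.le_of_dvd (by norm_num) h4
      omega
    · rw [ZMod.intCast_zmod_eq_zero_iff_dvd, h1]
      push_cast
      exact mul_dvd_mul_left 3 d1
    · rw [ZMod.intCast_zmod_eq_zero_iff_dvd, h2]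
      push_cast
      exact mul_dvd_mul_left 3 d2

/-- vanishing winding numbers give a height function -/
theorem hgt_of_W (h : Pr σ) (h1 : W1 σ = 0) (h2 : W2 σ = 0) : Hgt σ := by
  classical
  obtain ⟨H, hH1, hH2⟩ := exact_of (dd_closed h) h1 h2
  have htop : ∀ x i, de σ univ x i = dd (σ x) (σ (x + dr i)) := by
    intro x i
    unfold de
    rw [if_pos (Or.inl (mem_univ x))]
  have hH : ∀ x i, H (x + dr i) = H x + dd (σ x) (σ (x + dr i)) := by
    intro x i
    rw [← htop]
    refine four_dirs h univ (AddMonoidHom.id ℤ) H (fun x => ?_) (fun x => ?_) x i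
    · have h3 := hH1 x.1 x.2
      have e : x + (dr 0 : Site n) = (x.1 + 1, x.2) := by rw [dr0]; ext <;> simp
      show H (x + dr 0) = H x + de σ univ x 0
      rw [htop, e, h3]
      rw [← e]
    · have h3 := hH2 x.1 x.2
      have e : x + (dr 2 : Site n) = (x.1, x.2 + 1) := by rw [dr2]; ext <;> simp
      show H (x + dr 2) = H x + de σ univ x 2
      rw [htop, e, h3]
      rw [← e]
  obtain ⟨e, he⟩ := ZMod.intCast_surjective (σ 0 - ((H 0 : ℤ) : ZMod 3))
  refine ⟨fun x => H x + e, fun x => ?_, fun x i => ?_⟩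
  · by_contra hx
    obtain ⟨z, i, hz, hi⟩ := exists_bdry (n := n)
      (X := univ.filter fun x => ((H x + e : ℤ) : ZMod 3) = σ x)
      ⟨0, mem_filter.2 ⟨mem_univ _, by push_cast; rw [he]; ring⟩⟩ (fun h3 => hx (by
        have h4 : x ∈ univ.filter fun x => ((H x + e : ℤ) : ZMod 3) = σ x := by
          rw [h3]
          exact mem_univ x
        exact (mem_filter.1 h4).2))
    rw [mem_filter] at hz hi
    apply hi
    refine ⟨mem_univ _, ?_⟩
    have h3 := hz.2
    rw [hH]
    push_cast at h3 ⊢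
    rw [dd_cast _ _ (h z i), ← h3]
    ring
  · show H (x + dr i) + e = H x + e + 1 ∨ H (x + dr i) + e = H x + e - 1
    rw [hH]
    have h3 : ∀ p q : ZMod 3, dd p q = 1 ∨ dd p q = -1 := by decide
    rcases h3 (σ x) (σ (x + dr i)) with h4 | h4 <;> rw [h4]
    · left; ring
    · right; ring

/-- a discrete intermediate value theorem -/
theorem ivt (t : ℕ → ℤ) (N : ℕ) (h0 : t N = -t 0) (h6 : (6 : ℤ) ∣ t 0)
    (hs : ∀ j < N, t (j + 1) = t j ∨ t (j + 1) = t j + 6 ∨ t (j + 1) = t j - 6) :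
    ∃ j ≤ N, t j = 0 := by
  by_contra hcon
  push Not at hcon
  have hdiv : ∀ j ≤ N, (6 : ℤ) ∣ t j := by
    intro j
    induction j with
    | zero => exact fun _ => h6
    | succ j ih =>
      intro hj
      have h1 := ih (by omega)
      rcases hs j (by omega) with h2 | h2 | h2 <;> rw [h2] <;> omega
  have hsign : ∀ j ≤ N, (0 < t 0 → 0 < t j) ∧ (t 0 < 0 → t j < 0) := by
    intro j
    induction j with
    | zero => exact fun _ => ⟨id, id⟩
    | succ j ih =>
      intro hj
      have h1 := ih (by omega)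
      have h2 := hdiv j (by omega)
      have h3 := hcon (j + 1) hj
      have h4 := hcon j (by omega)
      rcases hs j (by omega) with h5 | h5 | h5
      · rw [h5]
        exact h1
      · constructor
        · intro h6
          have := h1.1 h6
          omega
        · intro h6
          have := h1.2 h6
          omega
      · constructor
        · intro h6
          have := h1.1 h6
          omega
        · intro h6
          have := h1.2 h6
          omega
  have h1 := hcon 0 (Nat.zero_le _)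
  have h2 := hsign N le_rfl
  omega

/-- the sites of the first row and of the first column -/
def ys (n : ℕ) (i : ℕ) : Site n := if i < n then ((i : ZMod n), 0) else (0, ((i - n : ℕ) : ZMod n))

open Classical in
/-- the union of the clusters of the first sites -/
noncomputable def Sj (c : ZMod 3) (σ : Conf n) : ℕ → Finset (Site n)
  | 0 => ∅
  | j + 1 => if σ (ys n j) = c ∨ ys n j ∈ Sj c σ j then Sj c σ j
      else Sj c σ j ∪ hull c σ (ys n j)

theorem Sj_CS (c : ZMod 3) (σ : Conf n) (j : ℕ) : CS c σ (Sj c σ j) := by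
  induction j with
  | zero => exact CS_empty
  | succ j ih =>
    rw [Sj]
    split_ifs with h
    · exact ih
    · push Not at h
      exact ih.union (CS_hull h.1)

theorem Sj_mono (c : ZMod 3) (σ : Conf n) {i j : ℕ} (hij : i ≤ j) : Sj c σ i ⊆ Sj c σ j := by
  induction j, hij using Nat.le_induction with
  | base => exact subset_rfl
  | succ j hij ih =>
    refine ih.trans ?_
    rw [Sj]
    split_ifs with h
    · exact subset_rfl
    · exact subset_union_left

theorem mem_Sj {i j : ℕ} (hij : i < j) (h : σ (ys n i) ≠ c) : ys n i ∈ Sj c σ j := by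
  refine Sj_mono c σ (Nat.succ_le_of_lt hij) ?_
  show ys n i ∈ Sj c σ (i + 1)
  rw [Sj]
  split_ifs with h1
  · exact h1.resolve_left h
  · exact mem_union_right _ mem_hull

theorem hull_congr {σ' : Conf n} (h : ∀ x, σ' x = c ↔ σ x = c) (y : Site n) :
    hull c σ' y = hull c σ y := by
  ext x
  rw [mem_hull_iff, mem_hull_iff]
  simp only [CS_congr h]

theorem Sj_congr {σ' : Conf n} (h : ∀ x, σ' x = c ↔ σ x = c) (j : ℕ) :
    Sj c σ' j = Sj c σ j := by
  induction j with
  | zero => rfl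
  | succ j ih =>
    rw [Sj, Sj, ih, hull_congr h]
    simp only [h]

/-- what is left does not touch the first row and the first column -/
theorem rest_zero (c : ZMod 3) (σ : Conf n) :
    P1 σ (top c σ \ Sj c σ (2 * n)) = 0 ∧ P2 σ (top c σ \ Sj c σ (2 * n)) = 0 := by
  have hrow : ∀ k : ZMod n, ((k, 0) : Site n) ∉ top c σ \ Sj c σ (2 * n) := by
    intro k hk
    rw [mem_sdiff, mem_top] at hk
    have h1 : ys n k.val = (k, 0) := by
      unfold ys
      rw [if_pos (ZMod.val_lt k), ZMod.natCast_zmod_val]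
    have h2 := mem_Sj (σ := σ) (c := c) (i := k.val) (j := 2 * n)
      (by have := ZMod.val_lt k; omega) (by rw [h1]; exact hk.1)
    rw [h1] at h2
    exact hk.2 h2
  have hcol : ∀ k : ZMod n, ((0, k) : Site n) ∉ top c σ \ Sj c σ (2 * n) := by
    intro k hk
    rw [mem_sdiff, mem_top] at hk
    have h1 : ys n (n + k.val) = (0, k) := by
      unfold ys
      rw [if_neg (by omega), Nat.add_sub_cancel_left, ZMod.natCast_zmod_val]
    have h2 := mem_Sj (σ := σ) (c := c) (i := n + k.val) (j := 2 * n)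
      (by have := ZMod.val_lt k; omega) (by rw [h1]; exact hk.1)
    rw [h1] at h2
    exact hk.2 h2
  constructor
  · unfold P1 pr
    refine sum_eq_zero fun k _ => ?_
    show de σ _ (k, 0) 0 = 0
    unfold de
    rw [if_neg]
    rw [not_or]
    refine ⟨hrow k, ?_⟩
    have e1 : (k, 0) + (dr 0 : Site n) = (k + 1, 0) := by rw [dr0]; simp
    rw [e1]
    exact hrow _
  · unfold P2 pc
    refine sum_eq_zero fun k _ => ?_
    show de σ _ (0, k) 2 = 0
    unfold de
    rw [if_neg]
    rw [not_or]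
    refine ⟨hcol k, ?_⟩
    have e1 : (0, k) + (dr 2 : Site n) = (0, k + 1) := by rw [dr2]; simp
    rw [e1]
    exact hcol _

theorem W1_top (h : Pr σ) (c : ZMod 3) : W1 σ = P1 σ (top c σ) := by
  unfold W1 P1 pr
  refine sum_congr rfl fun k _ => ?_
  show _ = de σ (top c σ) _ _
  unfold de
  rw [if_pos]
  rw [mem_top, mem_top]
  by_contra h1
  push Not at h1
  have h2 := h (k, 0) 0
  rw [h1.1, h1.2] at h2
  exact h2 rfl

theorem W2_top (h : Pr σ) (c : ZMod 3) : W2 σ = P2 σ (top c σ) := by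
  unfold W2 P2 pc
  refine sum_congr rfl fun k _ => ?_
  show _ = de σ (top c σ) _ _
  unfold de
  rw [if_pos]
  rw [mem_top, mem_top]
  by_contra h1
  push Not at h1
  have h2 := h (0, k) 2
  rw [h1.1, h1.2] at h2
  exact h2 rfl

theorem P1_empty (σ : Conf n) : P1 σ ∅ = 0 := by
  unfold P1 pr
  refine sum_eq_zero fun k _ => ?_
  show de σ ∅ (k, 0) 0 = 0
  unfold de
  rw [if_neg (by simp)]

theorem P2_empty (σ : Conf n) : P2 σ ∅ = 0 := by
  unfold P2 pc
  refine sum_eq_zero fun k _ => ?_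
  show de σ ∅ (0, k) 2 = 0
  unfold de
  rw [if_neg (by simp)]

theorem P_split (hY : CS c σ Y) (hZ : CS c σ Z) (hs : Z ⊆ Y) :
    P1 σ Y = P1 σ Z + P1 σ (Y \ Z) ∧ P2 σ Y = P2 σ Z + P2 σ (Y \ Z) := by
  have h1 : Disjoint Z (Y \ Z) := disjoint_sdiff
  have h2 : Z ∪ (Y \ Z) = Y := union_sdiff_of_subset hs
  have h3 := P1_union hZ (hY.sdiff hZ) h1
  have h4 := P2_union hZ (hY.sdiff hZ) h1
  rw [h2] at h3 h4
  exact ⟨h3, h4⟩

/-- parallel vectors -/
theorem par_aux (v1 v2 r s a b : ℤ) (h : r * v1 + s * v2 = 1) (hp : a * v2 = b * v1) :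
    a = (r * a + s * b) * v1 ∧ b = (r * a + s * b) * v2 := by
  constructor
  · linear_combination (-a) * h + s * hp
  · linear_combination (-b) * h - r * hp

theorem exists_j (hn : Even n) (h : Pr σ) (c : ZMod 3) :
    ∃ j ≤ 2 * n, Hgt (fl c (Sj c σ j) σ) := by
  have hW1 := W1_top h c
  have hW2 := W2_top h c
  have hsub : ∀ j, Sj c σ j ⊆ top c σ := fun j x hx => mem_top.2 ((Sj_CS c σ j).1 x hx)
  have hsplit := P_split (CS_top (c := c) (σ := σ)) (Sj_CS c σ (2 * n)) (hsub _)
  have hrest := rest_zero c σ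
  rw [hrest.1, hrest.2, add_zero, add_zero] at hsplit
  by_cases hex : ∃ i, σ (ys n i) ≠ c ∧
      ¬ (P1 σ (hull c σ (ys n i)) = 0 ∧ P2 σ (hull c σ (ys n i)) = 0)
  · -- there is a cluster with a non-zero period
    obtain ⟨i, hi, hne⟩ := hex
    set y0 := ys n i with hy0
    obtain ⟨v1, v2, hv1, hv2, r, s, hrs⟩ := (min_prim h hi).resolve_left hne
    set T : Finset (Site n) → ℤ := fun Y => r * P1 σ Y + s * P2 σ Y with hT
    -- disjoint closed sets
    have hpar : ∀ Y, CS c σ Y → Disjoint Y (hull c σ y0) →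
        P1 σ Y = T Y * v1 ∧ P2 σ Y = T Y * v2 := by
      intro Y hY hd
      have h1 := parallel h hY (CS_hull hi) hd
      rw [hv1, hv2] at h1
      exact par_aux v1 v2 r s _ _ hrs (by linarith)
    -- clusters
    have hclu : ∀ y, σ y ≠ c → (P1 σ (hull c σ y) = T (hull c σ y) * v1 ∧
        P2 σ (hull c σ y) = T (hull c σ y) * v2) ∧
        (T (hull c σ y) = 0 ∨ T (hull c σ y) = 3 ∨ T (hull c σ y) = -3) := by
      intro y hy
      by_cases hm : y ∈ hull c σ y0
      · have e : hull c σ y = hull c σ y0 := hull_eq hi hm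
        have hT3 : T (hull c σ y0) = 3 := by
          show r * P1 σ (hull c σ y0) + s * P2 σ (hull c σ y0) = 3
          rw [hv1, hv2]
          linear_combination 3 * hrs
        rw [e, hT3]
        exact ⟨⟨hv1, hv2⟩, Or.inr (Or.inl rfl)⟩
      · have hd := hull_disj hy (CS_hull hi) hm
        have h1 := hpar _ (CS_hull hy) hd
        refine ⟨h1, ?_⟩
        rcases min_prim h hy with h2 | ⟨u1, u2, hu1, hu2, hcop⟩
        · left
          show r * P1 σ (hull c σ y) + s * P2 σ (hull c σ y) = 0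
          rw [h2.1, h2.2]
          ring
        · right
          have e1 : T (hull c σ y) = 3 * (r * u1 + s * u2) := by
            show r * P1 σ (hull c σ y) + s * P2 σ (hull c σ y) = _
            rw [hu1, hu2]
            ring
          have e2 : u1 = (r * u1 + s * u2) * v1 := by
            have := h1.1
            rw [hu1, e1] at this
            linarith
          have e3 : u2 = (r * u1 + s * u2) * v2 := by
            have := h1.2
            rw [hu2, e1] at this
            linarith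
          have e4 : IsUnit (r * u1 + s * u2) :=
            hcop.isUnit_of_dvd' ⟨v1, e2⟩ ⟨v2, e3⟩
          rw [Int.isUnit_iff] at e4
          rw [e1]
          rcases e4 with e4 | e4 <;> rw [e4]
          · left; norm_num
          · right; norm_num
    -- additivity of `T`
    have hTadd : ∀ Y Z, CS c σ Y → CS c σ Z → Disjoint Y Z → T (Y ∪ Z) = T Y + T Z := by
      intro Y Z hY hZ hd
      show r * P1 σ (Y ∪ Z) + s * P2 σ (Y ∪ Z) =
        r * P1 σ Y + s * P2 σ Y + (r * P1 σ Z + s * P2 σ Z)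
      rw [P1_union hY hZ hd, P2_union hY hZ hd]
      ring
    have hT0 : T ∅ = 0 := by
      show r * P1 σ ∅ + s * P2 σ ∅ = 0
      rw [P1_empty, P2_empty]
      ring
    -- the sets `Sj`
    have hSpar : ∀ j, P1 σ (Sj c σ j) = T (Sj c σ j) * v1 ∧ P2 σ (Sj c σ j) = T (Sj c σ j) * v2 := by
      intro j
      induction j with
      | zero =>
        show P1 σ ∅ = T ∅ * v1 ∧ P2 σ ∅ = T ∅ * v2
        rw [hT0, P1_empty, P2_empty]
        simp
      | succ j ih =>
        rw [Sj]
        split_ifs with h1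
        · exact ih
        · push Not at h1
          have hd := (hull_disj h1.1 (Sj_CS c σ j) h1.2).symm
          rw [hTadd _ _ (Sj_CS c σ j) (CS_hull h1.1) hd,
            P1_union (Sj_CS c σ j) (CS_hull h1.1) hd, P2_union (Sj_CS c σ j) (CS_hull h1.1) hd]
          have h2 := (hclu _ h1.1).1
          constructor
          · linear_combination ih.1 + h2.1
          · linear_combination ih.2 + h2.2
    have hstep : ∀ j, T (Sj c σ (j + 1)) = T (Sj c σ j) ∨ T (Sj c σ (j + 1)) = T (Sj c σ j) + 3 ∨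
        T (Sj c σ (j + 1)) = T (Sj c σ j) - 3 := by
      intro j
      rw [Sj]
      split_ifs with h1
      · exact Or.inl rfl
      · push Not at h1
        have hd := (hull_disj h1.1 (Sj_CS c σ j) h1.2).symm
        rw [hTadd _ _ (Sj_CS c σ j) (CS_hull h1.1) hd]
        rcases (hclu _ h1.1).2 with h2 | h2 | h2 <;> rw [h2]
        · left; ring
        · right; left; ring
        · right; right; ring
    -- the whole set
    have htop : T (top c σ) = T (Sj c σ (2 * n)) := by
      show r * P1 σ (top c σ) + s * P2 σ (top c σ) =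
        r * P1 σ (Sj c σ (2 * n)) + s * P2 σ (Sj c σ (2 * n))
      rw [hsplit.1, hsplit.2]
    have hWv1 : W1 σ = T (top c σ) * v1 := by rw [hW1, hsplit.1, htop, (hSpar _).1]
    have hWv2 : W2 σ = T (top c σ) * v2 := by rw [hW2, hsplit.2, htop, (hSpar _).2]
    have h6 : (6 : ℤ) ∣ T (top c σ) := by
      have e1 : T (top c σ) = r * W1 σ + s * W2 σ := by
        show r * P1 σ (top c σ) + s * P2 σ (top c σ) = _
        rw [hW1, hW2]
      have d2 : (2 : ℤ) ∣ T (top c σ) := by
        rw [e1]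
        exact dvd_add (Dvd.dvd.mul_left (W1_even hn σ).two_dvd _)
          (Dvd.dvd.mul_left (W2_even hn σ).two_dvd _)
      have d3 : (3 : ℤ) ∣ T (top c σ) := by
        refine dvd_add (Dvd.dvd.mul_left (P1_three h CS_top) _)
          (Dvd.dvd.mul_left (P2_three h CS_top) _)
      omega
    obtain ⟨j, hj, hj0⟩ := ivt (fun j => T (top c σ) - 2 * T (Sj c σ j)) (2 * n)
      (by
        show T (top c σ) - 2 * T (Sj c σ (2 * n)) = -(T (top c σ) - 2 * T (Sj c σ 0))
        rw [← htop]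
        show T (top c σ) - 2 * T (top c σ) = -(T (top c σ) - 2 * T ∅)
        rw [hT0]
        ring)
      (by
        show (6 : ℤ) ∣ T (top c σ) - 2 * T ∅
        rw [hT0, mul_zero, sub_zero]
        exact h6)
      (fun j _ => by
        show T (top c σ) - 2 * T (Sj c σ (j + 1)) = T (top c σ) - 2 * T (Sj c σ j) ∨
          T (top c σ) - 2 * T (Sj c σ (j + 1)) = T (top c σ) - 2 * T (Sj c σ j) + 6 ∨
          T (top c σ) - 2 * T (Sj c σ (j + 1)) = T (top c σ) - 2 * T (Sj c σ j) - 6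
        rcases hstep j with h1 | h1 | h1 <;> rw [h1]
        · left; ring
        · right; right; ring
        · right; left; ring)
    refine ⟨j, hj, hgt_of_W ((Sj_CS c σ j).fl_pr h) ?_ ?_⟩
    · have hj0' : T (top c σ) - 2 * T (Sj c σ j) = 0 := hj0
      rw [W1_fl h (Sj_CS c σ j), hWv1, (hSpar j).1]
      linear_combination v1 * hj0'
    · have hj0' : T (top c σ) - 2 * T (Sj c σ j) = 0 := hj0
      rw [W2_fl h (Sj_CS c σ j), hWv2, (hSpar j).2]
      linear_combination v2 * hj0'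
  · -- all periods vanish
    push Not at hex
    have hz : ∀ j, P1 σ (Sj c σ j) = 0 ∧ P2 σ (Sj c σ j) = 0 := by
      intro j
      induction j with
      | zero => exact ⟨P1_empty σ, P2_empty σ⟩
      | succ j ih =>
        rw [Sj]
        split_ifs with h1
        · exact ih
        · push Not at h1
          have hd := (hull_disj h1.1 (Sj_CS c σ j) h1.2).symm
          have h2 := hex j h1.1
          rw [P1_union (Sj_CS c σ j) (CS_hull h1.1) hd, P2_union (Sj_CS c σ j) (CS_hull h1.1) hd,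
            ih.1, ih.2, h2.1, h2.2]
          simp
    refine ⟨0, Nat.zero_le _, ?_⟩
    have e : fl c (Sj c σ 0) σ = σ := by
      funext x
      show (if x ∈ (∅ : Finset (Site n)) then _ else σ x) = σ x
      rw [if_neg (notMem_empty x)]
    rw [e]
    refine hgt_of_W h ?_ ?_
    · rw [hW1, hsplit.1, (hz _).1]
    · rw [hW2, hsplit.2, (hz _).2]

end Pool.Agent.WSK
end
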