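import Mathlib

section

/-!
The influence of one neighbour on the law of the colour of a site.
-/

set_option autoImplicit false

namespace Pool.Agent.WSK.Ht

open Finset

private theorem poly_003 (y : ℝ) (h1 : 0 ≤ y) (h2 : y ≤ 1) :
    (1 + y + y ^ 3) * (y ^ 0 * ((1 + y) * y ^ 0 + y ^ 3)) ≤
      (y * y ^ 0 + y ^ 0 + y ^ 3) * (y ^ 0 + y * y ^ 0 + y ^ 3) := by
  apply le_of_eq
  ring

private theorem poly_012 (y : ℝ) (h1 : 0 ≤ y) (h2 : y ≤ 1) :
    (1 + y + y ^ 3) * (y ^ 0 * ((1 + y) * y ^ 1 + y ^ 2)) ≤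
      (y * y ^ 0 + y ^ 1 + y ^ 2) * (y ^ 0 + y * y ^ 1 + y ^ 2) := by
  have hs : 0 ≤ 1 - y := by linarith
  have key : (y * y ^ 0 + y ^ 1 + y ^ 2) * (y ^ 0 + y * y ^ 1 + y ^ 2) -
      (1 + y + y ^ 3) * (y ^ 0 * ((1 + y) * y ^ 1 + y ^ 2)) =
      (1/1 * y ^ 1 * (1 - y) ^ 4) +
      (2/1 * y ^ 2 * (1 - y) ^ 3) +
      (2/1 * y ^ 3 * (1 - y) ^ 2) +
      (3/1 * y ^ 4 * (1 - y) ^ 1) := by ring
  have h3 : 0 ≤ (1/1 * y ^ 1 * (1 - y) ^ 4) +
      (2/1 * y ^ 2 * (1 - y) ^ 3) +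
      (2/1 * y ^ 3 * (1 - y) ^ 2) +
      (3/1 * y ^ 4 * (1 - y) ^ 1) := by positivity
  rw [← key] at h3
  linarith

private theorem poly_021 (y : ℝ) (h1 : 0 ≤ y) (h2 : y ≤ 1) :
    (1 + y + y ^ 3) * (y ^ 0 * ((1 + y) * y ^ 2 + y ^ 1)) ≤
      (y * y ^ 0 + y ^ 2 + y ^ 1) * (y ^ 0 + y * y ^ 2 + y ^ 1) := by
  have hs : 0 ≤ 1 - y := by linarith
  have key : (y * y ^ 0 + y ^ 2 + y ^ 1) * (y ^ 0 + y * y ^ 2 + y ^ 1) -
      (1 + y + y ^ 3) * (y ^ 0 * ((1 + y) * y ^ 2 + y ^ 1)) =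
      (1/1 * y ^ 1 * (1 - y) ^ 5) +
      (6/1 * y ^ 2 * (1 - y) ^ 4) +
      (13/1 * y ^ 3 * (1 - y) ^ 3) +
      (13/1 * y ^ 4 * (1 - y) ^ 2) +
      (6/1 * y ^ 5 * (1 - y) ^ 1) := by ring
  have h3 : 0 ≤ (1/1 * y ^ 1 * (1 - y) ^ 5) +
      (6/1 * y ^ 2 * (1 - y) ^ 4) +
      (13/1 * y ^ 3 * (1 - y) ^ 3) +
      (13/1 * y ^ 4 * (1 - y) ^ 2) +
      (6/1 * y ^ 5 * (1 - y) ^ 1) := by positivity
  rw [← key] at h3
  linarith

private theorem poly_030 (y : ℝ) (h1 : 0 ≤ y) (h2 : y ≤ 1) :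
    (1 + y + y ^ 3) * (y ^ 0 * ((1 + y) * y ^ 3 + y ^ 0)) ≤
      (y * y ^ 0 + y ^ 3 + y ^ 0) * (y ^ 0 + y * y ^ 3 + y ^ 0) := by
  have hs : 0 ≤ 1 - y := by linarith
  have key : (y * y ^ 0 + y ^ 3 + y ^ 0) * (y ^ 0 + y * y ^ 3 + y ^ 0) -
      (1 + y + y ^ 3) * (y ^ 0 * ((1 + y) * y ^ 3 + y ^ 0)) =
      (1/1 * y ^ 0 * (1 - y) ^ 6) +
      (7/1 * y ^ 1 * (1 - y) ^ 5) +
      (20/1 * y ^ 2 * (1 - y) ^ 4) +
      (30/1 * y ^ 3 * (1 - y) ^ 3) +
      (24/1 * y ^ 4 * (1 - y) ^ 2) +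
      (9/1 * y ^ 5 * (1 - y) ^ 1) := by ring
  have h3 : 0 ≤ (1/1 * y ^ 0 * (1 - y) ^ 6) +
      (7/1 * y ^ 1 * (1 - y) ^ 5) +
      (20/1 * y ^ 2 * (1 - y) ^ 4) +
      (30/1 * y ^ 3 * (1 - y) ^ 3) +
      (24/1 * y ^ 4 * (1 - y) ^ 2) +
      (9/1 * y ^ 5 * (1 - y) ^ 1) := by positivity
  rw [← key] at h3
  linarith

private theorem poly_102 (y : ℝ) (h1 : 0 ≤ y) (h2 : y ≤ 1) :
    (1 + y + y ^ 3) * (y ^ 1 * ((1 + y) * y ^ 0 + y ^ 2)) ≤
      (y * y ^ 1 + y ^ 0 + y ^ 2) * (y ^ 1 + y * y ^ 0 + y ^ 2) := by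
  have hs : 0 ≤ 1 - y := by linarith
  have key : (y * y ^ 1 + y ^ 0 + y ^ 2) * (y ^ 1 + y * y ^ 0 + y ^ 2) -
      (1 + y + y ^ 3) * (y ^ 1 * ((1 + y) * y ^ 0 + y ^ 2)) =
      (1/1 * y ^ 1 * (1 - y) ^ 5) +
      (4/1 * y ^ 2 * (1 - y) ^ 4) +
      (8/1 * y ^ 3 * (1 - y) ^ 3) +
      (10/1 * y ^ 4 * (1 - y) ^ 2) +
      (6/1 * y ^ 5 * (1 - y) ^ 1) := by ring
  have h3 : 0 ≤ (1/1 * y ^ 1 * (1 - y) ^ 5) +
      (4/1 * y ^ 2 * (1 - y) ^ 4) +
      (8/1 * y ^ 3 * (1 - y) ^ 3) +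
      (10/1 * y ^ 4 * (1 - y) ^ 2) +
      (6/1 * y ^ 5 * (1 - y) ^ 1) := by positivity
  rw [← key] at h3
  linarith

private theorem poly_111 (y : ℝ) (h1 : 0 ≤ y) (h2 : y ≤ 1) :
    (1 + y + y ^ 3) * (y ^ 1 * ((1 + y) * y ^ 1 + y ^ 1)) ≤
      (y * y ^ 1 + y ^ 1 + y ^ 1) * (y ^ 1 + y * y ^ 1 + y ^ 1) := by
  have hs : 0 ≤ 1 - y := by linarith
  have key : (y * y ^ 1 + y ^ 1 + y ^ 1) * (y ^ 1 + y * y ^ 1 + y ^ 1) -
      (1 + y + y ^ 3) * (y ^ 1 * ((1 + y) * y ^ 1 + y ^ 1)) =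
      (2/1 * y ^ 2 * (1 - y) ^ 4) +
      (9/1 * y ^ 3 * (1 - y) ^ 3) +
      (15/1 * y ^ 4 * (1 - y) ^ 2) +
      (9/1 * y ^ 5 * (1 - y) ^ 1) := by ring
  have h3 : 0 ≤ (2/1 * y ^ 2 * (1 - y) ^ 4) +
      (9/1 * y ^ 3 * (1 - y) ^ 3) +
      (15/1 * y ^ 4 * (1 - y) ^ 2) +
      (9/1 * y ^ 5 * (1 - y) ^ 1) := by positivity
  rw [← key] at h3
  linarith

private theorem poly_120 (y : ℝ) (h1 : 0 ≤ y) (h2 : y ≤ 1) :
    (1 + y + y ^ 3) * (y ^ 1 * ((1 + y) * y ^ 2 + y ^ 0)) ≤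
      (y * y ^ 1 + y ^ 2 + y ^ 0) * (y ^ 1 + y * y ^ 2 + y ^ 0) := by
  have hs : 0 ≤ 1 - y := by linarith
  have key : (y * y ^ 1 + y ^ 2 + y ^ 0) * (y ^ 1 + y * y ^ 2 + y ^ 0) -
      (1 + y + y ^ 3) * (y ^ 1 * ((1 + y) * y ^ 2 + y ^ 0)) =
      (1/1 * y ^ 0 * (1 - y) ^ 7) +
      (7/1 * y ^ 1 * (1 - y) ^ 6) +
      (22/1 * y ^ 2 * (1 - y) ^ 5) +
      (42/1 * y ^ 3 * (1 - y) ^ 4) +
      (50/1 * y ^ 4 * (1 - y) ^ 3) +
      (35/1 * y ^ 5 * (1 - y) ^ 2) +
      (12/1 * y ^ 6 * (1 - y) ^ 1) := by ring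
  have h3 : 0 ≤ (1/1 * y ^ 0 * (1 - y) ^ 7) +
      (7/1 * y ^ 1 * (1 - y) ^ 6) +
      (22/1 * y ^ 2 * (1 - y) ^ 5) +
      (42/1 * y ^ 3 * (1 - y) ^ 4) +
      (50/1 * y ^ 4 * (1 - y) ^ 3) +
      (35/1 * y ^ 5 * (1 - y) ^ 2) +
      (12/1 * y ^ 6 * (1 - y) ^ 1) := by positivity
  rw [← key] at h3
  linarith

private theorem poly_201 (y : ℝ) (h1 : 0 ≤ y) (h2 : y ≤ 1) :
    (1 + y + y ^ 3) * (y ^ 2 * ((1 + y) * y ^ 0 + y ^ 1)) ≤
      (y * y ^ 2 + y ^ 0 + y ^ 1) * (y ^ 2 + y * y ^ 0 + y ^ 1) := by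
  have hs : 0 ≤ 1 - y := by linarith
  have key : (y * y ^ 2 + y ^ 0 + y ^ 1) * (y ^ 2 + y * y ^ 0 + y ^ 1) -
      (1 + y + y ^ 3) * (y ^ 2 * ((1 + y) * y ^ 0 + y ^ 1)) =
      (2/1 * y ^ 1 * (1 - y) ^ 5) +
      (12/1 * y ^ 2 * (1 - y) ^ 4) +
      (26/1 * y ^ 3 * (1 - y) ^ 3) +
      (26/1 * y ^ 4 * (1 - y) ^ 2) +
      (12/1 * y ^ 5 * (1 - y) ^ 1) := by ring
  have h3 : 0 ≤ (2/1 * y ^ 1 * (1 - y) ^ 5) +
      (12/1 * y ^ 2 * (1 - y) ^ 4) +
      (26/1 * y ^ 3 * (1 - y) ^ 3) +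
      (26/1 * y ^ 4 * (1 - y) ^ 2) +
      (12/1 * y ^ 5 * (1 - y) ^ 1) := by positivity
  rw [← key] at h3
  linarith

private theorem poly_210 (y : ℝ) (h1 : 0 ≤ y) (h2 : y ≤ 1) :
    (1 + y + y ^ 3) * (y ^ 2 * ((1 + y) * y ^ 1 + y ^ 0)) ≤
      (y * y ^ 2 + y ^ 1 + y ^ 0) * (y ^ 2 + y * y ^ 1 + y ^ 0) := by
  have hs : 0 ≤ 1 - y := by linarith
  have key : (y * y ^ 2 + y ^ 1 + y ^ 0) * (y ^ 2 + y * y ^ 1 + y ^ 0) -
      (1 + y + y ^ 3) * (y ^ 2 * ((1 + y) * y ^ 1 + y ^ 0)) =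
      (1/1 * y ^ 0 * (1 - y) ^ 7) +
      (8/1 * y ^ 1 * (1 - y) ^ 6) +
      (28/1 * y ^ 2 * (1 - y) ^ 5) +
      (56/1 * y ^ 3 * (1 - y) ^ 4) +
      (67/1 * y ^ 4 * (1 - y) ^ 3) +
      (46/1 * y ^ 5 * (1 - y) ^ 2) +
      (15/1 * y ^ 6 * (1 - y) ^ 1) := by ring
  have h3 : 0 ≤ (1/1 * y ^ 0 * (1 - y) ^ 7) +
      (8/1 * y ^ 1 * (1 - y) ^ 6) +
      (28/1 * y ^ 2 * (1 - y) ^ 5) +
      (56/1 * y ^ 3 * (1 - y) ^ 4) +
      (67/1 * y ^ 4 * (1 - y) ^ 3) +
      (46/1 * y ^ 5 * (1 - y) ^ 2) +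
      (15/1 * y ^ 6 * (1 - y) ^ 1) := by positivity
  rw [← key] at h3
  linarith

private theorem poly_300 (y : ℝ) (h1 : 0 ≤ y) (h2 : y ≤ 1) :
    (1 + y + y ^ 3) * (y ^ 3 * ((1 + y) * y ^ 0 + y ^ 0)) ≤
      (y * y ^ 3 + y ^ 0 + y ^ 0) * (y ^ 3 + y * y ^ 0 + y ^ 0) := by
  have hs : 0 ≤ 1 - y := by linarith
  have key : (y * y ^ 3 + y ^ 0 + y ^ 0) * (y ^ 3 + y * y ^ 0 + y ^ 0) -
      (1 + y + y ^ 3) * (y ^ 3 * ((1 + y) * y ^ 0 + y ^ 0)) =
      (2/1 * y ^ 0 * (1 - y) ^ 6) +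
      (14/1 * y ^ 1 * (1 - y) ^ 5) +
      (40/1 * y ^ 2 * (1 - y) ^ 4) +
      (60/1 * y ^ 3 * (1 - y) ^ 3) +
      (48/1 * y ^ 4 * (1 - y) ^ 2) +
      (18/1 * y ^ 5 * (1 - y) ^ 1) := by ring
  have h3 : 0 ≤ (2/1 * y ^ 0 * (1 - y) ^ 6) +
      (14/1 * y ^ 1 * (1 - y) ^ 5) +
      (40/1 * y ^ 2 * (1 - y) ^ 4) +
      (60/1 * y ^ 3 * (1 - y) ^ 3) +
      (48/1 * y ^ 4 * (1 - y) ^ 2) +
      (18/1 * y ^ 5 * (1 - y) ^ 1) := by positivity
  rw [← key] at h3
  linarith

theorem poly (y : ℝ) (h1 : 0 ≤ y) (h2 : y ≤ 1) (i j k : ℕ) (h : i + j + k = 3) :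
    (1 + y + y ^ 3) * (y ^ i * ((1 + y) * y ^ j + y ^ k)) ≤
      (y * y ^ i + y ^ j + y ^ k) * (y ^ i + y * y ^ j + y ^ k) := by
  have hi : i ≤ 3 := by omega
  have hj : j ≤ 3 := by omega
  obtain rfl : k = 3 - i - j := by omega
  interval_cases i <;> interval_cases j <;> first | (exfalso; omega) | skip

  · exact poly_003 y h1 h2

  · exact poly_012 y h1 h2

  · exact poly_021 y h1 h2

  · exact poly_030 y h1 h2

  · exact poly_102 y h1 h2

  · exact poly_111 y h1 h2

  · exact poly_120 y h1 h2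

  · exact poly_201 y h1 h2

  · exact poly_210 y h1 h2

  · exact poly_300 y h1 h2


/-- the influence of one neighbour -/
noncomputable def inf (p : ℝ) : ℝ := p / (1 + (1 - p) + (1 - p) ^ 3)

theorem inf_nonneg {p : ℝ} (h0 : 0 ≤ p) (h1 : p < 1) : 0 ≤ inf p := by
  unfold inf
  have : 0 < 1 - p := by linarith
  positivity

/-- the difference of two laws that differ by one neighbour -/
theorem two_laws {y A B C ga gb gc D : ℝ} (hy0 : 0 < y) (hy1 : y ≤ 1) (hA : 0 < A) (hB : 0 < B)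
    (hC : 0 < C)
    (hu : (1 + y + y ^ 3) * (A * ((1 + y) * B + C)) ≤ (y * A + B + C) * (A + y * B + C))
    (hv : (1 + y + y ^ 3) * (B * ((1 + y) * A + C)) ≤ (y * A + B + C) * (A + y * B + C))
    (h1 : |ga - gb| ≤ D) (h2 : |ga - gc| ≤ D) (h3 : |gb - gc| ≤ D) :
    |(y * A * ga + B * gb + C * gc) / (y * A + B + C) -
      (A * ga + y * B * gb + C * gc) / (A + y * B + C)| ≤ (1 - y) / (1 + y + y ^ 3) * D := by
  have hZ1 : 0 < y * A + B + C := by positivity
  have hZ2 : 0 < A + y * B + C := by positivity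
  have hD : 0 ≤ D := (abs_nonneg _).trans h1
  have hK : 0 < 1 + y + y ^ 3 := by positivity
  rw [div_sub_div _ _ hZ1.ne' hZ2.ne', abs_div, abs_of_pos (mul_pos hZ1 hZ2),
    div_le_iff₀ (mul_pos hZ1 hZ2)]
  set u := A * ((1 + y) * B + C) with hud
  set v := B * ((1 + y) * A + C) with hvd
  have hu0 : 0 ≤ u := by positivity
  have hv0 : 0 ≤ v := by positivity
  have hy' : 0 ≤ 1 - y := by linarith
  have e1 : (y * A * ga + B * gb + C * gc) * (A + y * B + C) -
      (y * A + B + C) * (A * ga + y * B * gb + C * gc) =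
      (1 - y) * (u * (gc - ga) - v * (gc - gb)) := by
    rw [hud, hvd]
    ring
  rw [e1, abs_mul, abs_of_nonneg hy']
  have hab := abs_le.1 h1
  have hac := abs_le.1 h2
  have hbc := abs_le.1 h3
  have e2 : |u * (gc - ga) - v * (gc - gb)| ≤ max u v * D := by
    rcases le_total v u with huv | huv
    · rw [max_eq_left huv, abs_le]
      have e3 : u * (gc - ga) - v * (gc - gb) = (u - v) * (gc - ga) + v * (gb - ga) := by ring
      have e4 : 0 ≤ u - v := by linarith
      rw [e3]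
      constructor
      · have i1 : (u - v) * (-D) ≤ (u - v) * (gc - ga) := mul_le_mul_of_nonneg_left (by linarith) e4
        have i2 : v * (-D) ≤ v * (gb - ga) := mul_le_mul_of_nonneg_left (by linarith) hv0
        linarith
      · have i1 : (u - v) * (gc - ga) ≤ (u - v) * D := mul_le_mul_of_nonneg_left (by linarith) e4
        have i2 : v * (gb - ga) ≤ v * D := mul_le_mul_of_nonneg_left (by linarith) hv0
        linarith
    · rw [max_eq_right huv, abs_le]
      have e3 : u * (gc - ga) - v * (gc - gb) = u * (gb - ga) + (v - u) * (gb - gc) := by ring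
      have e4 : 0 ≤ v - u := by linarith
      rw [e3]
      constructor
      · have i1 : (v - u) * (-D) ≤ (v - u) * (gb - gc) := mul_le_mul_of_nonneg_left (by linarith) e4
        have i2 : u * (-D) ≤ u * (gb - ga) := mul_le_mul_of_nonneg_left (by linarith) hu0
        linarith
      · have i1 : (v - u) * (gb - gc) ≤ (v - u) * D := mul_le_mul_of_nonneg_left (by linarith) e4
        have i2 : u * (gb - ga) ≤ u * D := mul_le_mul_of_nonneg_left (by linarith) hu0
        linarith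
  have e5 : max u v ≤ (y * A + B + C) * (A + y * B + C) / (1 + y + y ^ 3) := by
    rw [le_div_iff₀ hK, mul_comm]
    rcases le_total v u with huv | huv
    · rw [max_eq_left huv]
      exact hu
    · rw [max_eq_right huv]
      exact hv
  calc (1 - y) * |u * (gc - ga) - v * (gc - gb)| ≤ (1 - y) * (max u v * D) :=
        mul_le_mul_of_nonneg_left e2 hy'
    _ ≤ (1 - y) * ((y * A + B + C) * (A + y * B + C) / (1 + y + y ^ 3) * D) :=
        mul_le_mul_of_nonneg_left (mul_le_mul_of_nonneg_right e5 hD) hy'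
    _ = (1 - y) / (1 + y + y ^ 3) * D * ((y * A + B + C) * (A + y * B + C)) := by ring

end Pool.Agent.WSK.Ht
end

section

/-!
Commuting orthogonal projections for a symmetric positive semidefinite form.
-/

set_option autoImplicit false

namespace Pool.Agent.WSK.Ht

open Finset

variable {V : Type*} [AddCommGroup V] [Module ℝ V] {B : V →ₗ[ℝ] V →ₗ[ℝ] ℝ}

/-- symmetric and positive semidefinite -/
structure Frm (B : V →ₗ[ℝ] V →ₗ[ℝ] ℝ) : Prop where
  symm : ∀ u v, B u v = B v u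
  nonneg : ∀ v, 0 ≤ B v v

/-- orthogonal projections -/
structure Prj (B : V →ₗ[ℝ] V →ₗ[ℝ] ℝ) (P : Module.End ℝ V) : Prop where
  sa : ∀ u v, B (P u) v = B u (P v)
  idem : ∀ v, P (P v) = P v

theorem Frm.two_le (h : Frm B) {ρ : ℝ} (hρ : 0 < ρ) (u v : V) :
    2 * B u v ≤ ρ * B u u + B v v / ρ := by
  have h1 := h.nonneg (ρ • u - v)
  have h2 : B (ρ • u - v) (ρ • u - v) = ρ ^ 2 * B u u - 2 * ρ * B u v + B v v := by
    simp only [map_sub, map_smul, LinearMap.sub_apply, LinearMap.smul_apply, smul_eq_mul,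
      h.symm v u]
    ring
  rw [h2] at h1
  have h3 : ρ * (2 * B u v) ≤ ρ * (ρ * B u u + B v v / ρ) := by
    have : ρ * (ρ * B u u + B v v / ρ) = ρ ^ 2 * B u u + B v v := by
      field_simp
    rw [this]
    linarith
  exact le_of_mul_le_mul_left h3 hρ

theorem Prj.self {P : Module.End ℝ V} (hP : Prj B P) (v : V) : B (P v) (P v) = B v (P v) := by
  rw [hP.sa, hP.idem]

theorem Prj.sub (h : Frm B) {P : Module.End ℝ V} (hP : Prj B P) (v : V) :
    B (v - P v) (v - P v) = B v v - B (P v) (P v) := by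
  simp only [map_sub, LinearMap.sub_apply]
  rw [h.symm (P v) v, hP.self]
  ring

theorem Prj.le (h : Frm B) {P : Module.End ℝ V} (hP : Prj B P) (v : V) :
    B (P v) (P v) ≤ B v v := by
  have h1 := h.nonneg (v - P v)
  rw [hP.sub h] at h1
  linarith

/-- the projection is the best approximation -/
theorem Prj.best (h : Frm B) {P : Module.End ℝ V} (hP : Prj B P) (v g : V) (hg : P g = g) :
    B v v - B (P v) (P v) ≤ B (v - g) (v - g) := by
  have h1 : B (v - g) (v - g) = B (v - P v) (v - P v) + B (P v - g) (P v - g) := by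
    have h2 : P (P v - g) = P v - g := by rw [map_sub, hP.idem, hg]
    have h5 : P (v - P v) = 0 := by rw [map_sub, hP.idem, sub_self]
    have h3 : B (v - P v) (P v - g) = 0 := by
      rw [← h2, ← hP.sa, h5, map_zero, LinearMap.zero_apply]
    have h4 : v - g = (v - P v) + (P v - g) := by abel
    rw [h4]
    generalize v - P v = a at h3 ⊢
    generalize P v - g = b at h3 ⊢
    have h6 : B b a = 0 := by rw [h.symm, h3]
    simp only [map_add, LinearMap.add_apply, h3, h6]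
    ring
  rw [h1, hP.sub h]
  linarith [h.nonneg (P v - g)]

theorem Prj.mul {P Q : Module.End ℝ V} (hP : Prj B P) (hQ : Prj B Q) (hc : Commute P Q) :
    Prj B (P * Q) := by
  have hc' : ∀ v, P (Q v) = Q (P v) := fun v => LinearMap.congr_fun hc v
  constructor
  · intro u v
    show B (P (Q u)) v = B u (P (Q v))
    rw [hP.sa, hQ.sa, hc']
  · intro v
    show P (Q (P (Q v))) = P (Q v)
    rw [← hc' (Q v), hP.idem, hQ.idem]

theorem Prj.one : Prj B (1 : Module.End ℝ V) := ⟨fun _ _ => rfl, fun _ => rfl⟩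

variable {ι : Type*}

theorem Prj.list {E : ι → Module.End ℝ V} (hE : ∀ i, Prj B (E i))
    (hc : ∀ i j, Commute (E i) (E j)) : ∀ l : List ι, Prj B (l.map E).prod
  | [] => by
    rw [List.map_nil, List.prod_nil]
    exact Prj.one
  | x :: l => by
    rw [List.map_cons, List.prod_cons]
    refine (hE x).mul (Prj.list hE hc l) ?_
    refine Commute.list_prod_right _ _ ?_
    intro y hy
    obtain ⟨j, _, rfl⟩ := List.mem_map.1 hy
    exact hc x j

/-! ### tensorization -/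

theorem commute_list {E F : ι → Module.End ℝ V} {x : ι}
    (hc : ∀ j, j ≠ x → Commute (E x) (F j)) {l : List ι} (hx : x ∉ l) :
    Commute (E x) (l.map F).prod := by
  refine Commute.list_prod_right _ _ ?_
  intro y hy
  obtain ⟨j, hj, rfl⟩ := List.mem_map.1 hy
  exact hc j fun h => hx (h ▸ hj)

theorem tens (h : Frm B) {T P : ι → Module.End ℝ V} (hP : ∀ i, Prj B (P i))
    (hPP : ∀ i j, Commute (P i) (P j)) (hTP : ∀ i j, i ≠ j → Commute (T i) (P j))
    (h1 : ∀ i v, P i (T i v) = P i v)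
    (h2 : ∀ i v, B (T i v) (T i v) ≤ B v v) {R : ℝ}
    (h3 : ∀ i v, B (T i v - P i v) (T i v - P i v) ≤ R * B (v - P i v) (v - P i v)) :
    ∀ l : List ι, l.Nodup → ((∀ v, (l.map P).prod ((l.map T).prod v) = (l.map P).prod v) ∧
      ∀ v, B ((l.map T).prod v - (l.map P).prod v) ((l.map T).prod v - (l.map P).prod v) ≤
        R * B (v - (l.map P).prod v) (v - (l.map P).prod v))
  | [], _ => by
    constructor
    · intro v
      simp
    · intro v
      simp
  | x :: l, hl => by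
    have hx : x ∉ l := (List.nodup_cons.1 hl).1
    obtain ⟨ih1, ih2⟩ := tens h hP hPP hTP h1 h2 h3 l (List.nodup_cons.1 hl).2
    simp only [List.map_cons, List.prod_cons]
    set Pl := (l.map P).prod with hPl
    set Tl := (l.map T).prod with hTl
    have hpl : Prj B Pl := Prj.list hP hPP l
    have c1 : ∀ v, T x (Pl v) = Pl (T x v) := fun v =>
      LinearMap.congr_fun (commute_list (E := T) (F := P) (fun j hj => hTP x j hj.symm) hx) v
    have c2 : ∀ v, P x (Pl v) = Pl (P x v) := fun v =>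
      LinearMap.congr_fun (commute_list (E := P) (F := P) (fun j _ => hPP x j) hx) v
    constructor
    · intro v
      show P x (Pl (T x (Tl v))) = P x (Pl v)
      rw [← c1, ih1, h1]
    · intro v
      show B (T x (Tl v) - P x (Pl v)) (T x (Tl v) - P x (Pl v)) ≤
        R * B (v - P x (Pl v)) (v - P x (Pl v))
      set a := T x (Tl v - Pl v) with ha
      set k := T x (Pl v) - P x (Pl v) with hk
      have e1 : T x (Tl v) - P x (Pl v) = a + k := by
        rw [ha, hk, map_sub]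
        abel
      have e2 : Pl a = 0 := by
        rw [ha, ← c1, map_sub, ih1, hpl.idem, sub_self, map_zero]
      have e3 : Pl k = k := by
        rw [hk, map_sub, ← c1, ← c2, hpl.idem]
      have e4 : B a k = 0 := by
        rw [← e3, ← hpl.sa, e2, map_zero, LinearMap.zero_apply]
      have e5 : B (a + k) (a + k) = B a a + B k k := by
        have e4' : B k a = 0 := by rw [h.symm, e4]
        simp only [map_add, LinearMap.add_apply, e4, e4']
        ring
      rw [e1, e5]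
      have i1 : B a a ≤ R * B (v - Pl v) (v - Pl v) := (h2 x _).trans (ih2 v)
      have i2 := h3 x (Pl v)
      have hpx : Prj B (P x * Pl) := (hP x).mul hpl (LinearMap.ext c2)
      have i3 := hpx.sub h v
      have i4 := hpl.sub h v
      have i5 := (hP x).sub h (Pl v)
      have i6 : (P x * Pl) v = P x (Pl v) := rfl
      rw [i6] at i3
      have i7 : B (v - P x (Pl v)) (v - P x (Pl v)) = B (v - Pl v) (v - Pl v) +
          B (Pl v - P x (Pl v)) (Pl v - P x (Pl v)) := by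
        rw [i3, i4, i5]
        ring
      rw [i7, mul_add]
      exact add_le_add i1 i2

/-- products of products -/
theorem prod_mul {E F : ι → Module.End ℝ V} (hc : ∀ i j, i ≠ j → Commute (E i) (F j)) :
    ∀ l : List ι, l.Nodup →
      (l.map E).prod * (l.map F).prod = (l.map fun i => E i * F i).prod
  | [], _ => by simp
  | x :: l, hl => by
    have hx : x ∉ l := (List.nodup_cons.1 hl).1
    simp only [List.map_cons, List.prod_cons]
    rw [← prod_mul hc l (List.nodup_cons.1 hl).2]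
    have : Commute (F x) (l.map E).prod :=
      commute_list (E := F) (F := E) (fun j hj => (hc j x hj).symm) hx
    calc E x * (l.map E).prod * (F x * (l.map F).prod)
        = E x * ((l.map E).prod * F x) * (l.map F).prod := by simp only [mul_assoc]
      _ = E x * (F x * (l.map E).prod) * (l.map F).prod := by rw [this.eq]
      _ = E x * F x * ((l.map E).prod * (l.map F).prod) := by simp only [mul_assoc]

/-! ### three projections -/

theorem three (h : Frm B) {F : ZMod 3 → Module.End ℝ V} {P : Module.End ℝ V}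
    (hF : ∀ c, Prj B (F c)) (hP : Prj B P) (h1 : ∀ c v, P (F c v) = P v)
    (h2 : ∀ c v, F c (P v) = P v) {ρ : ℝ} (hρ : 0 < ρ)
    (h3 : ∀ c d v, c ≠ d → B (F c (F d v) - P v) (F c (F d v) - P v) ≤
      ρ ^ 2 * B (v - P v) (v - P v)) (v : V) :
    2 * (1 - ρ) * (B v v - B (P v) (P v)) ≤ ∑ c, (B v v - B (F c v) (F c v)) := by
  set w := v - P v with hw
  have hPw : P w = 0 := by rw [hw, map_sub, hP.idem, sub_self]
  have hN : B w w = B v v - B (P v) (P v) := hP.sub h v
  have e1 : ∀ c, B (F c v) (F c v) = B (F c w) (F c w) + B (P v) (P v) := by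
    intro c
    have e2 : F c v = F c w + P v := by
      rw [hw, map_sub, h2]
      abel
    have e3 : B (F c w) (P v) = 0 := by
      rw [(hF c).sa, h2, ← hP.sa, hPw, map_zero, LinearMap.zero_apply]
    have e3' : B (P v) (F c w) = 0 := by rw [h.symm, e3]
    rw [e2]
    simp only [map_add, LinearMap.add_apply, e3, e3']
    ring
  have e4 : ∀ c d, c ≠ d → 2 * B (F c w) (F d w) ≤ ρ * B (F c w) (F c w) +
      ρ * B (F d w) (F d w) := by
    intro c d hcd
    have e5 : B (F c w) (F d w) = B (F c w) (F c (F d w)) := by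
      rw [← (hF c).sa, (hF c).idem]
    have e6 := h3 c d (F d w) hcd
    have e7 : P (F d w) = 0 := by rw [h1, hPw]
    rw [e7, sub_zero, sub_zero, (hF d).idem] at e6
    have e8 := h.two_le hρ (F c w) (F c (F d w))
    rw [e5]
    have e9 : B (F c (F d w)) (F c (F d w)) / ρ ≤ ρ * B (F d w) (F d w) := by
      rw [div_le_iff₀ hρ]
      calc B (F c (F d w)) (F c (F d w)) ≤ ρ ^ 2 * B (F d w) (F d w) := e6
        _ = ρ * B (F d w) (F d w) * ρ := by ring
    linarith
  have f01 := e4 0 1 (by decide)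
  have f02 := e4 0 2 (by decide)
  have f12 := e4 1 2 (by decide)
  have hsum : ∀ g : ZMod 3 → ℝ, ∑ c, g c = g 0 + g 1 + g 2 := fun g => Fin.sum_univ_three g
  have g0 := (hF 0).self w
  have g1 := (hF 1).self w
  have g2 := (hF 2).self w
  have g3 : B (F 0 w + F 1 w + F 2 w) (F 0 w + F 1 w + F 2 w) =
      B (F 0 w) (F 0 w) + B (F 1 w) (F 1 w) + B (F 2 w) (F 2 w) + 2 * B (F 0 w) (F 1 w) +
        2 * B (F 0 w) (F 2 w) + 2 * B (F 1 w) (F 2 w) := by
    simp only [map_add, LinearMap.add_apply]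
    rw [h.symm (F 1 w) (F 0 w), h.symm (F 2 w) (F 0 w), h.symm (F 2 w) (F 1 w)]
    ring
  have g4 := h.two_le (show (0 : ℝ) < 1 + 2 * ρ by linarith) w (F 0 w + F 1 w + F 2 w)
  have g5 : B w (F 0 w + F 1 w + F 2 w) = B (F 0 w) (F 0 w) + B (F 1 w) (F 1 w) +
      B (F 2 w) (F 2 w) := by
    rw [map_add, map_add, g0, g1, g2]
  rw [hsum, e1, e1, e1]
  rw [g5] at g4
  set s := B (F 0 w) (F 0 w) + B (F 1 w) (F 1 w) + B (F 2 w) (F 2 w) with hs
  have g6 : B (F 0 w + F 1 w + F 2 w) (F 0 w + F 1 w + F 2 w) / (1 + 2 * ρ) ≤ s := by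
    rw [div_le_iff₀ (by linarith), g3]
    linarith
  have g7 : s ≤ (1 + 2 * ρ) * B w w := by linarith
  rw [← hN]
  linarith

/-! ### random subsets -/

open Classical in
theorem shearer (h : Frm B) {P : ι → Module.End ℝ V} (hP : ∀ i, Prj B (P i))
    (hPP : ∀ i j, Commute (P i) (P j)) {Γ : Type*} (G : Finset Γ) (q : Γ → ℝ)
    (hq : ∀ γ ∈ G, 0 ≤ q γ) (S : Γ → ι → Prop) {θ : ℝ}
    (hS : ∀ i, θ ≤ ∑ γ ∈ G, if S γ i then q γ else 0) :
    ∀ (l : List ι) (v : V), θ * (B v v - B ((l.map P).prod v) ((l.map P).prod v)) ≤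
      ∑ γ ∈ G, q γ * (B v v - B (((l.filter fun i => decide (S γ i)).map P).prod v)
        (((l.filter fun i => decide (S γ i)).map P).prod v))
  | [], v => by simp
  | x :: l, v => by
    have ih := shearer h hP hPP G q hq S hS l (P x v)
    have hcx : ∀ (l : List ι) (v : V), P x ((l.map P).prod v) = (l.map P).prod (P x v) := by
      intro l v
      have hcm : Commute (P x) (l.map P).prod := by
        refine Commute.list_prod_right _ _ ?_
        intro y hy
        obtain ⟨j, _, rfl⟩ := List.mem_map.1 hy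
        exact hPP x j
      exact LinearMap.congr_fun hcm v
    have e1 : ∀ γ ∈ G, (if S γ x then q γ else 0) * (B v v - B (P x v) (P x v)) +
        q γ * (B (P x v) (P x v) - B (((l.filter fun i => decide (S γ i)).map P).prod (P x v))
          (((l.filter fun i => decide (S γ i)).map P).prod (P x v))) ≤
        q γ * (B v v - B ((((x :: l).filter fun i => decide (S γ i)).map P).prod v)
          ((((x :: l).filter fun i => decide (S γ i)).map P).prod v)) := by
      intro γ hγ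
      by_cases hx : S γ x
      · rw [if_pos hx, List.filter_cons_of_pos (by simpa using hx), List.map_cons, List.prod_cons]
        set F := ((l.filter fun i => decide (S γ i)).map P).prod with hF
        have e2 : (P x * F) v = F (P x v) := hcx _ v
        rw [e2]
        apply le_of_eq
        ring
      · rw [if_neg hx, List.filter_cons_of_neg (by simpa using hx), zero_mul, zero_add]
        set F := ((l.filter fun i => decide (S γ i)).map P).prod with hF
        have hpF : Prj B F := Prj.list hP hPP _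
        have e2 : F (P x v) = P x (F v) := (hcx _ v).symm
        refine mul_le_mul_of_nonneg_left ?_ (hq γ hγ)
        rw [← hpF.sub h, ← hpF.sub h, e2, ← map_sub]
        exact (hP x).le h _
    have e3 := sum_le_sum e1
    rw [sum_add_distrib, ← sum_mul] at e3
    have e4 : B v v - B (((x :: l).map P).prod v) (((x :: l).map P).prod v) =
        (B v v - B (P x v) (P x v)) + (B (P x v) (P x v) -
          B ((l.map P).prod (P x v)) ((l.map P).prod (P x v))) := by
      rw [List.map_cons, List.prod_cons]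
      have e5 : (P x * (l.map P).prod) v = (l.map P).prod (P x v) := hcx _ v
      rw [e5]
      ring
    rw [e4, mul_add]
    have e6 : 0 ≤ B v v - B (P x v) (P x v) := by
      rw [← (hP x).sub h]
      exact h.nonneg _
    have e7 := mul_le_mul_of_nonneg_right (hS x) e6
    linarith

/-! ### two projections -/

theorem seq_le {c : ℕ → ℝ} (h0 : ∀ k, 0 ≤ c k) (h1 : ∀ k, c (k + 1) ^ 2 ≤ c k * c (k + 2))
    {R C : ℝ} (hR : 0 < R) (h2 : ∀ k, c k ≤ C * R ^ k) : c 1 ≤ R * c 0 := by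
  by_contra hcon
  push Not at hcon
  have hc1 : 0 < c 1 := lt_of_le_of_lt (mul_nonneg hR.le (h0 0)) hcon
  have hc0 : 0 < c 0 := by
    rcases (h0 0).lt_or_eq with h | h
    · exact h
    · have := h1 0
      rw [← h, zero_mul] at this
      have h3 : 0 < c 1 ^ 2 := by positivity
      have h4 : c (0 + 1) = c 1 := rfl
      rw [h4] at this
      linarith
  set L := c 1 / c 0 with hL
  have hLR : R < L := by
    rw [hL, lt_div_iff₀ hc0]
    exact hcon
  have hL0 : 0 < L := hR.trans hLR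
  have key : ∀ k, 0 < c k ∧ L * c k ≤ c (k + 1) := by
    intro k
    induction k with
    | zero =>
      refine ⟨hc0, ?_⟩
      rw [hL, div_mul_cancel₀ _ hc0.ne']
    | succ k ih =>
      have h3 : 0 < c (k + 1) := lt_of_lt_of_le (mul_pos hL0 ih.1) ih.2
      refine ⟨h3, ?_⟩
      have h4 := h1 k
      have h5 : L * c (k + 1) * c k ≤ c (k + 1 + 1) * c k := by
        calc L * c (k + 1) * c k = c (k + 1) * (L * c k) := by ring
          _ ≤ c (k + 1) * c (k + 1) := mul_le_mul_of_nonneg_left ih.2 h3.le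
          _ = c (k + 1) ^ 2 := by ring
          _ ≤ c k * c (k + 2) := h4
          _ = c (k + 1 + 1) * c k := by ring_nf
      exact le_of_mul_le_mul_right h5 ih.1
  have key2 : ∀ k, c 0 * L ^ k ≤ c k := by
    intro k
    induction k with
    | zero => simp
    | succ k ih =>
      calc c 0 * L ^ (k + 1) = L * (c 0 * L ^ k) := by ring
        _ ≤ L * c k := mul_le_mul_of_nonneg_left ih hL0.le
        _ ≤ c (k + 1) := (key k).2
  obtain ⟨k, hk⟩ := pow_unbounded_of_one_lt (C / c 0) (show 1 < L / R by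
    rw [lt_div_iff₀ hR, one_mul]
    exact hLR)
  have h3 := (key2 k).trans (h2 k)
  rw [div_pow, div_lt_div_iff₀ hc0 (pow_pos hR k)] at hk
  linarith

/-- two projections -/
theorem two (h : Frm B) {K0 K1 : Module.End ℝ V} (hK0 : Prj B K0) (hK1 : Prj B K1)
    {r : ℝ} (hr : 0 < r) (v : V) (h1 : B (K0 (K1 v)) (K0 (K1 v)) ≤ r ^ 2 * B (K1 v) (K1 v)) :
    (1 - r) * B v v ≤ (B v v - B (K0 v) (K0 v)) + (B v v - B (K1 v) (K1 v)) := by
  have e1 : 2 * B (K0 v) (K1 v) ≤ r * B (K0 v) (K0 v) + r * B (K1 v) (K1 v) := by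
    have e2 : B (K0 v) (K1 v) = B (K0 v) (K0 (K1 v)) := by
      rw [← hK0.sa, hK0.idem]
    rw [e2]
    have e3 := h.two_le hr (K0 v) (K0 (K1 v))
    have e4 : B (K0 (K1 v)) (K0 (K1 v)) / r ≤ r * B (K1 v) (K1 v) := by
      rw [div_le_iff₀ hr]
      calc B (K0 (K1 v)) (K0 (K1 v)) ≤ r ^ 2 * B (K1 v) (K1 v) := h1
        _ = r * B (K1 v) (K1 v) * r := by ring
    linarith
  have e5 := h.two_le (show (0 : ℝ) < 1 + r by linarith) v (K0 v + K1 v)
  have e6 : B v (K0 v + K1 v) = B (K0 v) (K0 v) + B (K1 v) (K1 v) := by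
    rw [map_add, hK0.self, hK1.self]
  have e7 : B (K0 v + K1 v) (K0 v + K1 v) = B (K0 v) (K0 v) + B (K1 v) (K1 v) +
      2 * B (K0 v) (K1 v) := by
    simp only [map_add, LinearMap.add_apply]
    rw [h.symm (K1 v) (K0 v)]
    ring
  rw [e6] at e5
  have e8 : B (K0 v + K1 v) (K0 v + K1 v) / (1 + r) ≤ B (K0 v) (K0 v) + B (K1 v) (K1 v) := by
    rw [div_le_iff₀ (by linarith), e7]
    linarith
  linarith

/-- the decay of the alternating products bounds the product of the two projections -/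
theorem alt (h : Frm B) {K : ℕ → Module.End ℝ V} (hK : ∀ k, Prj B (K k))
    (hper : ∀ k, K (k + 2) = K k) {R C : ℝ} (hR : 0 < R) {w : V} (hw : K 1 w = w)
    (y : ℕ → V) (hy0 : y 0 = w) (hy : ∀ k, y (k + 1) = K k (y k))
    (hd : ∀ k, B (y k) (y k) ≤ C * R ^ k) : B (K 0 w) (K 0 w) ≤ R * B w w := by
  have h1 := seq_le (c := fun k => B (y k) (y k)) (fun k => h.nonneg _) (fun k => ?_) hR hd
  · simp only [hy0] at h1
    have h2 : y 1 = K 0 w := by
      have := hy 0
      rwa [hy0] at this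
    rw [h2] at h1
    exact h1
  · show B (y (k + 1)) (y (k + 1)) ^ 2 ≤ B (y k) (y k) * B (y (k + 2)) (y (k + 2))
    have hfix : K (k + 1) (y k) = y k := by
      cases k with
      | zero => rw [hy0]; exact hw
      | succ k => rw [hy k, hper k]; exact (hK k).idem _
    have e1 : B (y (k + 1)) (y (k + 1)) = B (y (k + 2)) (y k) := by
      have e2 : y (k + 2) = K (k + 1) (y (k + 1)) := hy (k + 1)
      rw [e2, (hK (k + 1)).sa, hfix, hy k, (hK k).self, h.symm]
    rw [e1]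
    -- Cauchy-Schwarz
    set a := y k
    set b := y (k + 2)
    have e3 : ∀ t : ℝ, 0 ≤ B b b * t ^ 2 - 2 * B b a * t + B a a := by
      intro t
      have e4 := h.nonneg (t • b - a)
      have e5 : B (t • b - a) (t • b - a) = B b b * t ^ 2 - 2 * B b a * t + B a a := by
        simp only [map_sub, map_smul, LinearMap.sub_apply, LinearMap.smul_apply, smul_eq_mul,
          h.symm a b]
        ring
      rwa [e5] at e4
    have e6 := h.nonneg a
    have e7 := h.nonneg b
    rcases e7.lt_or_eq with e8 | e8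
    · have e9 := e3 (B b a / B b b)
      have e10 : B b b * (B b a / B b b) ^ 2 - 2 * B b a * (B b a / B b b) + B a a =
          (B a a * B b b - B b a ^ 2) / B b b := by
        field_simp
        ring
      rw [e10] at e9
      have e11 := (div_nonneg_iff.1 e9)
      rcases e11 with ⟨e12, _⟩ | ⟨_, e12⟩
      · linarith
      · linarith
    · have e9 : B b a = 0 := by
        by_contra hne
        have e10 := e3 ((B a a + 1) / (2 * B b a))
        rw [← e8] at e10
        have e11 : (0 : ℝ) * ((B a a + 1) / (2 * B b a)) ^ 2 -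
            2 * B b a * ((B a a + 1) / (2 * B b a)) + B a a = -1 := by
          field_simp
          ring
        rw [e11] at e10
        linarith
      rw [e9, ← e8]
      simp

end Pool.Agent.WSK.Ht
end

section

/-!
Averages over the colour of one site, for a positive weight on the configurations.
-/

set_option autoImplicit false
set_option linter.unusedSectionVars false

namespace Pool.Agent.WSK.Ht

open Finset

variable {S : Type} [Fintype S] [DecidableEq S]

/-- the form `∑ W f g` -/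
noncomputable def Bf (W : (S → ZMod 3) → ℝ) :
    ((S → ZMod 3) → ℝ) →ₗ[ℝ] ((S → ZMod 3) → ℝ) →ₗ[ℝ] ℝ :=
  LinearMap.mk₂ ℝ (fun f g => ∑ σ, W σ * (f σ * g σ))
    (fun f f' g => by
      rw [← sum_add_distrib]
      exact sum_congr rfl fun σ _ => by simp only [Pi.add_apply]; ring)
    (fun c f g => by
      rw [smul_eq_mul, mul_sum]
      exact sum_congr rfl fun σ _ => by simp only [Pi.smul_apply, smul_eq_mul]; ring)
    (fun f g g' => by
      rw [← sum_add_distrib]
      exact sum_congr rfl fun σ _ => by simp only [Pi.add_apply]; ring)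
    (fun c f g => by
      rw [smul_eq_mul, mul_sum]
      exact sum_congr rfl fun σ _ => by simp only [Pi.smul_apply, smul_eq_mul]; ring)

variable {W : (S → ZMod 3) → ℝ}

theorem Bf_apply (f g : (S → ZMod 3) → ℝ) : Bf W f g = ∑ σ, W σ * (f σ * g σ) := rfl

theorem frm (hW : ∀ σ, 0 ≤ W σ) : Frm (Bf W) := by
  constructor
  · intro u v
    rw [Bf_apply, Bf_apply]
    exact sum_congr rfl fun σ _ => by ring
  · intro v
    rw [Bf_apply]
    exact sum_nonneg fun σ _ => mul_nonneg (hW σ) (mul_self_nonneg _)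

theorem Bf_zero (hW : ∀ σ, 0 < W σ) {u : (S → ZMod 3) → ℝ} (h : Bf W u u = 0) : u = 0 := by
  rw [Bf_apply, sum_eq_zero_iff_of_nonneg fun σ _ => mul_nonneg (hW σ).le (mul_self_nonneg _)] at h
  funext σ
  rcases mul_eq_zero.1 (h σ (mem_univ _)) with h1 | h1
  · exact absurd h1 (hW σ).ne'
  · exact mul_self_eq_zero.1 h1

theorem Bf_ext (hW : ∀ σ, 0 < W σ) {u v : (S → ZMod 3) → ℝ} (h : ∀ g, Bf W u g = Bf W v g) :
    u = v := by
  have h1 : Bf W (u - v) (u - v) = 0 := by
    have e : Bf W (u - v) = Bf W u - Bf W v := map_sub _ _ _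
    rw [e, LinearMap.sub_apply, h, sub_self]
  exact sub_eq_zero.1 (Bf_zero hW h1)

/-- blocks of colours -/
structure Blk (R : ZMod 3 → Finset (ZMod 3)) : Prop where
  refl : ∀ a, a ∈ R a
  eq : ∀ a b, b ∈ R a → R b = R a

/-- the average over the block of the colour of `x` -/
noncomputable def Av (W : (S → ZMod 3) → ℝ) (R : ZMod 3 → Finset (ZMod 3)) (x : S) :
    Module.End ℝ ((S → ZMod 3) → ℝ) where
  toFun f := fun σ => (∑ b ∈ R (σ x), W (Function.update σ x b) * f (Function.update σ x b)) /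
    ∑ b ∈ R (σ x), W (Function.update σ x b)
  map_add' f g := by
    funext σ
    simp only [Pi.add_apply, mul_add, sum_add_distrib, add_div]
  map_smul' c f := by
    funext σ
    simp only [Pi.smul_apply, smul_eq_mul, RingHom.id_apply]
    rw [← mul_div_assoc, mul_sum]
    congr 1
    exact sum_congr rfl fun b _ => by ring

theorem Av_apply (R : ZMod 3 → Finset (ZMod 3)) (x : S) (f : (S → ZMod 3) → ℝ) (σ : S → ZMod 3) :
    Av W R x f σ = (∑ b ∈ R (σ x), W (Function.update σ x b) * f (Function.update σ x b)) /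
      ∑ b ∈ R (σ x), W (Function.update σ x b) := rfl

theorem den_pos (hW : ∀ σ, 0 < W σ) {R : ZMod 3 → Finset (ZMod 3)} (hR : Blk R) (x : S)
    (σ : S → ZMod 3) : 0 < ∑ b ∈ R (σ x), W (Function.update σ x b) :=
  sum_pos (fun _ _ => hW _) ⟨_, hR.refl _⟩

/-- invariance under the changes inside of the block -/
def Inv (R : ZMod 3 → Finset (ZMod 3)) (x : S) (f : (S → ZMod 3) → ℝ) : Prop :=
  ∀ σ, ∀ b ∈ R (σ x), f (Function.update σ x b) = f σ

theorem Av_inv {R : ZMod 3 → Finset (ZMod 3)} (hR : Blk R) (x : S)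
    (f : (S → ZMod 3) → ℝ) : Inv R x (Av W R x f) := by
  intro σ b hb
  rw [Av_apply, Av_apply, Function.update_self, hR.eq _ _ hb]
  simp only [Function.update_idem]

theorem Inv.av (hW : ∀ σ, 0 < W σ) {R : ZMod 3 → Finset (ZMod 3)} (hR : Blk R) {x : S}
    {f : (S → ZMod 3) → ℝ} (h : Inv R x f) : Av W R x f = f := by
  funext σ
  rw [Av_apply, div_eq_iff (den_pos hW hR x σ).ne', mul_sum]
  refine sum_congr rfl fun b hb => ?_
  rw [h σ b hb, mul_comm]

theorem sum_swap (x : S) (F : (S → ZMod 3) → (S → ZMod 3) → ℝ) :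
    ∑ σ, ∑ b, F σ (Function.update σ x b) = ∑ σ, ∑ b, F (Function.update σ x b) σ := by
  rw [← Fintype.sum_prod_type', ← Fintype.sum_prod_type']
  refine Finset.sum_nbij' (fun a => (Function.update a.1 x a.2, a.1 x))
    (fun a => (Function.update a.1 x a.2, a.1 x)) (fun _ _ => mem_univ _) (fun _ _ => mem_univ _)
    ?_ ?_ ?_
  · rintro ⟨σ, b⟩ _
    simp
  · rintro ⟨σ, b⟩ _
    simp
  · rintro ⟨σ, b⟩ _
    simp

theorem Av_sa {R : ZMod 3 → Finset (ZMod 3)} (hR : Blk R) (x : S)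
    (f g : (S → ZMod 3) → ℝ) : Bf W (Av W R x f) g = Bf W f (Av W R x g) := by
  have hsymm : ∀ a b, b ∈ R a ↔ a ∈ R b := by
    intro a b
    constructor
    · intro h
      rw [hR.eq a b h]
      exact hR.refl a
    · intro h
      rw [hR.eq b a h]
      exact hR.refl b
  set Z : (S → ZMod 3) → ℝ := fun σ => ∑ b ∈ R (σ x), W (Function.update σ x b) with hZ
  have hZb : ∀ σ b, b ∈ R (σ x) → Z (Function.update σ x b) = Z σ := by
    intro σ b hb
    simp only [hZ, Function.update_self, hR.eq _ _ hb, Function.update_idem]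
  have e1 : Bf W (Av W R x f) g = ∑ σ, ∑ b, if b ∈ R (σ x) then
      W σ * W (Function.update σ x b) / Z σ * (f (Function.update σ x b) * g σ) else 0 := by
    rw [Bf_apply]
    refine sum_congr rfl fun σ _ => ?_
    rw [Av_apply, ← sum_filter, filter_mem_eq_inter, univ_inter, div_mul_eq_mul_div,
      ← mul_div_assoc, sum_mul, mul_sum, sum_div]
    refine sum_congr rfl fun b _ => ?_
    ring
  have e2 : Bf W f (Av W R x g) = ∑ σ, ∑ b, if b ∈ R (σ x) then
      W σ * W (Function.update σ x b) / Z σ * (f σ * g (Function.update σ x b)) else 0 := by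
    rw [Bf_apply]
    refine sum_congr rfl fun σ _ => ?_
    rw [Av_apply, ← sum_filter, filter_mem_eq_inter, univ_inter, ← mul_div_assoc,
      ← mul_div_assoc, mul_sum, mul_sum, sum_div]
    refine sum_congr rfl fun b _ => ?_
    ring
  rw [e1, e2]
  have e3 := sum_swap x (fun σ τ => if τ x ∈ R (σ x) then
    W σ * W τ / Z σ * (f τ * g σ) else 0)
  simp only [Function.update_self] at e3
  rw [e3]
  refine sum_congr rfl fun σ _ => sum_congr rfl fun b _ => ?_
  by_cases hb : b ∈ R (σ x)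
  · rw [if_pos hb, if_pos ((hsymm _ _).1 hb), hZb σ b hb]
    ring
  · rw [if_neg hb, if_neg fun h => hb ((hsymm _ _).2 h)]

theorem Av_prj (hW : ∀ σ, 0 < W σ) {R : ZMod 3 → Finset (ZMod 3)} (hR : Blk R) (x : S) :
    Prj (Bf W) (Av W R x) :=
  ⟨Av_sa hR x, fun f => (Av_inv hR x f).av hW hR⟩

/-- `x` and `y` are conditionally independent -/
def Ind (W : (S → ZMod 3) → ℝ) (x y : S) : Prop :=
  ∀ σ a b, W (Function.update (Function.update σ x a) y b) * W σ =
    W (Function.update σ x a) * W (Function.update σ y b)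

theorem Av_comm (hW : ∀ σ, 0 < W σ) {R R' : ZMod 3 → Finset (ZMod 3)} (hR : Blk R)
    (hR' : Blk R') {x y : S} (hxy : x ≠ y) (hi : Ind W x y) :
    Commute (Av W R x) (Av W R' y) := by
  have key : ∀ (x y : S) (R R' : ZMod 3 → Finset (ZMod 3)), Blk R → Blk R' → x ≠ y → Ind W x y →
      ∀ f σ, Av W R x (Av W R' y f) σ =
        (∑ a ∈ R (σ x), ∑ b ∈ R' (σ y), W (Function.update σ x a) * W (Function.update σ y b) *
          f (Function.update (Function.update σ x a) y b)) /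
        ((∑ a ∈ R (σ x), W (Function.update σ x a)) *
          ∑ b ∈ R' (σ y), W (Function.update σ y b)) := by
    intro x y R R' hR hR' hxy hi f σ
    have hd1 := den_pos hW hR x σ
    have hd2 := den_pos hW hR' y σ
    have e1 : ∀ a, Av W R' y f (Function.update σ x a) =
        (∑ b ∈ R' (σ y), W (Function.update σ y b) *
          f (Function.update (Function.update σ x a) y b)) /
        ∑ b ∈ R' (σ y), W (Function.update σ y b) := by
      intro a
      rw [Av_apply, Function.update_of_ne hxy.symm]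
      have e2 : ∀ b, W (Function.update (Function.update σ x a) y b) =
          W (Function.update σ x a) / W σ * W (Function.update σ y b) := by
        intro b
        have := hi σ a b
        rw [div_mul_eq_mul_div, eq_div_iff (hW σ).ne']
        exact this
      simp only [e2]
      have e3 : W (Function.update σ x a) / W σ ≠ 0 :=
        div_ne_zero (hW _).ne' (hW _).ne'
      simp only [mul_assoc]
      rw [← mul_sum, ← mul_sum, mul_div_mul_left _ _ e3]
    rw [Av_apply]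
    simp only [e1]
    have e4 : ∀ a, ∑ b ∈ R' (σ y), W (Function.update σ x a) * W (Function.update σ y b) *
        f (Function.update (Function.update σ x a) y b) = W (Function.update σ x a) *
        ∑ b ∈ R' (σ y), W (Function.update σ y b) *
          f (Function.update (Function.update σ x a) y b) := by
      intro a
      rw [mul_sum]
      exact sum_congr rfl fun b _ => by ring
    simp only [e4]
    rw [mul_comm (∑ a ∈ R (σ x), W (Function.update σ x a)), ← div_div]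
    congr 1
    rw [sum_div]
    exact sum_congr rfl fun a _ => by rw [mul_div_assoc]
  have hi' : Ind W y x := by
    intro σ a b
    have := hi σ b a
    rw [Function.update_comm hxy] at this
    rw [this]
    ring
  refine LinearMap.ext fun f => funext fun σ => ?_
  show Av W R x (Av W R' y f) σ = Av W R' y (Av W R x f) σ
  rw [key x y R R' hR hR' hxy hi, key y x R' R hR' hR hxy.symm hi', sum_comm, mul_comm]
  congr 1
  refine sum_congr rfl fun b _ => sum_congr rfl fun a _ => ?_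
  rw [Function.update_comm hxy]
  ring

/-! ### the blocks -/

/-- all colours -/
def Rf : ZMod 3 → Finset (ZMod 3) := fun _ => univ

/-- the blocks `{c}` and its complement -/
def Rc (c : ZMod 3) : ZMod 3 → Finset (ZMod 3) := fun a => if a = c then {c} else univ.erase c

theorem blk_f : Blk Rf := ⟨fun _ => mem_univ _, fun _ _ _ => rfl⟩

theorem blk_c (c : ZMod 3) : Blk (Rc c) := by
  revert c
  have h1 : ∀ c a : ZMod 3, a ∈ Rc c a := by decide
  have h2 : ∀ c a b : ZMod 3, b ∈ Rc c a → Rc c b = Rc c a := by decide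
  exact fun c => ⟨h1 c, h2 c⟩

theorem Pf_Fc (hW : ∀ σ, 0 < W σ) (c : ZMod 3) (x : S) (f : (S → ZMod 3) → ℝ) :
    Av W (Rc c) x (Av W Rf x f) = Av W Rf x f := by
  refine Inv.av hW (blk_c c) fun σ b _ => ?_
  exact Av_inv blk_f x f σ b (mem_univ _)

theorem Fc_Pf (hW : ∀ σ, 0 < W σ) (c : ZMod 3) (x : S) (f : (S → ZMod 3) → ℝ) :
    Av W Rf x (Av W (Rc c) x f) = Av W Rf x f := by
  refine Bf_ext hW fun g => ?_
  rw [Av_sa blk_f, Av_sa (blk_c c), Pf_Fc hW, ← Av_sa blk_f]

/-! ### the correlation at one site -/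

theorem three_pts {α β γ x y z ρ2 : ℝ} (hα : 0 < α) (hβ : 0 < β) (hγ : 0 < γ)
    (hρ : α * β ≤ ρ2 * ((α + γ) * (β + γ))) {m m' M : ℝ} (hm : (α + γ) * m = α * x + γ * z)
    (hm' : (β + γ) * m' = β * y + γ * m) (hM : (α + β + γ) * M = α * x + β * y + γ * z) :
    α * (m - M) ^ 2 + β * (m' - M) ^ 2 + γ * (m' - M) ^ 2 ≤
      ρ2 * (α * (x - M) ^ 2 + β * (y - M) ^ 2 + γ * (z - M) ^ 2) := by
  have hS : 0 < α + β + γ := by linarith
  have hag : 0 < α + γ := by linarith
  have hbg : 0 < β + γ := by linarith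
  have hρ0 : 0 < ρ2 := by
    by_contra hcon
    push Not at hcon
    have h1 : 0 < α * β := mul_pos hα hβ
    have h2 : ρ2 * ((α + γ) * (β + γ)) ≤ 0 :=
      mul_nonpos_of_nonpos_of_nonneg hcon (mul_pos hag hbg).le
    linarith
  have e1 : (α + β + γ) * (m - M) = β * (m - y) := by linear_combination hm - hM
  have e2 : (α + β + γ) * (y - M) = -(α + γ) * (m - y) := by linear_combination hm - hM
  have e3 : (β + γ) * (m - m') = β * (m - y) := by linear_combination -hm'
  have e4 : (α + β + γ) * (m' - M) = -α * (m - m') := by linear_combination hm' + hm - hM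
  -- the left side
  have l1 : (α + β + γ) * (α * (m - M) ^ 2 + β * (m' - M) ^ 2 + γ * (m' - M) ^ 2) =
      α * (β + γ) * (m - m') ^ 2 := by
    have e5 : (α + β + γ) * (m - M) = (β + γ) * (m - m') := by rw [e1, e3]
    have h1 : (α + β + γ) * ((α + β + γ) * (α * (m - M) ^ 2 + β * (m' - M) ^ 2 +
        γ * (m' - M) ^ 2)) = (α + β + γ) * (α * (β + γ) * (m - m') ^ 2) := by
      calc (α + β + γ) * ((α + β + γ) * (α * (m - M) ^ 2 + β * (m' - M) ^ 2 +
          γ * (m' - M) ^ 2)) = α * ((α + β + γ) * (m - M)) ^ 2 +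
            (β + γ) * ((α + β + γ) * (m' - M)) ^ 2 := by ring
        _ = α * ((β + γ) * (m - m')) ^ 2 + (β + γ) * (-α * (m - m')) ^ 2 := by rw [e5, e4]
        _ = (α + β + γ) * (α * (β + γ) * (m - m') ^ 2) := by ring
    exact mul_left_cancel₀ hS.ne' h1
  have l2 : (β + γ) * ((α + β + γ) * (α * (m - M) ^ 2 + β * (m' - M) ^ 2 +
      γ * (m' - M) ^ 2)) = α * β ^ 2 * (m - y) ^ 2 := by
    rw [l1]
    calc (β + γ) * (α * (β + γ) * (m - m') ^ 2) = α * ((β + γ) * (m - m')) ^ 2 := by ring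
      _ = α * β ^ 2 * (m - y) ^ 2 := by rw [e3]; ring
  -- the right side
  have r1 : (α + γ) * (m - M) ^ 2 ≤ α * (x - M) ^ 2 + γ * (z - M) ^ 2 := by
    have h1 : (α + γ) * (α * (x - M) ^ 2 + γ * (z - M) ^ 2) - ((α + γ) * (m - M)) ^ 2 =
        α * γ * (x - z) ^ 2 := by
      have h2 : (α + γ) * (m - M) = α * (x - M) + γ * (z - M) := by linear_combination hm
      rw [h2]
      ring
    have h2 : 0 ≤ α * γ * (x - z) ^ 2 := by positivity
    have h3 : (α + γ) * ((α + γ) * (m - M) ^ 2) ≤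
        (α + γ) * (α * (x - M) ^ 2 + γ * (z - M) ^ 2) := by
      have : (α + γ) * ((α + γ) * (m - M) ^ 2) = ((α + γ) * (m - M)) ^ 2 := by ring
      rw [this]
      linarith
    exact le_of_mul_le_mul_left h3 hag
  have r2 : (α + β + γ) * ((α + γ) * (m - M) ^ 2 + β * (y - M) ^ 2) =
      β * (α + γ) * (m - y) ^ 2 := by
    have h1 : (α + β + γ) * ((α + β + γ) * ((α + γ) * (m - M) ^ 2 + β * (y - M) ^ 2)) =
        (α + β + γ) * (β * (α + γ) * (m - y) ^ 2) := by
      calc (α + β + γ) * ((α + β + γ) * ((α + γ) * (m - M) ^ 2 + β * (y - M) ^ 2))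
          = (α + γ) * ((α + β + γ) * (m - M)) ^ 2 + β * ((α + β + γ) * (y - M)) ^ 2 := by ring
        _ = (α + γ) * (β * (m - y)) ^ 2 + β * (-(α + γ) * (m - y)) ^ 2 := by rw [e1, e2]
        _ = (α + β + γ) * (β * (α + γ) * (m - y) ^ 2) := by ring
    exact mul_left_cancel₀ hS.ne' h1
  -- comparison
  have c1 : (β + γ) * ((α + β + γ) * (α * (m - M) ^ 2 + β * (m' - M) ^ 2 +
      γ * (m' - M) ^ 2)) ≤ (β + γ) * ((α + β + γ) * (ρ2 * (α * (x - M) ^ 2 +
        β * (y - M) ^ 2 + γ * (z - M) ^ 2))) := by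
    rw [l2]
    have h1 : (β + γ) * ((α + β + γ) * (ρ2 * ((α + γ) * (m - M) ^ 2 + β * (y - M) ^ 2))) ≤
        (β + γ) * ((α + β + γ) * (ρ2 * (α * (x - M) ^ 2 + β * (y - M) ^ 2 +
          γ * (z - M) ^ 2))) := by
      refine mul_le_mul_of_nonneg_left (mul_le_mul_of_nonneg_left
        (mul_le_mul_of_nonneg_left ?_ hρ0.le) hS.le) hbg.le
      linarith
    refine le_trans ?_ h1
    have h2 : (β + γ) * ((α + β + γ) * (ρ2 * ((α + γ) * (m - M) ^ 2 + β * (y - M) ^ 2))) =
        ρ2 * ((α + γ) * (β + γ)) * (β * (m - y) ^ 2) := by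
      calc (β + γ) * ((α + β + γ) * (ρ2 * ((α + γ) * (m - M) ^ 2 + β * (y - M) ^ 2)))
          = (β + γ) * ρ2 * ((α + β + γ) * ((α + γ) * (m - M) ^ 2 + β * (y - M) ^ 2)) := by ring
        _ = ρ2 * ((α + γ) * (β + γ)) * (β * (m - y) ^ 2) := by rw [r2]; ring
    rw [h2]
    have h3 : 0 ≤ β * (m - y) ^ 2 := by positivity
    have h4 := mul_le_mul_of_nonneg_right hρ h3
    linarith
  exact le_of_mul_le_mul_left (le_of_mul_le_mul_left c1 hbg) hS

end Pool.Agent.WSK.Ht
end
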